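import Pool.Agent.P.MP_1157dd_an.N.Base

/-! The half colouring from Schatten `p` to Schatten `q`. -/

namespace Pool.Agent.P.MP_1157dd_an.N

open Matrix
open scoped ENNReal

namespace FCx

lemma le_pow {r L : ℝ} (hr : 0 < r) (h : Real.log r ≤ L) :
    r ≤ (2 : ℝ) ^ ⌈2 * L⌉₊ := by
  rw [← Real.log_le_log_iff hr (by positivity), Real.log_pow]
  have h1 := Nat.le_ceil (2 * L)
  have h2 := Real.log_two_gt_d9
  nlinarith

lemma card_le {n : ℕ} {x : Fin n → ℝ} (a1 : Cube x) (a3 : 2 * (free x).card ≤ n) :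
    n ≤ 2 * (Finset.univ.filter fun i => |x i| = 1).card := by
  have := Finset.card_filter_add_card_filter_not (s := Finset.univ) fun i => |x i| < 1
  rw [Finset.card_univ, Fintype.card_fin] at this
  rw [free] at a3
  have e : (Finset.univ.filter fun i => |x i| = 1) = Finset.univ.filter fun i => ¬|x i| < 1 :=
    Finset.filter_congr fun i _ => ⟨fun h => not_lt.2 h.ge, fun h =>
      le_antisymm (a1 i) (not_lt.1 h)⟩
  rw [e]
  omega

lemma card_sign {n : ℕ} {x : Fin n → ℝ} (h : ∀ i, |x i| = 1) :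
    n ≤ 2 * (Finset.univ.filter fun i => |x i| = 1).card := by
  rw [Finset.filter_true_of_mem fun i _ => h i, Finset.card_univ, Fintype.card_fin]
  omega

end FCx

theorem p_FC (hLP : S_LP) (hSCH : S_SCH) (hVAR : S_VAR) (hENTS : S_ENTS) (hNCKS : S_NCKS)
    (hSPLIT : S_SPLIT) : S_FC := by
  refine ⟨10 * 2 ^ 22, fun p q hp hpq m n A hA => ?_⟩
  have p1 : 1 ≤ p := le_trans (by norm_num) hp
  have q1 : 1 ≤ q := p1.trans hpq
  have z : schatten q (0 : Matrix (Fin m) (Fin m) ℝ) = 0 := by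
    have := (hSCH m q q1 0).2.2.1 0
    rwa [zero_smul, abs_zero, zero_mul] at this
  have r0 : (0 : ℝ) ≤ min 1 ((m : ℝ) / n) := le_min zero_le_one (by positivity)
  by_cases h0 : n = 0 ∨ m = 0
  · refine ⟨1, fun i => by simp, FCx.card_sign fun i => by simp, ?_⟩
    have e : ∑ i, (1 : Fin n → ℝ) i • A i = 0 := by
      rcases h0 with rfl | rfl
      · simp
      · exact Subsingleton.elim _ _
    rw [e, z]
    positivity
  have hn : (0 : ℝ) < n := Nat.cast_pos.2 (Nat.pos_of_ne_zero fun h => h0 (Or.inl h))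
  have hm : (0 : ℝ) < m := Nat.cast_pos.2 (Nat.pos_of_ne_zero fun h => h0 (Or.inr h))
  have hr : (0 : ℝ) < m / n := div_pos hm hn
  obtain ⟨L, hL⟩ : ∃ L, L = max 1 (Real.log ((m : ℝ) / n)) := ⟨_, rfl⟩
  have L1 : 1 ≤ L := hL ▸ le_max_left _ _
  have L2 : Real.log ((m : ℝ) / n) ≤ L := hL ▸ le_max_right _ _
  rw [← hL]
  rcases le_total p (ENNReal.ofReal L) with hc | hc
  · have pt : p ≠ ∞ := ne_top_of_le_ne_top ENNReal.ofReal_ne_top hc
    have L3 : (2 : ℝ) ≤ L := by
      have := hp.trans hc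
      rwa [← ENNReal.ofReal_ofNat, ENNReal.ofReal_le_ofReal_iff (by linarith)] at this
    have r1 : (1 : ℝ) ≤ m / n := by
      by_contra hlt
      have := Real.log_nonpos hr.le (not_le.1 hlt).le
      rw [max_eq_left (by linarith)] at hL
      linarith
    have hT : √(∑ i, schatten p (A i) ^ 2) ≤ √(n : ℝ) := by
      refine Real.sqrt_le_sqrt ?_
      calc _ ≤ ∑ _i : Fin n, (1 : ℝ) := Finset.sum_le_sum fun i _ =>
            pow_le_one₀ (hLP _ p p1 (sv (A i))).1 (hA i)
        _ = _ := by simp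
    have hS : SVar p A √(n : ℝ) := fun O hO =>
      ⟨(hVAR m _ A p hp O hO).1.trans hT, (hVAR m _ A p hp O hO).2.trans hT⟩
    have hk := hNCKS m (Fin n) A p _ hp pt (Real.sqrt_nonneg _) hS
    obtain ⟨s, hs⟩ : ∃ s : Fin n → Bool, ¬ 8 * √p.toReal * √(n : ℝ) < schatten p (lc A (sg s)) := by
      by_contra hne
      rw [Finset.filter_true_of_mem fun s _ => not_not.1 fun h => hne ⟨s, h⟩, Finset.card_univ,
        Fintype.card_fun, Fintype.card_bool] at hk
      have : 0 < 2 ^ Fintype.card (Fin n) := by positivity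
      omega
    have ha : ∀ i, |sg s i| = 1 := fun i => by
      rcases sign_sg s i with h | h <;> simp [h]
    refine ⟨sg s, fun i => (ha i).le, FCx.card_sign ha, ?_⟩
    rw [min_eq_left hc, min_eq_left r1, Real.one_rpow, mul_one, Real.sqrt_mul hn.le]
    have h1 : schatten q (lc A (sg s)) ≤ schatten p (lc A (sg s)) :=
      (hLP _ p p1 (sv (lc A (sg s)))).2.2.2.2.2.1 q hpq
    have h2 : 0 ≤ √(n : ℝ) * √p.toReal := by positivity
    have h3 := not_lt.1 hs
    change schatten q (lc A (sg s)) ≤ _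
    nlinarith
  · obtain ⟨B, W, b1, b2, b3⟩ := hSPLIT m (Fin n) A p q hp hpq hA
    rw [Fintype.card_fin] at b3
    have r2 : 0 < (min 1 ((m : ℝ) / n)) ^ (p.toReal⁻¹ - q.toReal⁻¹) :=
      Real.rpow_pos_of_pos (lt_min one_pos hr) _
    obtain ⟨r, hr'⟩ : ∃ r, r = (min 1 ((m : ℝ) / n)) ^ (p.toReal⁻¹ - q.toReal⁻¹) := ⟨_, rfl⟩
    rw [← hr'] at r2 b3 ⊢
    have sn : 0 < √(n : ℝ) := Real.sqrt_pos.2 hn
    obtain ⟨x, a1, a2, a3, a4⟩ := hENTS m (Fin n) Unit (fun _ => B) q (fun _ => 5 * √(n : ℝ) * r)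
      (fun _ => ⌈2 * L⌉₊ + 1) W 0 q1 (fun _ => by positivity) (fun _ => by omega) (fun _ => b3)
      (by
        have := FCx.le_pow hr L2
        rw [div_le_iff₀ hn] at this
        rw [Fintype.card_fin, Finset.univ_unique, Finset.sum_singleton, div_le_iff₀ (by positivity),
          pow_succ]
        linarith) b1 (fun i => by simp)
    rw [sub_zero] at a2 a4
    rw [Fintype.card_fin] at a3
    refine ⟨x, a1, FCx.card_le a1 a3, ?_⟩
    have a5 := a4 ()
    rw [b2 x a2] at a5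
    rw [min_eq_right hc, ENNReal.toReal_ofReal (by linarith), Real.sqrt_mul hn.le]
    have h4 : √((⌈2 * L⌉₊ + 1 : ℕ) : ℝ) ≤ 2 * √L := by
      rw [Real.sqrt_le_iff, mul_pow, Real.sq_sqrt (by linarith)]
      have := Nat.ceil_lt_add_one (a := 2 * L) (by linarith)
      push_cast
      exact ⟨by positivity, by linarith⟩
    refine a5.trans ?_
    calc _ ≤ 2 ^ 22 * (5 * √(n : ℝ) * r) * (2 * √L) :=
          mul_le_mul_of_nonneg_left h4 (by positivity)
      _ = _ := by ring

end Pool.Agent.P.MP_1157dd_an.N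

/-! Prefix discrepancy in the Schatten norms. -/

namespace Pool.Agent.P.MP_1157dd_an.N

open Matrix
open scoped ENNReal

namespace FDx

lemma svar_mono {D I : Type} [Fintype D] [Fintype I] [DecidableEq D] {q : ℝ≥0∞}
    {A : I → Matrix D D ℝ} {T T' : ℝ} (h : SVar q A T) (hT : T ≤ T') : SVar q A T' :=
  fun O hO => ⟨(h O hO).1.trans hT, (h O hO).2.trans hT⟩

/-- the rank in a finite set of indices -/
lemma exists_rank {I : Type} [Fintype I] (v : I → ℕ) (hv : Function.Injective v) :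
    ∃ r : I → ℕ, Function.Injective r ∧
      ∀ t, ∃ m ≤ Fintype.card I, ∀ i, v i < t ↔ r i < m := by
  have key : ∀ t i, v i < t ↔
      (Finset.univ.filter fun i' => v i' < v i).card < (Finset.univ.filter fun i' => v i' < t).card :=
    fun t i => ⟨fun h => Finset.card_lt_card ⟨fun a ha => by
        simp only [Finset.mem_filter, Finset.mem_univ, true_and] at ha ⊢; omega,
      fun hs => by simpa using hs (show i ∈ _ by simpa using h)⟩, fun h => by
      by_contra h'
      refine absurd h (not_lt.2 (Finset.card_le_card fun a ha => ?_))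
      simp only [Finset.mem_filter, Finset.mem_univ, true_and] at ha ⊢
      omega⟩
  refine ⟨fun i => (Finset.univ.filter fun i' => v i' < v i).card, fun a b e => hv ?_,
    fun t => ⟨_, Finset.card_le_univ _, key t⟩⟩
  have h1 := key (v a) b
  have h2 := key (v b) a
  simp only at e
  omega

lemma card_block {I : Type} [Fintype I] {r : I → ℕ} (hr : Function.Injective r) (l c : ℕ) :
    (Finset.univ.filter fun i => r i / 2 ^ l = c).card ≤ 2 ^ l := by
  refine (Finset.card_le_card_of_injOn (fun i => r i % 2 ^ l) (fun i _ => ?_)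
    fun a ha b hb e => ?_).trans (Finset.card_range (2 ^ l)).le
  · simpa using Nat.mod_lt _ (by positivity)
  · simp only [Finset.coe_filter, Finset.mem_univ, true_and, Set.mem_ofPred_eq] at ha hb e
    refine hr ?_
    rw [← Nat.div_add_mod (r a) (2 ^ l), ← Nat.div_add_mod (r b) (2 ^ l), ha, hb, e]

lemma cost (L Q : ℕ) (d : ℝ) (hd : 0 ≤ d) :
    ∑ k : (l : Fin (L + 1)) × Fin (2 ^ (L + 1 - l)), 2 * d / 2 ^ (Q + 2 * (L - k.1)) ≤
      8 * d / 2 ^ Q := by
  rw [Fintype.sum_sigma]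
  simp only [Finset.sum_const, Finset.card_univ, Fintype.card_fin, nsmul_eq_mul]
  rw [Fin.sum_univ_eq_sum_range (fun l => ((2 ^ (L + 1 - l) : ℕ) : ℝ) *
    (2 * d / 2 ^ (Q + 2 * (L - l)))) (L + 1)]
  have e : ∀ l ∈ Finset.range (L + 1), ((2 ^ (L + 1 - l) : ℕ) : ℝ) *
      (2 * d / 2 ^ (Q + 2 * (L - l))) = 4 * d / 2 ^ Q * (1 / 2) ^ (L + 1 - 1 - l) := by
    intro l hl
    rw [show L + 1 - l = L - l + 1 by have := Finset.mem_range.1 hl; omega, Nat.add_sub_cancel]
    push_cast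
    rw [one_div, inv_pow, pow_add, pow_add, mul_comm 2 (L - l), pow_mul]
    field_simp
    ring
  rw [Finset.sum_congr rfl e, ← Finset.mul_sum,
    Finset.sum_range_reflect (fun l => ((1 : ℝ) / 2) ^ l) (L + 1)]
  calc _ ≤ 4 * d / 2 ^ Q * 2 :=
        mul_le_mul_of_nonneg_left (sum_geometric_two_le _) (by positivity)
    _ = _ := by ring

lemma round (hLP : S_LP) (hSCH : S_SCH) (hVAR : S_VAR) (hENTS : S_ENTS) (hCHAIN : S_CHAIN)
    {p : ℝ≥0∞} (hp : 2 ≤ p) {d n : ℕ} {A : Fin n → Matrix (Fin d) (Fin d) ℝ}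
    (hA : ∀ i, schatten p (A i) ≤ 1) {Q : ℕ} (hQ : 4 ≤ Q) {x₀ : Fin n → ℝ} (h0 : Cube x₀) {N : ℝ}
    (h1 : 8 * (d : ℝ) / 2 ^ Q < (free x₀).card) (h2 : ((free x₀).card : ℝ) ≤ N) :
    ∃ x : Fin n → ℝ, Cube x ∧ 2 * (free x).card ≤ (free x₀).card ∧ ∀ t : ℕ,
      schatten p (∑ i ∈ Finset.univ.filter fun i : Fin n => (i : ℕ) < t, (x - x₀) i • A i) ≤
        2 ^ 25 * √(Q * N) := by
  have p1 : 1 ≤ p := one_le_two.trans hp
  have z0 : schatten p (0 : Matrix (Fin d) (Fin d) ℝ) = 0 := by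
    simpa using (hSCH d p p1 0).2.2.1 0
  obtain ⟨r, hr, hm⟩ := exists_rank (fun i : {i // i ∈ free x₀} => (i.1 : ℕ))
    fun a b e => Subtype.ext (Fin.ext e)
  have cI : Fintype.card {i // i ∈ free x₀} = (free x₀).card := Fintype.card_coe _
  have c0 : (free x₀).card ≠ 0 := fun e => by
    rw [e, Nat.cast_zero] at h1
    exact absurd h1 (not_lt.2 (by positivity))
  set L := Nat.log 2 (free x₀).card with hL
  obtain ⟨x, a1, -, a3, a4⟩ := hENTS d {i // i ∈ free x₀}
    ((l : Fin (L + 1)) × Fin (2 ^ (L + 1 - l)))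
    (fun k i => if r i / 2 ^ (k.1 : ℕ) = k.2 then A i else 0) p (fun k => √(2 ^ (k.1 : ℕ)))
    (fun k => Q + 2 * (L - k.1)) ⊤ (fun i => x₀ i) p1 (fun k => by positivity) (fun k => by omega)
    (fun k => svar_mono (hVAR d _ _ p hp) (Real.sqrt_le_sqrt (by
      refine le_trans (Finset.sum_le_sum (g := fun i => if r i / 2 ^ (k.1 : ℕ) = k.2 then 1 else 0)
        fun i _ => ?_) ?_
      · split_ifs
        · exact pow_le_one₀ (hLP _ p p1 _).1 (hA i)
        · simp [z0]
      · rw [Finset.sum_boole]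
        exact_mod_cast card_block hr _ _)))
    (by rw [cI]; exact (cost L Q d (by positivity)).trans h1.le)
    (cod_top.mono (by positivity)) (fun i => h0 i)
  obtain ⟨z, b1, -, b3, -, b5⟩ := exists_ext h0 x a1
  refine ⟨z, b1, by rw [b3, ← cI]; exact a3, fun t => ?_⟩
  obtain ⟨m, m1, m2⟩ := hm t
  have e := b5 fun i => if (i : ℕ) < t then A i else 0
  simp only [smul_ite, smul_zero, m2] at e
  rw [Finset.sum_filter, e, ← Finset.sum_filter]
  refine (hCHAIN _ _ (schatten p) r (fun i => (x i - x₀ i) • A i) L (2 ^ 22) Q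
    (fun X Z => (hSCH d p p1 X).2.1 Z) z0.le (by positivity) (by exact_mod_cast hQ)
    (fun l hl c hc => ?_) m (by
      rw [cI] at m1
      exact m1.trans_lt (Nat.lt_pow_succ_log_self one_lt_two _))).trans ?_
  · have := a4 ⟨⟨l, by omega⟩, ⟨c, hc⟩⟩
    simp only [lc, smul_ite, smul_zero, ← Finset.sum_filter, Pi.sub_apply] at this
    exact_mod_cast this
  · have h3 : ((2 : ℝ) ^ L) ≤ (free x₀).card := by exact_mod_cast Nat.pow_log_le_self 2 c0
    have := Real.sqrt_le_sqrt (mul_le_mul_of_nonneg_left (h3.trans h2) (Nat.cast_nonneg Q))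
    linarith

lemma exists_P (d n : ℕ) : ∃ P : ℕ, 4 ≤ P ∧ (P : ℝ) ≤ 16 * max 1 (Real.log ((d : ℝ) / n)) ∧
    (n ≠ 0 → 16 * (d : ℝ) ≤ 2 ^ P * n) := by
  set L := max 1 (Real.log ((d : ℝ) / n)) with hL
  have L1 : 1 ≤ L := le_max_left _ _
  have c1 := Nat.ceil_lt_add_one (show 0 ≤ L by linarith)
  refine ⟨2 * ⌈L⌉₊ + 4, by omega, by push_cast; linarith, fun hn => ?_⟩
  have n0 : (0 : ℝ) < n := by positivity
  have h1 : (d : ℝ) / n ≤ 4 ^ ⌈L⌉₊ := by
    refine (Real.le_exp_log _).trans ((Real.exp_le_exp.2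
      ((le_max_right 1 _).trans (Nat.le_ceil L))).trans ?_)
    rw [← Real.exp_one_pow]
    exact pow_le_pow_left₀ (Real.exp_pos 1).le (by linarith [Real.exp_one_lt_d9]) _
  rw [div_le_iff₀ n0] at h1
  rw [pow_add, pow_mul]
  norm_num
  linarith

end FDx

open FDx in
theorem p_FD (hLP : S_LP) (hSCH : S_SCH) (hVAR : S_VAR) (hENTS : S_ENTS) (hNCKS : S_NCKS)
    (hLEVY : S_LEVY) (hCHAIN : S_CHAIN) (hROUNDS : S_ROUNDS) : S_FD := by
  refine ⟨2 ^ 30, fun p hp d n A hA => ?_⟩
  have p1 : 1 ≤ p := one_le_two.trans hp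
  have z0 : schatten p (0 : Matrix (Fin d) (Fin d) ℝ) = 0 := by
    simpa using (hSCH d p p1 0).2.2.1 0
  have tn : ∀ t : ℕ, (Finset.univ.filter fun i : Fin n => (i : ℕ) < t) =
      Finset.univ.filter fun i : Fin n => (i : ℕ) < min t n := fun t =>
    Finset.filter_congr fun i _ => by have := i.2; omega
  rcases le_total p (ENNReal.ofReal (max 1 (Real.log ((d : ℝ) / n)))) with h | h
  · rw [min_eq_left h]
    have a1 := hNCKS d (Fin n) A p √n hp (ne_top_of_le_ne_top ENNReal.ofReal_ne_top h)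
      (by positivity) (svar_mono (hVAR d _ A p hp) (Real.sqrt_le_sqrt (by
        simpa using Finset.sum_le_card_nsmul Finset.univ (fun i => schatten p (A i) ^ 2) 1
          fun i _ => pow_le_one₀ (hLP _ p p1 _).1 (hA i))))
    have a2 := hLEVY _ (schatten p) n A (8 * √p.toReal * √n) fun X Z => by
      have h1 := (hSCH d p p1 X).2.2.1 2
      have h2 := (hSCH d p p1 (X + Z)).2.1 (X - Z)
      rw [add_add_sub_cancel, ← two_smul ℝ X, h1, abs_two] at h2
      exact h2
    have a3 : ∀ x y : ℕ, 4 * x ≤ 2 ^ n → x = y → 2 * y < 2 ^ n := fun x y h1 h2 => by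
      have : 0 < 2 ^ n := by positivity
      omega
    obtain ⟨s, -, hs⟩ := Finset.exists_mem_notMem_of_card_lt_card (t := Finset.univ)
      (a2.trans_lt (by
        simp only [lc, Fintype.card_fin] at a1
        simp only [Finset.card_univ, Fintype.card_fun, Fintype.card_bool, Fintype.card_fin]
        exact a3 _ _ a1 (by congr)))
    simp only [Finset.mem_filter, Finset.mem_univ, true_and, not_exists, not_and, not_lt] at hs
    refine ⟨sg s, sign_sg s, fun t => ?_⟩
    rw [tn, Real.sqrt_mul (Nat.cast_nonneg n)]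
    refine (hs _ (min_le_right _ _)).trans ?_
    nlinarith [mul_nonneg (Real.sqrt_nonneg n) (Real.sqrt_nonneg p.toReal)]
  · rw [min_eq_right h, ENNReal.toReal_ofReal (by positivity)]
    obtain ⟨P, P4, P1, P2⟩ := exists_P d n
    obtain ⟨g, hg⟩ : ∃ g : (Fin n → ℝ) → ℕ → ℝ, ∀ y t, g y t = schatten p
      (∑ i ∈ Finset.univ.filter fun i : Fin n => (i : ℕ) < t, y i • A i) := ⟨_, fun _ _ => rfl⟩
    let ν : (Fin n → ℝ) → ℝ := fun y => (Finset.range (n + 1)).sup' ⟨0, by simp⟩ (g y)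
    have le : ∀ (y : Fin n → ℝ) (t : ℕ), schatten p
        (∑ i ∈ Finset.univ.filter fun i : Fin n => (i : ℕ) < t, y i • A i) ≤ ν y := fun y t => by
      rw [tn, ← hg]
      exact Finset.le_sup' (g y) (Finset.mem_range.2 (by omega))
    obtain ⟨ε, e1, e2⟩ := hROUNDS (Fin n) ν (2 ^ 25) P n
      (fun y z => Finset.sup'_le _ _ fun t _ => by
        simp only [hg, Pi.add_apply, add_smul, Finset.sum_add_distrib]
        exact ((hSCH d p p1 _).2.1 _).trans (add_le_add (le y t) (le z t)))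
      (Finset.sup'_le _ _ fun t _ => by simp [hg, z0]) (by positivity) (by exact_mod_cast P4)
      (by positivity) (fun j x₀ h0 h1 h2 => by
        obtain ⟨x, b1, b2, b3⟩ := round hLP hSCH hVAR hENTS hCHAIN hp hA (Q := P + 2 * j)
          (by omega) h0 (lt_of_le_of_lt (by
            have n0 : n ≠ 0 := by
              rintro rfl
              simp [Finset.eq_empty_of_isEmpty] at h1
            have h3 := P2 n0
            have h4 : (2 : ℝ) ^ j ≤ 2 ^ (2 * j) := pow_le_pow_right₀ one_le_two (by omega)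
            rw [div_le_div_iff₀ (by positivity) (by positivity), pow_add 2 P, pow_succ 2 j]
            calc 8 * (d : ℝ) * (2 ^ j * 2) = 16 * d * 2 ^ j := by ring
              _ ≤ 2 ^ P * n * 2 ^ (2 * j) := by gcongr
              _ = _ := by ring) h1) h2
        refine ⟨x, b1, b2, Finset.sup'_le _ _ fun t _ => ?_⟩
        rw [hg]
        exact_mod_cast b3 t)
      0 (fun i => by simp) (by exact_mod_cast (Finset.card_le_univ _).trans (Fintype.card_fin n).le)
    refine ⟨ε, e1, fun t => (le ε t).trans ?_⟩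
    rw [sub_zero] at e2
    have h5 : √((P : ℝ) * n) ≤ 4 * √(n * max 1 (Real.log ((d : ℝ) / n))) := by
      rw [show (4 : ℝ) = √16 by rw [show (16 : ℝ) = 4 ^ 2 by norm_num, Real.sqrt_sq zero_le_four],
        ← Real.sqrt_mul (by norm_num)]
      refine Real.sqrt_le_sqrt ?_
      nlinarith [Nat.cast_nonneg (α := ℝ) n]
    linarith

end Pool.Agent.P.MP_1157dd_an.N
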