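import Pool.Agent.P.MP_1157dd_an.N.Base

/-! Elementary properties of the `l_p` norm. -/

namespace Pool.Agent.P.MP_1157dd_an.N

open Matrix
open scoped ENNReal

namespace LPx

variable {α : Type} [Fintype α] {p : ℝ≥0∞}

lemma pos (hp : 1 ≤ p) (h : p ≠ ∞) : 0 < p.toReal :=
  ENNReal.toReal_pos (zero_lt_one.trans_le hp).ne' h

lemma le (hp : 1 ≤ p) (f : α → ℝ) (a : α) : |f a| ≤ lpn p f := by
  have := Fact.mk hp
  exact PiLp.norm_apply_le (WithLp.toLp p f : PiLp p fun _ : α => ℝ) a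

lemma fin (hp : 1 ≤ p) (h : p ≠ ∞) (f : α → ℝ) {T : ℝ} (hT : 0 ≤ T) :
    lpn p f ≤ T ↔ ∑ a, |f a| ^ p.toReal ≤ T ^ p.toReal := by
  rw [lpn, PiLp.norm_eq_sum (pos hp h), one_div]
  exact Real.rpow_inv_le_iff_of_pos (Finset.sum_nonneg fun a _ => by positivity) hT (pos hp h)

lemma top (f : α → ℝ) {T : ℝ} (hT : 0 ≤ T) (h : ∀ a, |f a| ≤ T) : lpn ∞ f ≤ T := by
  rw [lpn, PiLp.norm_eq_ciSup]
  exact Real.iSup_le h hT

end LPx

theorem p_LP : S_LP := by
  intro α _ p hp f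
  have := Fact.mk hp
  have n0 : ∀ g : α → ℝ, 0 ≤ lpn p g := fun g => norm_nonneg _
  refine ⟨n0 f, LPx.le hp f, fun g => ?_, fun c => ?_, fun g h => ?_, fun q hq => ?_,
    fun h T hT => LPx.fin hp h f hT, ?_⟩
  · exact norm_add_le (WithLp.toLp p f : PiLp p fun _ : α => ℝ) (WithLp.toLp p g)
  · exact norm_smul c (WithLp.toLp p f : PiLp p fun _ : α => ℝ)
  · rcases eq_or_ne p ∞ with rfl | h1
    · exact LPx.top f (n0 g) fun a => (h a).trans (LPx.le hp g a)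
    · refine (LPx.fin hp h1 f (n0 g)).2 (le_trans ?_ ((LPx.fin hp h1 g (n0 g)).1 le_rfl))
      exact Finset.sum_le_sum fun a _ =>
        Real.rpow_le_rpow (abs_nonneg _) (h a) (LPx.pos hp h1).le
  · rcases eq_or_ne q ∞ with rfl | h1
    · exact LPx.top f (n0 f) (LPx.le hp f)
    have h2 : p ≠ ∞ := ne_top_of_le_ne_top h1 hq
    have h3 : 0 ≤ q.toReal - p.toReal := sub_nonneg.2 (ENNReal.toReal_mono h1 hq)
    have h4 := LPx.pos hp h2
    have e : ∀ x : ℝ, 0 ≤ x → x ^ q.toReal = x ^ (q.toReal - p.toReal) * x ^ p.toReal :=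
      fun x hx => by rw [← Real.rpow_add_of_nonneg hx h3 h4.le, sub_add_cancel]
    refine (LPx.fin (hp.trans hq) h1 f (n0 f)).2 ?_
    rw [e _ (n0 f)]
    refine le_trans ?_ (mul_le_mul_of_nonneg_left ((LPx.fin hp h2 f (n0 f)).1 le_rfl)
      (Real.rpow_nonneg (n0 f) _))
    rw [Finset.mul_sum]
    refine Finset.sum_le_sum fun a _ => ?_
    rw [e _ (abs_nonneg _)]
    exact mul_le_mul_of_nonneg_right (Real.rpow_le_rpow (abs_nonneg _) (LPx.le hp f a) h3)
      (by positivity)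
  · rintro rfl T hT h
    exact LPx.top f hT h

end Pool.Agent.P.MP_1157dd_an.N

namespace Pool.Agent.P.MP_1157dd_an.N

open Matrix
open scoped ENNReal

namespace JENx

theorem jen {β : Type} [Fintype β] (w z : β → ℝ) (hw : ∀ b, 0 ≤ w b) (h1 : ∑ b, w b ≤ 1)
    (hz : ∀ b, 0 ≤ z b) {r : ℝ} (hr : 1 ≤ r) : (∑ b, w b * z b) ^ r ≤ ∑ b, w b * z b ^ r := by
  have := Real.rpow_arith_mean_le_arith_mean_rpow (Finset.univ : Finset (Option β))
    (fun o => o.elim (1 - ∑ b, w b) w) (fun o => o.elim 0 z)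
    (fun o _ => by cases o; exacts [sub_nonneg.2 h1, hw _]) (by simp [Fintype.sum_option])
    (fun o _ => by cases o; exacts [le_rfl, hz _]) hr
  simpa [Fintype.sum_option, Real.zero_rpow (zero_lt_one.trans_le hr).ne'] using this

theorem one (hLP : S_LP) {α β : Type} [Fintype α] [Fintype β] {p : ℝ≥0∞} (hp : 1 ≤ p) {f : α → ℝ}
    {w : α → β → ℝ} {g : β → ℝ} (hw : ∀ a b, 0 ≤ w a b) (h1 : ∀ a, ∑ b, w a b ≤ 1)
    (h2 : ∀ b, ∑ a, w a b ≤ 1) (h : ∀ a, |f a| ≤ ∑ b, w a b * |g b|) : lpn p f ≤ lpn p g := by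
  obtain ⟨g0, g1, -, -, -, -, g2, -⟩ := hLP β p hp g
  obtain ⟨-, -, -, -, -, -, f2, f3⟩ := hLP α p hp f
  by_cases ht : p = ∞
  · refine f3 ht _ g0 fun a => (h a).trans ((Finset.sum_le_sum fun b _ =>
      mul_le_mul_of_nonneg_left (g1 b) (hw a b)).trans ?_)
    rw [← Finset.sum_mul]
    exact mul_le_of_le_one_left g0 (h1 a)
  · have hr : 1 ≤ p.toReal := by simpa using ENNReal.toReal_mono ht hp
    refine (f2 ht _ g0).2 (le_trans ?_ ((g2 ht _ g0).1 le_rfl))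
    refine (Finset.sum_le_sum fun a _ => (Real.rpow_le_rpow (abs_nonneg _) (h a)
      (zero_le_one.trans hr)).trans (jen _ _ (hw a) (h1 a) (fun b => abs_nonneg _) hr)).trans ?_
    rw [Finset.sum_comm]
    refine Finset.sum_le_sum fun b _ => ?_
    rw [← Finset.sum_mul]
    exact mul_le_of_le_one_left (by positivity) (h2 b)

theorem half {p : ℝ≥0∞} (hp : 2 ≤ p) : 1 ≤ p / 2 :=
  (ENNReal.le_div_iff_mul_le (Or.inl two_ne_zero) (Or.inl ENNReal.ofNat_ne_top)).2 (by simpa)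

theorem key (hLP : S_LP) {α : Type} [Fintype α] {p : ℝ≥0∞} (hp : 2 ≤ p) (f : α → ℝ) {T : ℝ}
    (hT : 0 ≤ T) : lpn (p / 2) (fun a => f a ^ 2) ≤ T ^ 2 ↔ lpn p f ≤ T := by
  obtain ⟨-, g1, -, -, -, -, g2, g3⟩ := hLP α (p / 2) (half hp) fun a => f a ^ 2
  obtain ⟨-, f1, -, -, -, -, f2, f3⟩ := hLP α p (one_le_two.trans hp) f
  by_cases ht : p = ∞
  · refine ⟨fun h => f3 ht _ hT fun a => abs_le_of_sq_le_sq' ?_ hT |> abs_le.2,
      fun h => g3 (by rw [ht, ENNReal.top_div_of_ne_top ENNReal.ofNat_ne_top]) _ (sq_nonneg T)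
        fun a => ?_⟩
    · exact (le_abs_self _).trans ((g1 a).trans h)
    · rw [abs_pow]
      exact pow_le_pow_left₀ (abs_nonneg _) ((f1 a).trans h) 2
  · have e : ∀ t : ℝ, 0 ≤ t → (t ^ 2) ^ (p / 2).toReal = t ^ p.toReal := fun t h => by
      rw [ENNReal.toReal_div, ← Real.rpow_natCast, ← Real.rpow_mul h]
      congr 1
      simp
      ring
    rw [g2 (ENNReal.div_ne_top ht two_ne_zero) _ (sq_nonneg T), f2 ht _ hT, e T hT]
    simp only [abs_pow, e _ (abs_nonneg _)]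

theorem sum_le (hLP : S_LP) {α β : Type} [Fintype α] {p : ℝ≥0∞} (hp : 1 ≤ p) (g : β → α → ℝ)
    (s : Finset β) : lpn p (∑ b ∈ s, g b) ≤ ∑ b ∈ s, lpn p (g b) := by
  classical
  induction s using Finset.induction_on with
  | empty => simpa using ((hLP α p hp 0).2.2.2.1 0).le
  | insert b s hb ih =>
    rw [Finset.sum_insert hb, Finset.sum_insert hb]
    exact ((hLP α p hp _).2.2.1 _).trans (add_le_add le_rfl ih)

end JENx

theorem p_JEN (hLP : S_LP) : S_JEN := by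
  intro α β _ _ p f
  refine ⟨fun w g hw h1 h2 => ⟨fun hp h => JENx.one hLP hp hw h1 h2 h, fun hp h => ?_⟩,
    fun g hp h => ?_⟩
  · have g0 := (hLP β p (one_le_two.trans hp) g).1
    refine (JENx.key hLP hp f g0).1 (le_trans ?_ ((JENx.key hLP hp g g0).2 le_rfl))
    exact JENx.one hLP (JENx.half hp) hw h1 h2 fun a => by simpa using h a
  · refine (JENx.key hLP hp f (Real.sqrt_nonneg _)).1 ?_
    rw [Real.sq_sqrt (Finset.sum_nonneg fun b _ => sq_nonneg _)]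
    refine le_trans ?_ ((JENx.sum_le hLP (JENx.half hp) (fun b a => g b a ^ 2) Finset.univ).trans
      (Finset.sum_le_sum fun b _ =>
        (JENx.key hLP hp (g b) (hLP α p (one_le_two.trans hp) _).1).2 le_rfl))
    refine (hLP α _ (JENx.half hp) _).2.2.2.2.1 _ fun a => ?_
    rw [abs_of_nonneg (sq_nonneg _), Finset.sum_apply]
    exact (h a).trans (le_abs_self _)

end Pool.Agent.P.MP_1157dd_an.N

/-! Singular value decomposition. -/

namespace Pool.Agent.P.MP_1157dd_an.N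

open Matrix
open scoped ENNReal

namespace SVx

lemma eig {d : ℕ} (X : Matrix (Fin d) (Fin d) ℝ) : ∃ O : Matrix (Fin d) (Fin d) ℝ, Oᵀ * O = 1 ∧
    Xᵀ * X * O = O * diagonal fun j => sv X j ^ 2 := by
  have hn : Module.finrank ℝ (EuclideanSpace ℝ (Fin d)) = d := by simp
  set T := toEuclideanLin X with hT
  let b := T.isSymmetric_adjoint_comp_self.eigenvectorBasis hn
  refine ⟨of fun a j => b j a, ?_, ?_⟩
  · ext i j
    have := orthonormal_iff_ite.1 b.orthonormal j i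
    simp only [PiLp.inner_apply, RCLike.inner_apply, conj_trivial] at this
    simp only [mul_apply, transpose_apply, of_apply, one_apply, this, eq_comm]
  · ext a j
    have h0 : (LinearMap.adjoint T) (T (b j)) = _ :=
      T.isSymmetric_adjoint_comp_self.apply_eigenvectorBasis hn j
    rw [← T.sq_singularValues_fin hn] at h0
    have h : toEuclideanLin Xᴴ (T (b j)) = (sv X j ^ 2) • b j := by
      rw [toEuclideanLin_conjTranspose_eq_adjoint]; exact h0
    have h' : (Xᵀ *ᵥ (X *ᵥ (b j).ofLp)) a = sv X j ^ 2 * b j a :=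
      congrArg (fun v : EuclideanSpace ℝ (Fin d) => v a) h
    rw [mul_diagonal, of_apply, mul_comm (b j a), ← h', mulVec_mulVec]
    rfl

end SVx

theorem p_SV : S_SV := by
  intro d X
  obtain ⟨O, h1, h2⟩ := SVx.eig X
  have h3 : O * Oᵀ = 1 := mul_eq_one_comm.1 h1
  have h4 : ∀ i j, (X *ᵥ fun a => O a i) ⬝ᵥ (X *ᵥ fun a => O a j) =
      if i = j then sv X j ^ 2 else 0 := fun i j => by
    have : (X * O)ᵀ * (X * O) = diagonal fun j => sv X j ^ 2 := by
      rw [transpose_mul, mul_assoc, ← mul_assoc Xᵀ, h2, ← mul_assoc, h1, one_mul]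
    have h : ((X * O)ᵀ * (X * O)) i j = diagonal (fun j => sv X j ^ 2) i j := by rw [this]
    rw [diagonal_apply] at h
    refine Eq.trans h ?_
    split_ifs with h <;> simp [h]
  set u : Fin d → Fin d → ℝ := fun j => (sv X j)⁻¹ • X *ᵥ fun a => O a j with hu
  have h5 : ∀ i j, u i ⬝ᵥ u j = if i = j then (if sv X j = 0 then 0 else 1) else 0 := fun i j => by
    simp only [hu, smul_dotProduct, dotProduct_smul, h4, smul_eq_mul]
    split_ifs with a b
    · simp [b]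
    · subst a; field_simp
    · simp
  refine ⟨fun j => LinearMap.singularValues_nonneg _ _, O, u, h1, h3,
    by rw [← h2, mul_assoc, h3, mul_one], ⟨fun a => ?_, fun j => ?_⟩, fun j => ?_, fun j => ?_⟩
  · have h6 : 0 ≤ (a - ∑ j, (u j ⬝ᵥ a) • u j) ⬝ᵥ (a - ∑ j, (u j ⬝ᵥ a) • u j) :=
      dotProduct_self_star_nonneg _
    have h7 : ∀ j, (u j ⬝ᵥ a) * (if sv X j = 0 then 0 else 1) = u j ⬝ᵥ a := fun j => by
      split_ifs with h
      · simp [hu, h]
      · simp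
    have h8 : ∀ x, ∑ y, (u y ⬝ᵥ a) * (if y = x then (if sv X x = 0 then (0 : ℝ) else 1) else 0) =
        u x ⬝ᵥ a := fun x => by
      rw [Finset.sum_eq_single x (fun y _ h => by simp [h]) (by simp), if_pos rfl, h7]
    simp only [sub_dotProduct, dotProduct_sub, sum_dotProduct, dotProduct_sum, smul_dotProduct,
      dotProduct_smul, smul_eq_mul, h5, dotProduct_comm a] at h6
    simp only [h8, ← sq, sub_self, mul_zero, Finset.sum_const_zero] at h6
    linarith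
  · rw [h5, if_pos rfl]; split_ifs <;> norm_num
  · by_cases h : sv X j = 0
    · have := h4 j j
      rw [if_pos rfl, h] at this
      rw [h, zero_smul]
      exact dotProduct_self_eq_zero.1 (by simpa using this)
    · rw [hu, smul_smul, mul_inv_cancel₀ h, one_smul]
  · rw [h5, if_pos rfl]; split_ifs with h <;> simp [h]

end Pool.Agent.P.MP_1157dd_an.N

/-! Basic properties of the Schatten norm. -/

namespace Pool.Agent.P.MP_1157dd_an.N

open Matrix
open scoped ENNReal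

namespace SCHx

variable {d : ℕ} {O X : Matrix (Fin d) (Fin d) ℝ}

lemma sum_sq (h : O * Oᵀ = 1) (a : Fin d → ℝ) : ∑ j, ((fun i => O i j) ⬝ᵥ a) ^ 2 = a ⬝ᵥ a := by
  have := qf_conj 1 Oᵀ a
  rw [transpose_transpose, mul_one, h, qf_one, qf_one, dot_eq_sq (Oᵀ *ᵥ a)] at this
  exact this.symm

lemma col (h : Oᵀ * O = 1) (j : Fin d) : (fun i => O i j) ⬝ᵥ (fun i => O i j) = 1 :=
  (congrFun (congrFun h j) j).trans (one_apply_eq j)

lemma dec (h : O * Oᵀ = 1) {s : Fin d → ℝ} {u : Fin d → Fin d → ℝ}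
    (hu : ∀ j, X *ᵥ (fun a => O a j) = s j • u j) (w v : Fin d → ℝ) :
    w ⬝ᵥ X *ᵥ v = ∑ k, (w ⬝ᵥ u k) * ((fun i => O i k) ⬝ᵥ v) * s k := by
  have : v = ∑ k, ((fun i => O i k) ⬝ᵥ v) • fun i => O i k := by
    conv_lhs => rw [← one_mulVec v, ← h, ← mulVec_mulVec]
    funext i
    simp only [Finset.sum_apply, Pi.smul_apply, smul_eq_mul, mul_comm _ (O i _)]
    rfl
  conv_lhs => rw [this]
  simp only [mulVec_sum, mulVec_smul, hu, dotProduct_sum, dotProduct_smul, smul_eq_mul]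
  exact Finset.sum_congr rfl fun k _ => by ring

lemma bound (hJEN : S_JEN) (hSV : S_SV) {p : ℝ≥0∞} (hp : 1 ≤ p) (X : Matrix (Fin d) (Fin d) ℝ)
    (u v : Fin d → Fin d → ℝ) (hu : Bessel u) (hv : Bessel v) :
    lpn p (fun j => u j ⬝ᵥ X *ᵥ v j) ≤ schatten p X := by
  obtain ⟨-, O, w, a1, a2, -, a4, a5, -⟩ := hSV d X
  refine ((hJEN _ _ p _).1 (fun j k => ((u j ⬝ᵥ w k) ^ 2 + ((fun i => O i k) ⬝ᵥ v j) ^ 2) / 2)
    (sv X) (fun _ _ => by positivity) (fun j => ?_) fun k => ?_).1 hp fun j => ?_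
  · have := a4.1 (u j)
    simp only [dotProduct_comm (w _)] at this
    rw [← Finset.sum_div, Finset.sum_add_distrib, sum_sq a2]
    linarith [hu.2 j, hv.2 j]
  · have := hv.1 fun i => O i k
    simp only [dotProduct_comm (v _), col a1] at this
    rw [← Finset.sum_div, Finset.sum_add_distrib]
    linarith [hu.1 (w k), a4.2 k]
  · rw [dec a2 a5]
    refine (Finset.abs_sum_le_sum_abs _ _).trans (Finset.sum_le_sum fun k _ => ?_)
    rw [abs_mul]
    refine mul_le_mul_of_nonneg_right (abs_le.2 ⟨?_, ?_⟩) (abs_nonneg _)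
    · nlinarith [sq_nonneg (u j ⬝ᵥ w k + (fun i => O i k) ⬝ᵥ v j)]
    · nlinarith [sq_nonneg (u j ⬝ᵥ w k - (fun i => O i k) ⬝ᵥ v j)]

lemma att (hSV : S_SV) (p : ℝ≥0∞) (X : Matrix (Fin d) (Fin d) ℝ) : ∃ u v : Fin d → Fin d → ℝ,
    Bessel u ∧ Bessel v ∧ schatten p X = lpn p fun j => u j ⬝ᵥ X *ᵥ v j := by
  obtain ⟨-, O, w, a1, a2, -, a4, a5, a6⟩ := hSV d X
  refine ⟨w, fun j i => O i j, a4, ⟨fun a => (sum_sq a2 a).le, fun j => (col a1 j).le⟩, ?_⟩
  simp only [a5, dotProduct_smul, smul_eq_mul, a6]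
  rfl

lemma tr_le (hJEN : S_JEN) (hSV : S_SV) {p : ℝ≥0∞} (hp : 1 ≤ p) (X : Matrix (Fin d) (Fin d) ℝ) :
    schatten p Xᵀ ≤ schatten p X := by
  obtain ⟨u, v, hu, hv, e⟩ := att hSV p Xᵀ
  simp only [mulVec_transpose, dotProduct_comm (u _), ← dotProduct_mulVec] at e
  exact e.trans_le (bound hJEN hSV hp X v u hv hu)

end SCHx

open SCHx in
theorem p_SCH (hLP : S_LP) (hJEN : S_JEN) (hSV : S_SV) : S_SCH := by
  intro d p hp X
  have sm (c : ℝ) (u v : Fin d → Fin d → ℝ) : lpn p (fun j => u j ⬝ᵥ (c • X) *ᵥ v j) =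
      |c| * lpn p fun j => u j ⬝ᵥ X *ᵥ v j := by
    rw [← (hLP _ p hp _).2.2.2.1 c]
    simp only [smul_mulVec, dotProduct_smul]
    rfl
  refine ⟨bound hJEN hSV hp X, fun Y => ?_, fun c => le_antisymm ?_ ?_,
    le_antisymm (tr_le hJEN hSV hp X) (tr_le hJEN hSV hp Xᵀ), fun v => ?_, fun e s h0 hs => ?_⟩
  · obtain ⟨u, v, hu, hv, e⟩ := att hSV p (X + Y)
    simp only [add_mulVec, dotProduct_add] at e
    exact e.trans_le (((hLP _ p hp fun j => u j ⬝ᵥ X *ᵥ v j).2.2.1 fun j => u j ⬝ᵥ Y *ᵥ v j).trans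
      (add_le_add (bound hJEN hSV hp X u v hu hv) (bound hJEN hSV hp Y u v hu hv)))
  · obtain ⟨u, v, hu, hv, e⟩ := att hSV p (c • X)
    rw [e, sm]
    exact mul_le_mul_of_nonneg_left (bound hJEN hSV hp X u v hu hv) (abs_nonneg c)
  · obtain ⟨u, v, hu, hv, e⟩ := att hSV p X
    rw [e, ← sm]
    exact bound hJEN hSV hp _ u v hu hv
  · obtain ⟨-, O, w, -, a2, a3, -⟩ := hSV d X
    rw [← qf_one (X *ᵥ v), ← qf_conj, mul_one, a3, ← transpose_transpose O, transpose_transpose Oᵀ,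
      qf_conj, qf_diagonal, ← sum_sq a2 v, Finset.mul_sum]
    exact Finset.sum_le_sum fun k _ => mul_le_mul_of_nonneg_right
      (sq_le_sq' (abs_le.1 ((hLP _ p hp _).2.1 k)).1 (abs_le.1 ((hLP _ p hp _).2.1 k)).2)
      (sq_nonneg _)
  · obtain ⟨-, O, w, a1, -, -, -, a5, a6⟩ := hSV d X
    refine (hLP _ p hp _).2.2.2.2.2.2.2 e s h0 fun j => abs_le_of_sq_le_sq' ?_ h0 |> abs_le.2
    have := hs fun i => O i j
    rw [col a1, a5, mul_one, smul_dotProduct, dotProduct_smul, smul_eq_mul, smul_eq_mul, a6] at this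
    exact (sq _).trans_le this

end Pool.Agent.P.MP_1157dd_an.N

/-! Variance matrices of Schatten-bounded families, and counting of large singular values. -/

namespace Pool.Agent.P.MP_1157dd_an.N

open Matrix
open scoped ENNReal

namespace VARx

variable {D : Type} [Fintype D] [DecidableEq D]

lemma nsq {X O : Matrix D D ℝ} {a : D → ℝ} (h : Xᵀ * X = O * diagonal a * Oᵀ) (v : D → ℝ) :
    X *ᵥ v ⬝ᵥ X *ᵥ v = ∑ j, a j * (Oᵀ *ᵥ v) j ^ 2 := by
  rw [← qf_one, ← qf_conj, mul_one, h, ← qf_diagonal, ← qf_conj, transpose_transpose]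

lemma col {U : Matrix D D ℝ} (h : Uᵀ * U = 1) (e : D) : ∑ k, U k e ^ 2 ≤ 1 := by
  have := congrFun (congrFun h e) e
  rw [mul_apply, one_apply_eq] at this
  simpa [sq] using this.le

lemma prj_fix {O : Matrix D D ℝ} (h : Oᵀ * O = 1) {S : Finset D} {v : D → ℝ}
    (hv : ∀ i, i ∉ S → (Oᵀ *ᵥ v) i = 0) : prj O S *ᵥ v = v := by
  have e : diagonal (fun e => if e ∈ S then (1 : ℝ) else 0) *ᵥ (Oᵀ *ᵥ v) = Oᵀ *ᵥ v := by
    funext i
    rw [mulVec_diagonal]
    split_ifs with hi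
    · rw [one_mul]
    · rw [hv i hi, mul_zero]
  rw [prj, ← mulVec_mulVec, ← mulVec_mulVec, e, mulVec_mulVec, mul_eq_one_comm.1 h, one_mulVec]

lemma one (hJEN : S_JEN) (hSV : S_SV) {d : ℕ} {p : ℝ≥0∞} (hp : 2 ≤ p)
    (X O : Matrix (Fin d) (Fin d) ℝ) (hO : Oᵀ * O = 1) :
    lpn p (fun e => √(X *ᵥ (fun a => O a e) ⬝ᵥ X *ᵥ fun a => O a e)) ≤ schatten p X := by
  obtain ⟨-, P, -, h1, h2, h3, -⟩ := hSV d X
  have hU : (Pᵀ * O)ᵀ * (Pᵀ * O) = 1 := by
    rw [transpose_mul, transpose_transpose, mul_assoc, ← mul_assoc P, h2, one_mul, hO]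
  have hU' : ((Pᵀ * O)ᵀ)ᵀ * (Pᵀ * O)ᵀ = 1 := by
    rw [transpose_transpose]
    exact mul_eq_one_comm.1 hU
  refine ((hJEN _ _ p _).1 (fun e k => (Pᵀ * O) k e ^ 2) (sv X) (fun _ _ => sq_nonneg _)
    (col hU) (col hU')).2 hp fun e => ?_
  rw [Real.sq_sqrt (dot_nonneg _), nsq h3]
  exact le_of_eq (Finset.sum_congr rfl fun k _ => mul_comm _ _)

lemma half (hLP : S_LP) (hJEN : S_JEN) (hSV : S_SV) {d : ℕ} {I : Type} [Fintype I]
    (A : I → Matrix (Fin d) (Fin d) ℝ) {p : ℝ≥0∞} (hp : 2 ≤ p) (O : Matrix (Fin d) (Fin d) ℝ)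
    (hO : Oᵀ * O = 1) :
    lpn p (fun e => √(vr A fun a => O a e)) ≤ √(∑ i, schatten p (A i) ^ 2) := by
  refine ((hJEN _ I p _).2 (fun i e => √(A i *ᵥ (fun a => O a e) ⬝ᵥ A i *ᵥ fun a => O a e)) hp
    fun e => ?_).trans (Real.sqrt_le_sqrt (Finset.sum_le_sum fun i _ => ?_))
  · rw [vr, Real.sq_sqrt (Finset.sum_nonneg fun _ _ => dot_nonneg _)]
    exact le_of_eq (Finset.sum_congr rfl fun i _ => (Real.sq_sqrt (dot_nonneg _)).symm)
  · exact pow_le_pow_left₀ (hLP _ p (one_le_two.trans hp) _).1 (one hJEN hSV hp _ O hO) 2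

end VARx

theorem p_VAR (hLP : S_LP) (hJEN : S_JEN) (hSV : S_SV) (hSCH : S_SCH) : S_VAR := by
  intro d I _ A p hp O hO
  refine ⟨VARx.half hLP hJEN hSV A hp O hO,
    (VARx.half hLP hJEN hSV (fun i => (A i)ᵀ) hp O hO).trans (le_of_eq ?_)⟩
  exact congrArg Real.sqrt (Finset.sum_congr rfl fun i _ => by
    rw [(hSCH d p (one_le_two.trans hp) (A i)).2.2.2.1])

theorem p_CNT (hSV : S_SV) : S_CNT := by
  intro d X O₁ O₂ S₁ S₂ t ht h1 h2 hX
  obtain ⟨-, P, -, -, a2, a3, -⟩ := hSV d X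
  by_contra hlt
  obtain ⟨N0, c0, s0⟩ := cod_supp (Finset.univ.filter fun j => t < sv X j)
  obtain ⟨N1, c1, s1⟩ := cod_supp S₁
  obtain ⟨N2, c2, s2⟩ := cod_supp S₂
  obtain ⟨v, ⟨⟨v0, v1⟩, v2⟩, hv⟩ := (((c0.comap Pᵀ.mulVecLin).inf
    (c1.comap (O₁ᵀ * X).mulVecLin)).inf (c2.comap O₂ᵀ.mulVecLin)).exists_ne (by
      have b1 := Finset.card_add_card_compl S₁
      have b2 := Finset.card_add_card_compl S₂
      have b3 : ((S₁ᶜ.card + S₂ᶜ.card : ℕ) : ℝ) <
          (Finset.univ.filter fun j => t < sv X j).card := Nat.cast_lt.2 (not_le.1 hlt)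
      have b4 := congrArg (Nat.cast : ℕ → ℝ) b1
      have b5 := congrArg (Nat.cast : ℕ → ℝ) b2
      push_cast at b3 b4 b5
      linarith)
  have e2 : prj O₂ S₂ *ᵥ v = v := VARx.prj_fix h2 (s2 _ v2)
  have e1 : prj O₁ S₁ *ᵥ (X *ᵥ v) = X *ᵥ v :=
    VARx.prj_fix h1 fun i hi => by rw [mulVec_mulVec]; exact s1 _ v1 i hi
  have h := hX v
  rw [← mulVec_mulVec, ← mulVec_mulVec, e2, e1, VARx.nsq a3,
    show v ⬝ᵥ v = ∑ j, (Pᵀ *ᵥ v) j ^ 2 by
      rw [← dot_eq_sq, ← qf_one (Pᵀ *ᵥ v), ← qf_conj, transpose_transpose, mul_one, a2, qf_one],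
    Finset.mul_sum] at h
  obtain ⟨j, hj⟩ : ∃ j, (Pᵀ *ᵥ v) j ≠ 0 := by
    by_contra h0
    refine hv ?_
    rw [← one_mulVec v, ← a2, ← mulVec_mulVec,
      show Pᵀ *ᵥ v = 0 from funext fun j => not_not.1 fun e => h0 ⟨j, e⟩, mulVec_zero]
  have key : ∀ k, (Pᵀ *ᵥ v) k ≠ 0 → t ^ 2 < sv X k ^ 2 := fun k hk =>
    pow_lt_pow_left₀ (by
      by_contra hn
      exact hk (s0 _ v0 k (by simpa using hn))) ht two_ne_zero
  refine absurd h (not_le.2 (Finset.sum_lt_sum (fun k _ => ?_) ⟨j, Finset.mem_univ j,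
    mul_lt_mul_of_pos_right (key j hj) (pow_pos (abs_pos.2 hj) 2 |>.trans_eq (sq_abs _))⟩))
  by_cases hk : (Pᵀ *ᵥ v) k = 0
  · simp [hk]
  · exact mul_le_mul_of_nonneg_right (key k hk).le (sq_nonneg _)

end Pool.Agent.P.MP_1157dd_an.N

/-! Step LAY. -/

namespace Pool.Agent.P.MP_1157dd_an.N

open Matrix
open scoped ENNReal

namespace LAYx

open Finset

lemma self_le {x r : ℝ} (hx : 1 ≤ x) (hr : 1 ≤ r) : x ≤ x ^ r := by
  simpa using Real.rpow_le_rpow_of_exponent_le hx hr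

lemma geo {T x r : ℝ} (hT : 0 < T) (hx : 0 ≤ x) (hr : 1 ≤ r) (n : ℕ) :
    ∑ s ∈ range n, (if T / 2 ^ s < x then (T / 2 ^ s) ^ r else 0) + 2 * min (T / 2 ^ n) x ^ r ≤
      2 * x ^ r := by
  have hr0 : 0 ≤ r := by linarith
  induction n with
  | zero =>
    have := Real.rpow_le_rpow (le_min (by positivity) hx) (min_le_right (T / 2 ^ 0) x) hr0
    simp only [range_zero, sum_empty]
    linarith
  | succ n ih =>
    rw [sum_range_succ]
    have h0 : 0 ≤ min (T / 2 ^ (n + 1)) x := le_min (by positivity) hx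
    split_ifs with h
    · rw [min_eq_left h.le] at ih
      have h1 := Real.rpow_le_rpow h0 (min_le_left _ _) hr0
      have h2 : (T / 2 ^ n) ^ r = 2 ^ r * (T / 2 ^ (n + 1)) ^ r := by
        rw [← Real.mul_rpow (by norm_num) (by positivity)]
        congr 1
        field_simp
        ring
      have h3 : (2 : ℝ) ≤ 2 ^ r := self_le (by norm_num) hr
      have h4 : 0 ≤ (T / 2 ^ (n + 1)) ^ r := by positivity
      nlinarith [mul_le_mul_of_nonneg_right h3 h4]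
    · rw [min_eq_right (not_lt.1 h)] at ih
      have := Real.rpow_le_rpow h0 (min_le_right _ _) hr0
      linarith

lemma lay {a T y r : ℝ} (ha : 0 < a) (hT : 0 < T) (hy : 0 ≤ y) (hr : 0 ≤ r)
    (h0 : y ≤ a * (T / 2 ^ 0)) (n : ℕ) : y ^ r ≤ (a * (T / 2 ^ n)) ^ r +
      ∑ s ∈ range (n + 1), if a * (T / 2 ^ s) < y then (2 * a) ^ r * (T / 2 ^ s) ^ r else 0 := by
  have hs : ∀ n, 0 ≤ ∑ s ∈ range n,
      if a * (T / 2 ^ s) < y then (2 * a) ^ r * (T / 2 ^ s) ^ r else 0 :=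
    fun n => sum_nonneg fun s _ => by split_ifs <;> positivity
  induction n with
  | zero => linarith [Real.rpow_le_rpow hy h0 hr, hs (0 + 1)]
  | succ n ih =>
    by_cases h : a * (T / 2 ^ (n + 1)) < y
    · rw [sum_range_succ, if_pos h]
      have h1 : (2 * a) ^ r * (T / 2 ^ (n + 1)) ^ r = (a * (T / 2 ^ n)) ^ r := by
        rw [← Real.mul_rpow (by positivity) (by positivity)]
        congr 1
        field_simp
        ring
      have h2 : 0 ≤ (a * (T / 2 ^ (n + 1))) ^ r := by positivity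
      linarith
    · linarith [Real.rpow_le_rpow hy (not_lt.1 h) hr, hs (n + 1 + 1)]

lemma cnt {d : ℕ} (n : ℕ) (P : ℕ → Fin d → Prop) [∀ s j, Decidable (P s j)] (c : ℕ → ℝ) :
    ∑ j, ∑ s ∈ range n, (if P s j then c s else 0) =
      ∑ s ∈ range n, ((univ.filter fun j => P s j).card : ℝ) * c s := by
  rw [sum_comm]
  refine sum_congr rfl fun s _ => ?_
  rw [← sum_filter, sum_const, nsmul_eq_mul]

lemma tot {d : ℕ} {T r : ℝ} {g : Fin d → ℝ} (hT : 0 < T) (hg : ∀ j, 0 ≤ g j) (hr : 1 ≤ r)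
    (h : ∑ j, |g j| ^ r ≤ T ^ r) (n : ℕ) :
    ∑ s ∈ range n, ((univ.filter fun j => T / 2 ^ s < g j).card : ℝ) * (T / 2 ^ s) ^ r ≤
      2 * T ^ r := by
  rw [← cnt n (fun s j => T / 2 ^ s < g j)]
  refine (sum_le_sum (g := fun j => 2 * |g j| ^ r) fun j _ => ?_).trans ?_
  · have h1 := geo hT (hg j) hr n
    have h2 : 0 ≤ min (T / 2 ^ n) (g j) ^ r :=
      Real.rpow_nonneg (le_min (by positivity) (hg j)) _
    rw [abs_of_nonneg (hg j)]
    linarith
  · rw [← mul_sum]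
    linarith

end LAYx

open Finset in
theorem p_LAY (hLP : S_LP) : S_LAY := by
  intro d q f g h a T S hq ha hT hd hf hg hh h1 h2 H
  obtain ⟨-, -, -, -, -, -, f1, f2⟩ := hLP _ q hq f
  obtain ⟨-, g0, -, -, -, -, g1, -⟩ := hLP _ q hq g
  obtain ⟨-, h0, -, -, -, -, h3, -⟩ := hLP _ q hq h
  have hz : ∀ g : Fin d → ℝ, (∀ j, |g j| ≤ lpn q g) → lpn q g ≤ T →
      (univ.filter fun j => T / 2 ^ 0 < g j).card = 0 := fun g g0 g1 => by
    rw [card_eq_zero, filter_eq_empty_iff]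
    intro j _
    have := (le_abs_self _).trans ((g0 j).trans g1)
    simpa using this
  have h4 : ∀ j, f j ≤ a * (T / 2 ^ 0) := fun j => by
    have := H 0 (Nat.zero_le S)
    rw [hz g g0 h1, hz h h0 h2, add_zero, Nat.le_zero, card_eq_zero, filter_eq_empty_iff] at this
    exact not_lt.1 (this (mem_univ j))
  have haT : 0 < a * T := mul_pos ha hT
  by_cases hq' : q = ∞
  · refine f2 hq' _ (by positivity) fun j => ?_
    have := h4 j
    rw [pow_zero, div_one] at this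
    rw [abs_of_nonneg (hf j)]
    linarith
  have hr : 1 ≤ q.toReal := by simpa using ENNReal.toReal_mono hq' hq
  have g2 := LAYx.tot hT hg hr ((g1 hq' T hT.le).1 h1) (S + 1)
  have h5 := LAYx.tot hT hh hr ((h3 hq' T hT.le).1 h2) (S + 1)
  refine (f1 hq' _ (by positivity)).2 ?_
  generalize q.toReal = r at hr g2 h5
  have h6 := sum_le_sum (s := univ) fun j _ => LAYx.lay ha hT (hf j) (by linarith : 0 ≤ r) (h4 j) S
  rw [sum_add_distrib, LAYx.cnt (S + 1) (fun s j => a * (T / 2 ^ s) < f j), sum_const, card_univ,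
    Fintype.card_fin, nsmul_eq_mul] at h6
  have h7 : ∑ s ∈ range (S + 1), ((univ.filter fun j => a * (T / 2 ^ s) < f j).card : ℝ) *
      ((2 * a) ^ r * (T / 2 ^ s) ^ r) ≤ (2 * a) ^ r * (2 * T ^ r + 2 * T ^ r) := by
    refine le_trans ?_ (mul_le_mul_of_nonneg_left (add_le_add g2 h5) (by positivity))
    rw [← sum_add_distrib, mul_sum]
    refine sum_le_sum fun s hs => ?_
    have := (Nat.cast_le (α := ℝ)).2 (H s (Nat.lt_succ_iff.1 (mem_range.1 hs)))
    rw [Nat.cast_add] at this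
    rw [← add_mul, mul_left_comm]
    gcongr
  have h8 : (d : ℝ) * (a * (T / 2 ^ S)) ^ r ≤ (a * T) ^ r := by
    have e : (a * T) ^ r = (2 ^ S) ^ r * (a * (T / 2 ^ S)) ^ r := by
      rw [← Real.mul_rpow (by positivity) (by positivity)]
      congr 1
      field_simp
    rw [e]
    refine mul_le_mul_of_nonneg_right (le_trans ?_ (LAYx.self_le (one_le_pow₀ one_le_two) hr))
      (by positivity)
    exact_mod_cast hd
  have e1 : (2 * a) ^ r * T ^ r = 2 ^ r * (a * T) ^ r := by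
    rw [← Real.mul_rpow (by positivity) hT.le, ← Real.mul_rpow (by norm_num) haT.le, mul_assoc]
  have e2 : (10 * a * T) ^ r = 5 ^ r * (2 ^ r * (a * T) ^ r) := by
    rw [← Real.mul_rpow (by norm_num) haT.le, ← Real.mul_rpow (by norm_num) (by positivity)]
    congr 1
    ring
  have h9 : (5 : ℝ) ≤ 5 ^ r := LAYx.self_le (by norm_num) hr
  have h10 : (2 : ℝ) ≤ 2 ^ r := LAYx.self_le (by norm_num) hr
  have h11 : 0 ≤ (a * T) ^ r := by positivity
  have h12 := mul_le_mul_of_nonneg_right h10 h11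
  have h13 := mul_le_mul_of_nonneg_right h9 (le_trans (by positivity) h12)
  rw [e2, sum_congr rfl fun j _ => by rw [abs_of_nonneg (hf j)]]
  nlinarith

end Pool.Agent.P.MP_1157dd_an.N
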