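import Pool.Agent.P.MP_1157dd_an.N.Base

/-! The noncommutative Khintchine inequality by exchangeable pairs. -/

namespace Pool.Agent.P.MP_1157dd_an.N

open Matrix
open scoped ENNReal

namespace NCKx

lemma bern {a b r : ℝ} (ha : 0 < a) (hb : 0 < b) (hr : 0 ≤ r) :
    a * a ^ r - b * b ^ r ≤ (r + 1) * (a - b) * a ^ r := by
  have h := one_add_mul_self_le_rpow_one_add (s := b / a - 1) (p := r + 1)
    (by linarith [div_pos hb ha]) (by linarith)
  rw [add_sub_cancel, Real.div_rpow hb.le ha.le, Real.rpow_add_one hb.ne', Real.rpow_add_one ha.ne',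
    le_div_iff₀ (by positivity)] at h
  have e : (1 + (r + 1) * (b / a - 1)) * (a ^ r * a) = a * a ^ r - (r + 1) * (a - b) * a ^ r := by
    field_simp
    ring
  linarith

lemma scal_pos {a b r : ℝ} (ha : 0 < a) (hb : 0 < b) (hr : 0 ≤ r) :
    (a - b) * (a * a ^ r - b * b ^ r) ≤ (r + 1) * ((a - b) ^ 2 * (a ^ r + b ^ r)) := by
  have h1 := Real.rpow_nonneg ha.le r
  have h2 := Real.rpow_nonneg hb.le r
  have h3 : 0 ≤ (r + 1) * (a - b) ^ 2 := by positivity
  rcases le_total b a with h | h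
  · nlinarith [mul_le_mul_of_nonneg_left (bern ha hb hr) (sub_nonneg.2 h), mul_nonneg h3 h2]
  · nlinarith [mul_le_mul_of_nonneg_left (bern hb ha hr) (sub_nonneg.2 h), mul_nonneg h3 h1]

lemma scal (a b : ℝ) {r : ℝ} (hr : 0 ≤ r) :
    (a - b) * (a * |a| ^ r - b * |b| ^ r) ≤ (r + 1) * ((a - b) ^ 2 * (|a| ^ r + |b| ^ r)) := by
  rcases le_or_gt (a * b) 0 with h | h
  · have h1 := Real.rpow_nonneg (abs_nonneg a) r
    have h2 := Real.rpow_nonneg (abs_nonneg b) r
    have h3 : 0 ≤ r * ((a - b) ^ 2 * (|a| ^ r + |b| ^ r)) := by positivity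
    nlinarith [mul_nonneg h1 (show 0 ≤ b ^ 2 - a * b by nlinarith),
      mul_nonneg h2 (show 0 ≤ a ^ 2 - a * b by nlinarith)]
  · rcases pos_and_pos_or_neg_and_neg_of_mul_pos h with ⟨ha, hb⟩ | ⟨ha, hb⟩
    · rw [abs_of_pos ha, abs_of_pos hb]
      exact scal_pos ha hb hr
    · rw [abs_of_neg ha, abs_of_neg hb]
      have := scal_pos (neg_pos.2 ha) (neg_pos.2 hb) hr
      linarith

lemma young {q v x : ℝ} (hq : 2 ≤ q) (hv : 0 ≤ v) (hx : 0 ≤ x) :
    2 * (q - 1) * (x ^ (q - 2) * v)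
      ≤ 2 / q * ((2 * q) ^ (q / 2) * v ^ (q / 2)) + (1 - 2 / q) * x ^ q := by
  have hq0 : 0 < q := by linarith
  have h := Real.geom_mean_le_arith_mean2_weighted (w₁ := 2 / q) (w₂ := 1 - 2 / q)
    (p₁ := (2 * q * v) ^ (q / 2)) (p₂ := x ^ q) (by positivity)
    (by rw [sub_nonneg, div_le_one hq0]; exact hq) (by positivity) (by positivity) (by ring)
  rw [← Real.rpow_mul (by positivity), ← Real.rpow_mul hx,
    show q / 2 * (2 / q) = 1 by field_simp, show q * (1 - 2 / q) = q - 2 by field_simp,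
    Real.rpow_one, Real.mul_rpow (by positivity) hv] at h
  nlinarith [mul_nonneg (Real.rpow_nonneg hx (q - 2)) hv]

variable {D : Type} [Fintype D] [DecidableEq D]

lemma qf_col (P O : Matrix D D ℝ) (a : D) : qf P (fun x => O x a) = (Oᵀ * P * O) a a := by
  rw [← qf_single (Oᵀ * P * O), qf_conj, mulVec_single_one]
  rfl

omit [DecidableEq D] in
lemma dot_qf (E : Matrix D D ℝ) (u : D → ℝ) : E *ᵥ u ⬝ᵥ E *ᵥ u = qf (Eᵀ * E) u := by
  classical
  rw [← qf_one, ← qf_conj, mul_one]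

lemma pair {E O O' : Matrix D D ℝ} {l l' : D → ℝ} {r : ℝ} (hr : 0 ≤ r) (hE : Eᵀ = E)
    (h1 : Oᵀ * O = 1) (h2 : O * Oᵀ = 1) (h3 : O'ᵀ * O' = 1) (h4 : O' * O'ᵀ = 1)
    (h : E = O * diagonal l * Oᵀ - O' * diagonal l' * O'ᵀ) :
    ∑ a, l a * |l a| ^ r * qf E (fun x => O x a) - ∑ b, l' b * |l' b| ^ r * qf E (fun x => O' x b)
      ≤ (r + 1) * (∑ a, |l a| ^ r * qf (Eᵀ * E) (fun x => O x a)
        + ∑ b, |l' b| ^ r * qf (Eᵀ * E) fun x => O' x b) := by
  obtain ⟨M, hM⟩ : ∃ M, M = Oᵀ * O' := ⟨_, rfl⟩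
  obtain ⟨N, hN⟩ : ∃ N, N = Oᵀ * E * O' := ⟨_, rfl⟩
  have hNM : ∀ a b, N a b = (l a - l' b) * M a b := fun a b => by
    have : N = diagonal l * M - M * diagonal l' := by
      rw [hN, hM, h, mul_sub, sub_mul]
      congr 1
      · rw [← mul_assoc, ← mul_assoc, h1, one_mul, mul_assoc]
      · simp only [mul_assoc, h3, mul_one]
    rw [this, Matrix.sub_apply, diagonal_mul, mul_diagonal]
    ring
  have e1 : Oᵀ * E * O = N * Mᵀ := by
    rw [hN, hM, transpose_mul, transpose_transpose, mul_assoc _ O', ← mul_assoc O', h4, one_mul]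
  have e2 : O'ᵀ * E * O' = Mᵀ * N := by
    rw [hN, hM, transpose_mul, transpose_transpose, mul_assoc O'ᵀ O, ← mul_assoc O,
      ← mul_assoc O, h2, one_mul, mul_assoc]
  have e3 : Oᵀ * (Eᵀ * E) * O = N * Nᵀ := by
    rw [hN, transpose_mul, transpose_mul, transpose_transpose, mul_assoc _ O', ← mul_assoc O', h4,
      one_mul, hE]
    simp only [mul_assoc]
  have e4 : O'ᵀ * (Eᵀ * E) * O' = Nᵀ * N := by
    rw [hN, transpose_mul, transpose_mul, transpose_transpose]
    simp only [mul_assoc]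
    rw [← mul_assoc O, h2, one_mul]
  simp only [qf_col]
  rw [e1, e2, e3, e4]
  simp only [mul_apply, transpose_apply, Finset.mul_sum]
  rw [Finset.sum_comm (f := fun b a => l' b * |l' b| ^ r * (M a b * N a b)),
    Finset.sum_comm (f := fun b a => |l' b| ^ r * (N a b * N a b)), ← Finset.sum_sub_distrib,
    ← Finset.sum_add_distrib, Finset.mul_sum]
  refine Finset.sum_le_sum fun a _ => ?_
  rw [← Finset.sum_sub_distrib, ← Finset.sum_add_distrib, Finset.mul_sum]
  refine Finset.sum_le_sum fun b _ => ?_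
  have := mul_le_mul_of_nonneg_left (scal (l a) (l' b) hr) (sq_nonneg (M a b))
  rw [hNM]
  linarith

variable {I : Type} [Fintype I] [DecidableEq I]

/-- change of one sign -/
def flip (i : I) : Equiv.Perm (I → Bool) :=
  Function.Involutive.toPerm (fun s => Function.update s i (!s i)) fun s => by simp

omit [Fintype I] in
lemma sg_flip (i : I) (s : I → Bool) : sg (flip i s) i = -sg s i := by
  change sg (Function.update s i (!s i)) i = _
  cases h : s i <;> simp [sg, h]

omit [Fintype D] [DecidableEq D] in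
lemma lc_flip (B : I → Matrix D D ℝ) (i : I) (s : I → Bool) :
    lc B (sg s) - lc B (sg (flip i s)) = (2 * sg s i) • B i := by
  rw [lc, lc, ← Finset.sum_sub_distrib, Finset.sum_eq_single i (fun j _ hj => ?_) (by simp),
    sg_flip, ← sub_smul]
  · congr 1
    ring
  · have : sg (flip i s) j = sg s j := by
      change sg (Function.update s i (!s i)) j = _
      simp [sg, Function.update_of_ne hj]
    rw [this, sub_self]

end NCKx

open NCKx in
theorem p_NCK : S_NCK := by
  intro D I _ _ _ _ B q T O l hq hB hT h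
  have hr : 0 ≤ q - 2 := by linarith
  have hq0 : 0 < q := by linarith
  let G : I → (I → Bool) → ℝ := fun i s =>
    ∑ e, l s e * |l s e| ^ (q - 2) * qf (B i) fun x => O s x e
  let K : I → (I → Bool) → ℝ := fun i s =>
    ∑ e, |l s e| ^ (q - 2) * qf ((B i)ᵀ * B i) fun x => O s x e
  have hS : ∀ s, ∑ e, |l s e| ^ q = ∑ i, sg s i * G i s := fun s => by
    simp only [G, Finset.mul_sum]
    rw [Finset.sum_comm]
    refine Finset.sum_congr rfl fun e _ => ?_
    have h1 : l s e = ∑ i, sg s i * qf (B i) fun x => O s x e := by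
      simp only [← qf_smul]
      rw [← qf_sum, ← lc, qf_col, (h s).2.2, ← mul_assoc, ← mul_assoc, (h s).1, one_mul, mul_assoc,
        (h s).1, mul_one, diagonal_apply_eq]
    calc |l s e| ^ q = l s e * |l s e| ^ (q - 2) * l s e := by
          conv_lhs => rw [show q = q - 2 + 2 by ring, Real.rpow_add' (abs_nonneg _) (by linarith),
            Real.rpow_two, sq_abs]
          ring
      _ = _ := by
          rw [congrArg (l s e * |l s e| ^ (q - 2) * ·) h1, Finset.mul_sum]
          exact Finset.sum_congr rfl fun i _ => by ring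
  have key : ∀ i, ∑ s, sg s i * G i s ≤ 2 * (q - 1) * ∑ s, K i s := fun i => by
    have h1 : ∀ s, 2 * (sg s i * G i s + sg (flip i s) i * G i (flip i s))
        ≤ 4 * (q - 1) * (K i s + K i (flip i s)) := fun s => by
      have h2 := pair (E := (2 * sg s i) • B i) (l := l s) (l' := l (flip i s)) hr
        (by rw [transpose_smul, hB]) (h s).1 (h s).2.1 (h _).1 (h _).2.1
        (by rw [← (h s).2.2, ← (h _).2.2, lc_flip])
      have h3 : (2 * sg s i) * (2 * sg s i) = 4 := by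
        rcases sign_sg s i with e | e <;> rw [e] <;> norm_num
      rw [transpose_smul, smul_mul_smul_comm, h3] at h2
      simp only [qf_smul, mul_left_comm _ (2 * sg s i), mul_left_comm _ (4 : ℝ),
        ← Finset.mul_sum] at h2
      rw [sg_flip]
      change _ * G i s - _ * G i (flip i s) ≤ _ * (4 * K i s + 4 * K i (flip i s)) at h2
      linarith
    have h2 := Finset.sum_le_sum fun s (_ : s ∈ Finset.univ) => h1 s
    rw [← Finset.mul_sum, ← Finset.mul_sum, Finset.sum_add_distrib, Finset.sum_add_distrib,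
      Equiv.sum_comp (flip i) fun s => sg s i * G i s, Equiv.sum_comp (flip i) (K i)] at h2
    linarith
  have h1 : ∑ s, ∑ e, |l s e| ^ q
      ≤ ∑ s, ∑ e, 2 * (q - 1) * (|l s e| ^ (q - 2) * vr B fun x => O s x e) := by
    simp only [hS]
    rw [Finset.sum_comm]
    refine (Finset.sum_le_sum fun i _ => key i).trans (le_of_eq ?_)
    simp only [K, vr, dot_qf, Finset.mul_sum]
    rw [Finset.sum_comm]
    exact Finset.sum_congr rfl fun s _ => Finset.sum_comm
  have h2 : ∀ s, ∑ e, 2 * (q - 1) * (|l s e| ^ (q - 2) * vr B fun x => O s x e)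
      ≤ 2 / q * ((2 * q) ^ (q / 2) * T) + (1 - 2 / q) * ∑ e, |l s e| ^ q := fun s => by
    refine (Finset.sum_le_sum fun e _ => young hq
      (Finset.sum_nonneg fun i _ => dot_nonneg _) (abs_nonneg _)).trans ?_
    rw [Finset.sum_add_distrib, ← Finset.mul_sum, ← Finset.mul_sum, ← Finset.mul_sum]
    have := hT (O s) (h s).1
    unfold vr at this
    gcongr
  have h3 := h1.trans (Finset.sum_le_sum fun s _ => h2 s)
  rw [Finset.sum_add_distrib, ← Finset.mul_sum, ← Finset.mul_sum, ← Finset.mul_sum, Finset.sum_const,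
    Finset.card_univ, Fintype.card_fun, Fintype.card_bool, nsmul_eq_mul, Nat.cast_pow,
    Nat.cast_ofNat] at h3
  exact le_of_mul_le_mul_left (a := 2 / q) (by linarith) (by positivity)

end Pool.Agent.P.MP_1157dd_an.N

/-! The Khintchine inequality for Schatten norms, in counting form. -/

namespace Pool.Agent.P.MP_1157dd_an.N

open Matrix
open scoped ENNReal

namespace NCKSx

variable {D : Type} [Fintype D] [DecidableEq D]

omit [DecidableEq D] in
lemma tr_mulVec (O : Matrix D D ℝ) (v : D → ℝ) (e : D) : (Oᵀ *ᵥ v) e = v ⬝ᵥ fun a => O a e :=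
  dotProduct_comm _ _

lemma pars {O : Matrix D D ℝ} (h : O * Oᵀ = 1) (v : D → ℝ) :
    ∑ e, (v ⬝ᵥ fun a => O a e) ^ 2 = v ⬝ᵥ v := by
  simp only [← tr_mulVec]
  rw [← dot_eq_sq, ← qf_one (Oᵀ *ᵥ v), ← qf_conj, transpose_transpose, mul_one, h, qf_one]

lemma col {O : Matrix D D ℝ} (h : Oᵀ * O = 1) (e : D) :
    ((fun a => O a e) ⬝ᵥ fun a => O a e) = 1 := by
  have := congrFun (congrFun h e) e
  rwa [one_apply_eq] at this

lemma qf_spec (O : Matrix D D ℝ) (l v : D → ℝ) :
    qf (O * diagonal l * Oᵀ) v = ∑ e, l e * (v ⬝ᵥ fun a => O a e) ^ 2 := by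
  simp only [← tr_mulVec]
  rw [← qf_diagonal, ← qf_conj, transpose_transpose]

lemma sum_le (hLP : S_LP) {q : ℝ≥0∞} (h1 : 1 ≤ q) (hq : q ≠ ∞) {α β : Type} [Fintype α]
    [Fintype β] {f : α → ℝ} {g : β → ℝ} (h : lpn q f ≤ lpn q g) :
    ∑ a, |f a| ^ q.toReal ≤ ∑ b, |g b| ^ q.toReal := by
  have hr : q.toReal ≠ 0 := ENNReal.toReal_ne_zero.2 ⟨(zero_lt_one.trans_le h1).ne', hq⟩
  have h0 : 0 ≤ ∑ b, |g b| ^ q.toReal := by positivity
  have e := Real.rpow_inv_rpow h0 hr
  have hT : 0 ≤ (∑ b, |g b| ^ q.toReal) ^ q.toReal⁻¹ := by positivity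
  exact (((hLP α q h1 f).2.2.2.2.2.2.1 hq _ hT).1
    (h.trans (((hLP β q h1 g).2.2.2.2.2.2.1 hq _ hT).2 e.ge))).trans e.le

lemma vr_spec {I : Type} [Fintype I] (A : I → Matrix D D ℝ) : ∃ (O : Matrix D D ℝ),
    Oᵀ * O = 1 ∧ O * Oᵀ = 1 ∧
      ∀ v, vr A v = ∑ e, (vr A fun a => O a e) * (v ⬝ᵥ fun a => O a e) ^ 2 := by
  obtain ⟨O, z, h1, h2, h3⟩ := spec (Z := ∑ i, (A i)ᵀ * A i) (by simp [transpose_sum])
  have h4 : ∀ v, vr A v = ∑ e, z e * (v ⬝ᵥ fun a => O a e) ^ 2 := fun v => by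
    rw [← qf_spec, ← h3, qf_sum]
    exact Finset.sum_congr rfl fun i _ => by rw [← qf_one, ← qf_conj, mul_one]
  refine ⟨O, h1, h2, fun v => (h4 v).trans (Finset.sum_congr rfl fun e _ => ?_)⟩
  have h5 : ∀ k, ((fun a => O a e) ⬝ᵥ fun a => O a k) = if e = k then 1 else 0 := fun k =>
    congrFun (congrFun h1 e) k
  rw [h4]
  simp [h5]

omit [DecidableEq D] in
lemma vr_nonneg {I : Type} [Fintype I] (A : I → Matrix D D ℝ) (v : D → ℝ) : 0 ≤ vr A v :=
  Finset.sum_nonneg fun _ _ => dot_nonneg _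

omit [DecidableEq D] in
lemma dot_split (u v : D ⊕ D → ℝ) :
    u ⬝ᵥ v = (u ∘ Sum.inl) ⬝ᵥ (v ∘ Sum.inl) + (u ∘ Sum.inr) ⬝ᵥ (v ∘ Sum.inr) :=
  Fintype.sum_sum_type _

lemma var (hLP : S_LP) (hJEN : S_JEN) {I : Type} [Fintype I] {A : I → Matrix D D ℝ} {q : ℝ≥0∞}
    {T : ℝ} (h2 : 2 ≤ q) (hq : q ≠ ∞) (hT : 0 ≤ T) (h : SVar q A T)
    (U : Matrix (D ⊕ D) (D ⊕ D) ℝ) (hU : Uᵀ * U = 1) :
    ∑ e, (vr (fun i => fromBlocks 0 (A i) (A i)ᵀ 0) fun a => U a e) ^ (q.toReal / 2) ≤
      2 * T ^ q.toReal := by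
  have h1 : 1 ≤ q := one_le_two.trans h2
  obtain ⟨O, a1, a2, a3⟩ := vr_spec A
  obtain ⟨P, b1, b2, b3⟩ := vr_spec fun i => (A i)ᵀ
  have hv : ∀ v : D ⊕ D → ℝ, vr (fun i => fromBlocks 0 (A i) (A i)ᵀ 0) v =
      vr A (v ∘ Sum.inr) + vr (fun i => (A i)ᵀ) (v ∘ Sum.inl) := fun v => by
    simp only [vr, fromBlocks_mulVec, zero_mulVec, zero_add, add_zero, sumElim_dotProduct_sumElim,
      Finset.sum_add_distrib]
  have k := ((hJEN (D ⊕ D) (D ⊕ D) q
    fun e => √(vr (fun i => fromBlocks 0 (A i) (A i)ᵀ 0) fun a => U a e)).1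
    (fun e => Sum.elim (fun k => (((fun a => U a e) ∘ Sum.inr) ⬝ᵥ fun a => O a k) ^ 2)
      fun k => (((fun a => U a e) ∘ Sum.inl) ⬝ᵥ fun a => P a k) ^ 2)
    (Sum.elim (fun k => √(vr A fun a => O a k)) fun k => √(vr (fun i => (A i)ᵀ) fun a => P a k))
    (by rintro e (k | k) <;> exact sq_nonneg _)
    (fun e => by
      rw [Fintype.sum_sum_type]
      simp only [Sum.elim_inl, Sum.elim_inr]
      rw [pars a2, pars b2, add_comm, ← dot_split, col hU])
    (by
      have hU' := mul_eq_one_comm.1 hU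
      rintro (k | k)
      · have := pars hU' (Sum.elim 0 fun a => O a k)
        simp only [dot_split, Sum.elim_comp_inl, Sum.elim_comp_inr, zero_dotProduct, zero_add,
          col a1] at this
        simp only [Sum.elim_inl, dotProduct_comm _ fun a => O a k, this, le_refl]
      · have := pars hU' (Sum.elim (fun a => P a k) 0)
        simp only [dot_split, Sum.elim_comp_inl, Sum.elim_comp_inr, zero_dotProduct, add_zero,
          col b1] at this
        simp only [Sum.elim_inr, dotProduct_comm _ fun a => P a k, this, le_refl])).2 h2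
    fun e => by
      rw [Real.sq_sqrt (vr_nonneg _ _), hv, a3, b3, Fintype.sum_sum_type]
      simp only [Sum.elim_inl, Sum.elim_inr, Real.sq_sqrt (vr_nonneg _ _), mul_comm, le_refl]
  have k2 := (sum_le hLP h1 hq k).trans_eq (Fintype.sum_sum_type _)
  simp only [Sum.elim_inl, Sum.elim_inr] at k2
  have c1 := ((hLP D q h1 _).2.2.2.2.2.2.1 hq T hT).1 (h O a1).1
  have c2 := ((hLP D q h1 _).2.2.2.2.2.2.1 hq T hT).1 (h P b1).2
  refine le_trans (le_of_eq (Finset.sum_congr rfl fun e _ => ?_)) (k2.trans (by linarith))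
  rw [abs_of_nonneg (Real.sqrt_nonneg _), Real.sqrt_eq_rpow, ← Real.rpow_mul (vr_nonneg _ _)]
  congr 1
  ring

lemma sing (hJEN : S_JEN) (hSV : S_SV) {d : ℕ} {q : ℝ≥0∞} (h1 : 1 ≤ q)
    (X : Matrix (Fin d) (Fin d) ℝ) {U : Matrix (Fin d ⊕ Fin d) (Fin d ⊕ Fin d) ℝ}
    {l : Fin d ⊕ Fin d → ℝ} (b1 : Uᵀ * U = 1) (b2 : U * Uᵀ = 1)
    (b3 : fromBlocks 0 X Xᵀ 0 = U * diagonal l * Uᵀ) : lpn q (sv X) ≤ lpn q l := by
  obtain ⟨-, O, u, a1, a2, -, a4, a5, a6⟩ := hSV d X
  refine ((hJEN _ _ q (sv X)).1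
    (fun j e => (Sum.elim (u j) (fun a => O a j) ⬝ᵥ fun a => U a e) ^ 2 / 2) l
    (fun _ _ => by positivity) (fun j => ?_) fun e => ?_).1 h1 fun j => ?_
  · rw [← Finset.sum_div, pars b2, sumElim_dotProduct_sumElim, col a1]
    linarith [a4.2 j]
  · have c1 := a4.1 ((fun a => U a e) ∘ Sum.inl)
    have c2 := pars a2 ((fun a => U a e) ∘ Sum.inr)
    have c3 := col b1 e
    rw [dot_split] at c3
    refine le_trans (Finset.sum_le_sum (g := fun j => (u j ⬝ᵥ (fun a => U a e) ∘ Sum.inl) ^ 2 +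
      ((fun a => U a e) ∘ Sum.inr ⬝ᵥ fun a => O a j) ^ 2) fun j _ => ?_) ?_
    · rw [dot_split, Sum.elim_comp_inl, Sum.elim_comp_inr, dotProduct_comm fun a => O a j]
      nlinarith [sq_nonneg (u j ⬝ᵥ (fun a => U a e) ∘ Sum.inl -
        (fun a => U a e) ∘ Sum.inr ⬝ᵥ fun a => O a j)]
    · rw [Finset.sum_add_distrib]
      linarith
  · have c1 := qf_dil X (u j) fun a => O a j
    rw [b3, qf_spec, a5, dotProduct_smul, smul_eq_mul, a6] at c1
    rw [show sv X j = (2 * sv X j) / 2 by ring, ← c1, Finset.sum_div]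
    refine (Finset.abs_sum_le_sum_abs _ _).trans (Finset.sum_le_sum fun e _ => le_of_eq ?_)
    rw [abs_div, abs_mul, abs_sq, abs_two]
    ring

end NCKSx

theorem p_NCKS (hLP : S_LP) (hJEN : S_JEN) (hSV : S_SV) (hNCK : S_NCK) : S_NCKS := by
  intro d I _ _ A q T h2 hq hT h
  have h1 : 1 ≤ q := one_le_two.trans h2
  have hr : 2 ≤ q.toReal := by simpa using ENNReal.toReal_mono hq h2
  have hlc : ∀ y : I → ℝ, lc (fun i => fromBlocks 0 (A i) (A i)ᵀ 0) y =
      fromBlocks 0 (lc A y) (lc A y)ᵀ 0 := by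
    intro y
    ext (i | i) (j | j) <;> simp [lc, Matrix.sum_apply]
  choose O l a1 a2 a3 using fun s : I → Bool =>
    spec (Z := fromBlocks 0 (lc A (sg s)) (lc A (sg s))ᵀ 0) (by simp [fromBlocks_transpose])
  have k := hNCK _ I (fun i => fromBlocks 0 (A i) (A i)ᵀ 0) q.toReal _ O l hr
    (fun i => by simp [fromBlocks_transpose]) (NCKSx.var hLP hJEN h2 hq hT h)
    fun s => ⟨a1 s, a2 s, (hlc _).trans (a3 s)⟩
  set F := Finset.univ.filter fun s : I → Bool => 8 * √q.toReal * T < schatten q (lc A (sg s))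
  have k1 : ∀ s ∈ F, (8 * √q.toReal * T) ^ q.toReal < ∑ e, |l s e| ^ q.toReal := fun s hs =>
    not_le.1 fun hh => (Finset.mem_filter.1 hs).2.not_ge
      ((NCKSx.sing hJEN hSV h1 _ (a1 s) (a2 s) (a3 s)).trans
        (((hLP _ q h1 _).2.2.2.2.2.2.1 hq _ (by positivity)).2 hh))
  have k2 : ∑ s ∈ F, ∑ e, |l s e| ^ q.toReal ≤ ∑ s, ∑ e, |l s e| ^ q.toReal :=
    Finset.sum_le_sum_of_subset_of_nonneg (Finset.subset_univ _) fun _ _ _ => by positivity
  generalize q.toReal = r at *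
  have hr0 : 0 < r := by linarith
  rcases F.eq_empty_or_nonempty with e | e
  · simp [e]
  have k3 := (Finset.sum_lt_sum_of_nonempty e k1).trans_le (k2.trans k)
  have e1 : (8 * √r * T) ^ r = 32 ^ (r / 2) * ((2 * r) ^ (r / 2) * T ^ r) := by
    rw [Real.mul_rpow (x := 8 * √r) (by positivity) hT, ← mul_assoc,
      ← Real.mul_rpow (x := 32) (by norm_num) (by positivity), show 32 * (2 * r) = (8 * √r) ^ (2 : ℝ) by
        rw [Real.rpow_two, mul_pow, Real.sq_sqrt hr0.le]; ring,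
      ← Real.rpow_mul (by positivity), mul_div_cancel₀ _ two_ne_zero]
  have e2 : (32 : ℝ) ≤ 32 ^ (r / 2) := by
    simpa using Real.rpow_le_rpow_of_exponent_le (x := 32) (by norm_num) (by linarith : 1 ≤ r / 2)
  rw [Finset.sum_const, nsmul_eq_mul, e1] at k3
  have e3 : 0 ≤ (2 * r) ^ (r / 2) * T ^ r := by positivity
  have e4 : (F.card : ℝ) * 32 * ((2 * r) ^ (r / 2) * T ^ r) <
      2 ^ Fintype.card I * 2 * ((2 * r) ^ (r / 2) * T ^ r) := by
    nlinarith [mul_le_mul_of_nonneg_left (mul_le_mul_of_nonneg_right e2 e3) (Nat.cast_nonneg F.card)]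
  have e5 := lt_of_mul_lt_mul_right e4 e3
  have e6 : (0 : ℝ) ≤ F.card := Nat.cast_nonneg _
  exact_mod_cast (by linarith : 4 * (F.card : ℝ) ≤ 2 ^ Fintype.card I)

end Pool.Agent.P.MP_1157dd_an.N

namespace Pool.Agent.P.MP_1157dd_an.N

open Matrix
open scoped ENNReal

namespace COMBx

theorem key {P N : ℝ} (hP : 4 ≤ P) (hN : 0 ≤ N) : 8 * √((P + 2) * (N / 2)) ≤ 7 * √(P * N) := by
  have h0 : 0 ≤ P * N := mul_nonneg (by linarith) hN
  have h : √((P + 2) * (N / 2)) ≤ 7 / 8 * √(P * N) := by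
    refine Real.sqrt_le_iff.2 ⟨by positivity, ?_⟩
    rw [mul_pow, Real.sq_sqrt h0]
    nlinarith
  linarith

theorem rounds {I : Type} [Fintype I] (ν : (I → ℝ) → ℝ) {a : ℝ}
    (hν : ∀ y z, ν (y + z) ≤ ν y + ν z) (h0 : ν 0 ≤ 0) (ha : 0 ≤ a) (k : ℕ) :
    ∀ P N : ℝ, 4 ≤ P → 0 ≤ N → N < 2 ^ k →
    (∀ (j : ℕ) (x₀ : I → ℝ), Cube x₀ → N / 2 ^ (j + 1) < (free x₀).card →
      (free x₀).card ≤ N / 2 ^ j → ∃ x : I → ℝ, Cube x ∧
        2 * (free x).card ≤ (free x₀).card ∧ ν (x - x₀) ≤ a * √((P + 2 * j) * (N / 2 ^ j))) →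
    ∀ x₀ : I → ℝ, Cube x₀ → (free x₀).card ≤ N →
      ∃ ε : I → ℝ, Sign ε ∧ ν (ε - x₀) ≤ 8 * a * √(P * N) := by
  induction k with
  | zero =>
    intro P N _ _ hk _ x₀ hx hc
    have h1 : (free x₀).card = 0 := by
      have : ((free x₀).card : ℝ) < 1 := hc.trans_lt (by simpa using hk)
      exact Nat.lt_one_iff.1 (by exact_mod_cast this)
    refine ⟨x₀, fun i => ?_, by rw [sub_self]; exact h0.trans (by positivity)⟩
    have h2 : ¬|x₀ i| < 1 := fun h => by
      have := mem_free.2 h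
      rw [Finset.card_eq_zero.1 h1] at this
      simp at this
    exact (abs_eq zero_le_one).1 (le_antisymm (hx i) (not_lt.1 h2))
  | succ k ih =>
    intro P N hP hN hk H x₀ hx hc
    obtain ⟨x, h1, h2, h3⟩ : ∃ x : I → ℝ, Cube x ∧ ((free x).card : ℝ) ≤ N / 2 ∧
        ν (x - x₀) ≤ a * √(P * N) := by
      by_cases h : ((free x₀).card : ℝ) ≤ N / 2
      · exact ⟨x₀, hx, h, by rw [sub_self]; exact h0.trans (by positivity)⟩
      · obtain ⟨x, g1, g2, g3⟩ := H 0 x₀ hx (by simpa using h) (by simpa using hc)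
        have g4 : 2 * ((free x).card : ℝ) ≤ (free x₀).card := by exact_mod_cast g2
        exact ⟨x, g1, by linarith, by simpa using g3⟩
    obtain ⟨ε, g1, g2⟩ := ih (P + 2) (N / 2) (by linarith) (by linarith)
      (by rw [pow_succ] at hk; linarith) (fun j y hy j1 j2 => by
        have e : ∀ i : ℕ, N / 2 / 2 ^ i = N / 2 ^ (i + 1) := fun i => by
          rw [pow_succ', div_div]
        rw [e] at j1 j2 ⊢
        have e2 : P + 2 + 2 * (j : ℝ) = P + 2 * ((j + 1 : ℕ) : ℝ) := by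
          push_cast
          ring
        rw [e2]
        exact H (j + 1) y hy j1 j2) x h1 h2
    refine ⟨ε, g1, ?_⟩
    have h4 := hν (ε - x) (x - x₀)
    rw [sub_add_sub_cancel] at h4
    have h5 := mul_le_mul_of_nonneg_left (key hP hN) ha
    linarith

end COMBx

theorem p_LEVY : S_LEVY := by
  classical
  intro E _ _ ν n Y a hν
  let pre : (Fin n → Bool) → ℕ → E := fun s t =>
    ∑ i ∈ Finset.univ.filter fun i : Fin n => (i : ℕ) < t, sg s i • Y i
  let τ : (Fin n → Bool) → ℕ := fun s => sInf {t | t ≤ n ∧ a < ν (pre s t)}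
  let fl : (Fin n → Bool) → Fin n → Bool := fun s i => if (i : ℕ) < τ s then s i else !s i
  set A := Finset.univ.filter fun s : Fin n → Bool => ∃ t ≤ n, a < ν (pre s t) with hA
  set B := Finset.univ.filter fun s : Fin n → Bool => a < ν (∑ i, sg s i • Y i) with hB
  have hτ : ∀ s ∈ A, τ s ≤ n ∧ a < ν (pre s (τ s)) := fun s hs =>
    Nat.sInf_mem (s := {t | t ≤ n ∧ a < ν (pre s t)}) (Finset.mem_filter.1 hs).2
  have hle : ∀ s ∈ A, ∀ s', fl s = fl s' → τ s ≤ τ s' → τ s' ≤ τ s := by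
    intro s hs s' h h'
    refine Nat.sInf_le ⟨(hτ s hs).1, ?_⟩
    have : pre s' (τ s) = pre s (τ s) := by
      refine Finset.sum_congr rfl fun i hi => ?_
      have h1 := (Finset.mem_filter.1 hi).2
      have h2 := congrFun h i
      simp only [fl, if_pos h1, if_pos (h1.trans_le h')] at h2
      rw [sg, sg, h2]
    rw [this]
    exact (hτ s hs).2
  have h1 : (A \ B).card ≤ B.card := by
    refine Finset.card_le_card_of_injOn fl (fun s hs => ?_) fun s hs s' hs' h => ?_
    · obtain ⟨g1, g2⟩ := Finset.mem_sdiff.1 hs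
      have g3 : ¬a < ν (∑ i, sg s i • Y i) := by simpa [hB] using g2
      have g4 := hν (pre s (τ s))
        (∑ i ∈ Finset.univ.filter fun i : Fin n => ¬(i : ℕ) < τ s, sg s i • Y i)
      have e : ∑ i, sg (fl s) i • Y i = pre s (τ s) -
          ∑ i ∈ Finset.univ.filter fun i : Fin n => ¬(i : ℕ) < τ s, sg s i • Y i := by
        rw [← Finset.sum_filter_add_sum_filter_not Finset.univ fun i : Fin n => (i : ℕ) < τ s,
          sub_eq_add_neg, ← Finset.sum_neg_distrib]
        congr 1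
        · refine Finset.sum_congr rfl fun i hi => ?_
          simp only [sg, fl, if_pos (Finset.mem_filter.1 hi).2]
        · refine Finset.sum_congr rfl fun i hi => ?_
          simp only [sg, fl, if_neg (Finset.mem_filter.1 hi).2]
          cases s i <;> simp
      rw [Finset.sum_filter_add_sum_filter_not] at g4
      simp only [hB, Finset.coe_filter, Finset.mem_univ, true_and, Set.mem_ofPred_eq]
      rw [e]
      linarith [(hτ s g1).2, not_lt.1 g3]
    · have g1 := (Finset.mem_sdiff.1 hs).1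
      have g2 := (Finset.mem_sdiff.1 hs').1
      have e : τ s = τ s' := by
        rcases le_total (τ s) (τ s') with h' | h'
        exacts [le_antisymm h' (hle s g1 s' h h'), le_antisymm (hle s' g2 s h.symm h') h']
      funext i
      have h2 := congrFun h i
      simp only [fl, e] at h2
      split_ifs at h2
      exacts [h2, Bool.not_inj h2]
  have h2 := Finset.card_le_card_sdiff_add_card (s := A) (t := B)
  omega

theorem p_CHAIN : S_CHAIN := by
  classical
  intro E I _ _ ν r Y L a P hν h0 ha hP H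
  have key : ∀ j k : ℕ, j + k = L + 1 → ∀ m < 2 ^ j,
      ν (∑ i ∈ Finset.univ.filter fun i => r i / 2 ^ k < m, Y i) ≤
        8 * a * (√(P * 2 ^ L) - √((P + 2 * j) * (2 ^ k / 2))) := by
    intro j
    induction j with
    | zero =>
      intro k hk m hm
      obtain rfl : m = 0 := by simpa using hm
      obtain rfl : k = L + 1 := by omega
      simpa [pow_succ] using h0
    | succ j ih =>
      intro k hk m hm
      have h1 := ih (k + 1) (by omega) (m / 2) (by rw [pow_succ] at hm; omega)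
      have h2 := H k (by omega) (2 * (m / 2)) (by
        rw [show L + 1 - k = j + 1 by omega]
        omega)
      have hj : (0 : ℝ) ≤ j := Nat.cast_nonneg j
      rw [show L - k = j by omega, mul_assoc, ← Real.sqrt_mul (by positivity),
        mul_comm ((2 : ℝ) ^ k)] at h2
      rw [pow_succ (2 : ℝ), mul_div_cancel_right₀ _ two_ne_zero] at h1
      have h3 := mul_le_mul_of_nonneg_left
        (COMBx.key (P := P + 2 * j) (N := 2 ^ k) (by linarith) (by positivity)) ha
      have e : P + 2 * ((j + 1 : ℕ) : ℝ) = P + 2 * j + 2 := by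
        push_cast
        ring
      have h4 : 0 ≤ a * √((P + 2 * j) * 2 ^ k) := by positivity
      have e1 : ∀ i, r i / 2 ^ (k + 1) = r i / 2 ^ k / 2 := fun i => by
        rw [pow_succ, Nat.div_div_eq_div_mul]
      rw [e]
      simp only [e1] at h1
      rcases Nat.mod_two_eq_zero_or_one m with h | h
      · rw [Finset.filter_congr (q := fun i => r i / 2 ^ k / 2 < m / 2) fun i _ => by omega]
        linarith
      · have e2 : (Finset.univ.filter fun i => r i / 2 ^ k < m) =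
            (Finset.univ.filter fun i => r i / 2 ^ k / 2 < m / 2) ∪
              Finset.univ.filter fun i => r i / 2 ^ k = 2 * (m / 2) := by
          rw [← Finset.filter_or]
          exact Finset.filter_congr fun i _ => by omega
        rw [e2, Finset.sum_union (Finset.disjoint_filter.2 fun i _ => by omega)]
        refine (hν _ _).trans ?_
        linarith
  intro m hm
  have h1 := key (L + 1) 0 rfl m hm
  simp only [pow_zero, Nat.div_one] at h1
  refine h1.trans (mul_le_mul_of_nonneg_left (sub_le_self _ (Real.sqrt_nonneg _)) (by positivity))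

theorem p_ROUNDS : S_ROUNDS := by
  intro I _ ν a P N hν h0 ha hP hN H
  obtain ⟨k, hk⟩ := pow_unbounded_of_one_lt N (one_lt_two (α := ℝ))
  exact COMBx.rounds ν hν h0 ha k P N hP hN hk H

end Pool.Agent.P.MP_1157dd_an.N
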