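import Pool.Agent.P.MP_1157dd_an.N.Base

/-! The entropy lemma for Schatten norms. -/

namespace Pool.Agent.P.MP_1157dd_an.N

open Matrix
open scoped ENNReal

namespace ENTSx

variable {D I : Type} [Fintype D] [Fintype I] [DecidableEq D]

lemma prj_transpose (O : Matrix D D ℝ) (S : Finset D) : (prj O S)ᵀ = prj O S := by
  simp only [prj, transpose_mul, transpose_transpose, diagonal_transpose, mul_assoc]

lemma qf_prj {O : Matrix D D ℝ} (hO : Oᵀ * O = 1) (ζ : D → ℝ) (S : Finset D) (v : D → ℝ) :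
    qf (O * diagonal ζ * Oᵀ) (prj O S *ᵥ v) = ∑ e ∈ S, ζ e * (Oᵀ *ᵥ v) e ^ 2 := by
  rw [prj, ← mulVec_mulVec, ← mulVec_mulVec, ← qf_conj, ← mul_assoc, ← mul_assoc, hO, one_mul,
    mul_assoc, hO, mul_one, qf_diagonal, ← Finset.sum_subset (Finset.subset_univ S)]
  · exact Finset.sum_congr rfl fun e he => by rw [mulVec_diagonal, if_pos he, one_mul]
  · intro e _ he
    rw [mulVec_diagonal, if_neg he]; ring

lemma sum_sq {O : Matrix D D ℝ} (hO : O * Oᵀ = 1) (v : D → ℝ) :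
    ∑ e, (Oᵀ *ᵥ v) e ^ 2 = v ⬝ᵥ v := by
  rw [← dot_eq_sq, ← qf_one (Oᵀ *ᵥ v), ← qf_conj, transpose_transpose, mul_one, hO, qf_one]

lemma prj_le {O : Matrix D D ℝ} (hO : Oᵀ * O = 1) (S : Finset D) (v : D → ℝ) :
    prj O S *ᵥ v ⬝ᵥ prj O S *ᵥ v ≤ v ⬝ᵥ v := by
  have hO' : O * Oᵀ = 1 := mul_eq_one_comm.1 hO
  have := qf_prj hO (fun _ => 1) S v
  rw [diagonal_one, mul_one, hO', qf_one] at this
  rw [this, ← sum_sq hO' v]
  simp only [one_mul]
  exact Finset.sum_le_sum_of_subset_of_nonneg (Finset.subset_univ _) fun _ _ _ => sq_nonneg _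

omit [DecidableEq D] in
lemma vr_eq (A : I → Matrix D D ℝ) (v : D → ℝ) : vr A v = qf (∑ i, (A i)ᵀ * A i) v := by
  classical
  rw [qf_sum, vr]
  refine Finset.sum_congr rfl fun i _ => ?_
  rw [← qf_one (A i *ᵥ v), ← qf_conj, mul_one]

/-- an orthonormal basis that diagonalises the variance form -/
def Dg (A : I → Matrix D D ℝ) (O : Matrix D D ℝ) : Prop :=
  Oᵀ * O = 1 ∧ ∀ S v, vr A (prj O S *ᵥ v) = ∑ e ∈ S, (vr A fun a => O a e) * (Oᵀ *ᵥ v) e ^ 2

lemma exists_Dg (A : I → Matrix D D ℝ) : ∃ O, Dg A O := by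
  obtain ⟨O, ζ, a1, -, a3⟩ := spec (Z := ∑ i, (A i)ᵀ * A i)
    (by simp only [transpose_sum, transpose_mul, transpose_transpose])
  refine ⟨O, a1, fun S v => ?_⟩
  rw [vr_eq, a3, qf_prj a1]
  refine Finset.sum_congr rfl fun e _ => ?_
  have : (fun a => O a e) = O *ᵥ Pi.single e 1 := by
    funext a; simp
  rw [vr_eq, this, ← qf_conj, a3, ← mul_assoc, ← mul_assoc, a1, one_mul, mul_assoc, a1, mul_one,
    qf_single, diagonal_apply_eq]

omit [DecidableEq D] in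
lemma vr_nonneg (A : I → Matrix D D ℝ) (v : D → ℝ) : 0 ≤ vr A v :=
  Finset.sum_nonneg fun _ _ => dot_nonneg _

lemma vr_le (A : I → Matrix D D ℝ) {O : Matrix D D ℝ} (hO : Oᵀ * O = 1) (S : Finset D)
    (P : Matrix D D ℝ) (v : D → ℝ) : vr (fun i => prj O S * A i * P) v ≤ vr A (P *ᵥ v) :=
  Finset.sum_le_sum fun i _ => by
    simp only [← mulVec_mulVec]
    exact prj_le hO S _

lemma vr_blk {A : I → Matrix D D ℝ} {O₁ O₂ : Matrix D D ℝ} (h₁ : O₁ᵀ * O₁ = 1) (h₂ : Dg A O₂)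
    (S : Finset D) {s : ℝ} (hs : 0 ≤ s) (v : D → ℝ) :
    vr (fun i => prj O₁ S * A i *
      prj O₂ (Finset.univ.filter fun e => √(vr A fun a => O₂ a e) ≤ s)) v ≤ s ^ 2 * (v ⬝ᵥ v) := by
  refine (vr_le A h₁ S _ v).trans ?_
  rw [h₂.2, ← sum_sq (mul_eq_one_comm.1 h₂.1) v, Finset.mul_sum]
  refine le_trans (Finset.sum_le_sum fun e he => ?_)
    (Finset.sum_le_sum_of_subset_of_nonneg (Finset.subset_univ _) fun _ _ _ => by positivity)
  exact mul_le_mul_of_nonneg_right ((Real.sqrt_le_left hs).1 (Finset.mem_filter.1 he).2)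
    (sq_nonneg _)

lemma sum_frob (B : I → Matrix D D ℝ) : ∑ i, frob (B i) = ∑ j, vr B (Pi.single j 1) := by
  simp only [vr, frob, dot_eq_sq, mulVec_single_one]
  symm
  rw [Finset.sum_comm]
  exact Finset.sum_congr rfl fun i _ => Finset.sum_comm

lemma frob_blk {A : I → Matrix D D ℝ} {O₁ O₂ : Matrix D D ℝ} (h₁ : O₁ᵀ * O₁ = 1) (h₂ : Dg A O₂)
    (S₁ S₂ : Finset D) :
    ∑ i, frob (prj O₁ S₁ * A i * prj O₂ S₂) ≤ ∑ e ∈ S₂, vr A fun a => O₂ a e := by
  rw [sum_frob]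
  refine (Finset.sum_le_sum fun j _ => vr_le A h₁ S₁ _ _).trans (le_of_eq ?_)
  simp only [h₂.2]
  rw [Finset.sum_comm]
  refine Finset.sum_congr rfl fun e _ => ?_
  have := congrFun (congrFun h₂.1 e) e
  rw [mul_apply, one_apply_eq] at this
  rw [← Finset.mul_sum]
  simp only [mulVec_single_one, sq]
  exact mul_right_eq_self₀.2 (Or.inl this)

lemma geo {x T : ℝ} (hx : 0 ≤ x) (hT : 0 < T) (n : ℕ) :
    ∑ s ∈ Finset.range n, (if √x ≤ T / 2 ^ s then x / (T / 2 ^ s) ^ 2 else 0) ≤ 2 := by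
  have e : ∀ s : ℕ, x / (T / 2 ^ s) ^ 2 = x / T ^ 2 * 4 ^ s := fun s => by
    rw [show (4 : ℝ) ^ s = (2 ^ s) ^ 2 by rw [← pow_mul, mul_comm, pow_mul]; norm_num]
    field_simp
  have hu : 0 ≤ x / T ^ 2 := by positivity
  have hA : ∀ n : ℕ, ∑ s ∈ Finset.range n, (if √x ≤ T / 2 ^ s then x / (T / 2 ^ s) ^ 2 else 0) ≤
      x / T ^ 2 * 4 ^ n / 3 := fun n => by
    induction n with
    | zero => simpa using by positivity
    | succ n ih =>
      rw [Finset.sum_range_succ, pow_succ (4 : ℝ)]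
      have : 0 ≤ x / T ^ 2 * 4 ^ n := by positivity
      split_ifs
      · rw [e]; linarith
      · linarith
  induction n with
  | zero => simp
  | succ n ih =>
    by_cases h : √x ≤ T / 2 ^ n
    · have h1 := (Real.sqrt_le_left (by positivity)).1 h
      have h2 : x / (T / 2 ^ n) ^ 2 ≤ 1 := (div_le_one (by positivity)).2 h1
      have h3 := hA (n + 1)
      rw [e] at h2
      rw [pow_succ (4 : ℝ)] at h3
      linarith
    · rw [Finset.sum_range_succ, if_neg h, add_zero]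
      exact ih

omit [DecidableEq D] in
lemma lc_blk (A : I → Matrix D D ℝ) (P Q : Matrix D D ℝ) (y : I → ℝ) :
    lc (fun i => P * A i * Q) y = P * lc A y * Q := by
  simp only [lc, Finset.mul_sum, Finset.sum_mul, mul_smul_comm, smul_mul_assoc]

end ENTSx

open ENTSx in
theorem p_ENTS (_hLP : S_LP) (hSV : S_SV) (hCNT : S_CNT) (hLAY : S_LAY) (hENT : S_ENT) :
    S_ENTS := by
  intro d I K _ _ _ A q T p W x₀ hq hT hp hV hc hW hx
  choose O₁ h₁ using fun k => exists_Dg fun i => (A k i)ᵀ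
  choose O₂ h₂ using fun k => exists_Dg (A k)
  obtain ⟨g, hg⟩ : ∃ g : K → Fin d → ℝ,
    g = fun k e => √(vr (fun i => (A k i)ᵀ) fun a => O₁ k a e) := ⟨_, rfl⟩
  obtain ⟨h, hh⟩ : ∃ h : K → Fin d → ℝ, h = fun k e => √(vr (A k) fun a => O₂ k a e) := ⟨_, rfl⟩
  have hσ : ∀ k (s : ℕ), 0 < T k / 2 ^ s := fun k s => div_pos (hT k) (by positivity)
  obtain ⟨x, a1, a2, a3, a4⟩ := hENT (Fin d) I (K × Fin (d + 1))
    (fun z i => prj (O₁ z.1) (Finset.univ.filter fun e => g z.1 e ≤ T z.1 / 2 ^ (z.2 : ℕ)) *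
      A z.1 i * prj (O₂ z.1) (Finset.univ.filter fun e => h z.1 e ≤ T z.1 / 2 ^ (z.2 : ℕ)))
    (fun z => T z.1 / 2 ^ (z.2 : ℕ)) (fun z => p z.1) W x₀ (fun z => hσ _ _) (fun z => hp _)
    (fun z v => ⟨by subst hh; exact vr_blk (h₁ z.1).1 (h₂ z.1) _ (hσ _ _).le v, by
      subst hg
      simp only [transpose_mul, prj_transpose, ← mul_assoc]
      exact vr_blk (h₂ z.1).1 (h₁ z.1) _ (hσ _ _).le v⟩)
    (by
      refine le_trans ?_ hc
      rw [Fintype.sum_prod_type]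
      refine Finset.sum_le_sum fun k _ => ?_
      dsimp only
      rw [← Finset.sum_div]
      refine div_le_div_of_nonneg_right ?_ (by positivity)
      refine (Finset.sum_le_sum fun s _ => div_le_div_of_nonneg_right
        (frob_blk (h₁ k).1 (h₂ k) _ _) (sq_nonneg _)).trans ?_
      simp only [Finset.sum_div, Finset.sum_filter, ite_div, zero_div]
      rw [Finset.sum_comm]
      calc _ ≤ ∑ _e : Fin d, (2 : ℝ) := Finset.sum_le_sum fun e _ => by
            subst hh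
            exact (Fin.sum_univ_eq_sum_range (fun s : ℕ => if √(vr (A k) fun a => O₂ k a e) ≤
              T k / 2 ^ s then (vr (A k) fun a => O₂ k a e) / (T k / 2 ^ s) ^ 2 else 0) _).le.trans
              (geo (vr_nonneg _ _) (hT k) _)
        _ = _ := by simp [mul_comm]) hW hx
  refine ⟨x, a1, a2, a3, fun k => ?_⟩
  have hp' : 0 < √(p k : ℝ) := Real.sqrt_pos.2 (by exact_mod_cast hp k)
  have := hLAY d q (sv (lc (A k) (x - x₀))) (g k) (h k) (2 ^ 18 * √(p k)) (T k) d hq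
    (by positivity) (hT k) Nat.lt_two_pow_self.le (hSV d _).1
    (fun j => by rw [hg]; exact Real.sqrt_nonneg _) (fun j => by rw [hh]; exact Real.sqrt_nonneg _)
    (by rw [hg]; exact (hV k _ (h₁ k).1).2) (by rw [hh]; exact (hV k _ (h₂ k).1).1)
    fun s hs => by
      have b := a4 (k, ⟨s, Nat.lt_succ_of_le hs⟩)
      simp only [lc_blk] at b
      have c := hCNT d _ _ _ _ _ _ (by have := hσ k s; positivity) (h₁ k).1 (h₂ k).1 b
      simp only [Finset.compl_filter, not_le] at c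
      rwa [mul_right_comm] at c
  rw [schatten_eq]
  have := mul_pos (hT k) hp'
  nlinarith

end Pool.Agent.P.MP_1157dd_an.N

/-! Splitting into large and small singular values. -/

namespace Pool.Agent.P.MP_1157dd_an.N

open Matrix
open scoped ENNReal

namespace SPLITx

variable {D I : Type} [Fintype D] [Fintype I] [DecidableEq D]

lemma exists_proj [DecidableEq I] (N : Submodule ℝ (I → ℝ)) : ∃ P : Matrix I I ℝ,
    (∀ c, P *ᵥ c ∈ N) ∧ (∀ y ∈ N, P *ᵥ y = y) ∧ ∀ v, P *ᵥ v ⬝ᵥ P *ᵥ v ≤ 1 * (v ⬝ᵥ v) := by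
  let e := WithLp.linearEquiv 2 ℝ (I → ℝ)
  let K : Submodule ℝ (EuclideanSpace ℝ I) := N.comap e.toLinearMap
  have n : ∀ x : EuclideanSpace ℝ I, x.ofLp ⬝ᵥ x.ofLp = ‖x‖ ^ 2 := fun x => by
    rw [EuclideanSpace.norm_sq_eq, dot_eq_sq]
    simp
  refine ⟨LinearMap.toMatrix' (e.toLinearMap ∘ₗ K.starProjection.toLinearMap ∘ₗ e.symm.toLinearMap),
    fun c => ?_, fun y hy => ?_, fun v => ?_⟩ <;> rw [LinearMap.toMatrix'_mulVec]
  · exact K.starProjection_apply_mem _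
  · exact congrArg WithLp.ofLp ((K.starProjection_eq_self_iff (v := WithLp.toLp 2 y)).2 hy)
  · rw [one_mul]
    exact (n _).trans_le ((pow_le_pow_left₀ (norm_nonneg _)
      (K.norm_starProjection_apply_le (WithLp.toLp 2 v)) 2).trans_eq (n _).symm)

lemma cut {X O : Matrix D D ℝ} {s : D → ℝ} (h1 : Oᵀ * O = 1)
    (h3 : Xᵀ * X = O * diagonal (fun j => s j ^ 2) * Oᵀ) (w : D → ℝ) :
    (X * (O * diagonal w * Oᵀ))ᵀ * (X * (O * diagonal w * Oᵀ)) =
      O * diagonal (fun j => w j * s j ^ 2 * w j) * Oᵀ := by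
  have e : ∀ Y : Matrix D D ℝ, Oᵀ * (O * Y) = Y := fun Y => by rw [← mul_assoc, h1, one_mul]
  rw [transpose_mul, mul_assoc, ← mul_assoc Xᵀ, h3, ← diagonal_mul_diagonal,
    ← diagonal_mul_diagonal]
  simp only [transpose_mul, transpose_transpose, diagonal_transpose, mul_assoc, e]

lemma decomp {X O : Matrix D D ℝ} {s : D → ℝ} {τ r : ℝ} (h0 : ∀ j, 0 ≤ s j) (h1 : Oᵀ * O = 1)
    (h2 : O * Oᵀ = 1) (h3 : Xᵀ * X = O * diagonal (fun j => s j ^ 2) * Oᵀ) (hτ : 0 < τ)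
    (hr : 2 ≤ r) (hs : ∑ j, |s j| ^ r ≤ 1) :
    ∃ G S : Matrix D D ℝ, X = G + S ∧ frob G ≤ τ ^ (2 - r) ∧ OpLe S τ := by
  refine ⟨X * (O * diagonal (fun j => if τ < s j then 1 else 0) * Oᵀ),
    X * (O * diagonal (fun j => if τ < s j then 0 else 1) * Oᵀ), ?_, ?_, fun v => ?_⟩
  · rw [← mul_add, ← add_mul, ← mul_add, diagonal_add]
    have : (fun j => (if τ < s j then 1 else 0) + if τ < s j then 0 else 1) = fun _ => (1 : ℝ) :=
      funext fun j => by split_ifs <;> simp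
    rw [this, diagonal_one, mul_one, h2, mul_one]
  · rw [frob_eq_trace, cut h1 h3, trace_mul_comm, ← mul_assoc, h1, one_mul, trace_diagonal]
    refine le_trans (Finset.sum_le_sum fun j _ => ?_)
      ((Finset.mul_sum _ _ _).ge.trans (mul_le_of_le_one_right (by positivity) hs))
    split_ifs with h
    · rw [one_mul, mul_one, abs_of_nonneg (h0 j), ← Real.rpow_two,
        show (2 : ℝ) = 2 - r + r by ring, Real.rpow_add (hτ.trans h), add_sub_cancel_right]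
      exact mul_le_mul_of_nonneg_right (Real.rpow_le_rpow_of_nonpos hτ h.le (by linarith))
        (Real.rpow_nonneg (h0 j) _)
    · rw [mul_zero]
      positivity
  · have e : v ⬝ᵥ v = ∑ i, (Oᵀ *ᵥ v) i ^ 2 := by
      rw [← dot_eq_sq, ← qf_one (Oᵀ *ᵥ v), ← qf_conj, transpose_transpose, mul_one, h2, qf_one]
    rw [← qf_one, ← qf_conj, mul_one, cut h1 h3, ← transpose_transpose O, transpose_transpose Oᵀ,
      qf_conj, qf_diagonal, e, Finset.mul_sum]
    refine Finset.sum_le_sum fun j _ => mul_le_mul_of_nonneg_right ?_ (sq_nonneg _)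
    split_ifs with h
    · rw [mul_zero]
      positivity
    · rw [one_mul, mul_one]
      exact pow_le_pow_left₀ (h0 j) (not_lt.1 h) 2

omit [DecidableEq D] in
lemma opLe_tr {S : Matrix D D ℝ} {τ : ℝ} (h : OpLe S τ) : OpLe Sᵀ τ := fun v => by
  rw [dot_eq_sq, dot_eq_sq]
  exact transpose_bound h (sq_nonneg τ) v

omit [DecidableEq D] in
lemma vr_eq (A : I → Matrix D D ℝ) (v : D → ℝ) : vr A v = ∑ a, ∑ i, (A i *ᵥ v) a ^ 2 := by
  simp only [vr, dot_eq_sq]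
  exact Finset.sum_comm

omit [DecidableEq D] in
lemma lc_vec (A : I → Matrix D D ℝ) (y : I → ℝ) (v : D → ℝ) (a : D) :
    (lc A y *ᵥ v) a = ∑ i, y i * (A i *ᵥ v) a := by
  simp [lc, sum_mulVec, smul_mulVec]

omit [Fintype D] [DecidableEq D] in
lemma lc_tr (A : I → Matrix D D ℝ) (y : I → ℝ) : (lc A y)ᵀ = lc (fun i => (A i)ᵀ) y := by
  simp [lc, transpose_sum]

variable {P : Matrix I I ℝ}

omit [DecidableEq D] in
lemma vr_le (hP : ∀ v, P *ᵥ v ⬝ᵥ P *ᵥ v ≤ 1 * (v ⬝ᵥ v)) (A : I → Matrix D D ℝ) (v : D → ℝ) :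
    vr (fun j => lc A fun i => P i j) v ≤ vr A v := by
  rw [vr_eq, vr_eq]
  refine Finset.sum_le_sum fun a _ => ?_
  simp only [lc_vec]
  exact (transpose_bound hP zero_le_one _).trans_eq (one_mul _)

omit [DecidableEq D] in
lemma vr_big {G : I → Matrix D D ℝ} {b : ℝ} (hb : 0 ≤ b)
    (hG : ∀ c, frob (lc G (P *ᵥ c)) ≤ b * (c ⬝ᵥ c)) (v : D → ℝ) :
    vr (fun j => lc G fun i => P i j) v ≤ Fintype.card D * (b * (v ⬝ᵥ v)) := by
  rw [vr_eq, ← nsmul_eq_mul, ← Finset.card_univ]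
  refine Finset.sum_le_card_nsmul _ _ _ fun a _ => ?_
  obtain ⟨c, hc⟩ : ∃ c : I → ℝ, c = fun j => ((lc G fun i => P i j) *ᵥ v) a := ⟨_, rfl⟩
  have e : c ⬝ᵥ c = lc G (P *ᵥ c) a ⬝ᵥ v := by
    refine Eq.trans ?_ ((lc_vec (fun j => lc G fun i => P i j) c v a).symm.trans
      (congrArg (fun M => (M *ᵥ v) a) (lc_mulVec G P c).symm))
    exact Finset.sum_congr rfl fun j _ => congrArg _ (congrFun hc j)
  have h1 := dot_sq_le (lc G (P *ᵥ c) a) v
  have h2 : lc G (P *ᵥ c) a ⬝ᵥ lc G (P *ᵥ c) a ≤ b * (c ⬝ᵥ c) := by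
    rw [dot_eq_sq]
    exact (Finset.single_le_sum (f := fun i => ∑ k, lc G (P *ᵥ c) i k ^ 2)
      (fun _ _ => Finset.sum_nonneg fun _ _ => sq_nonneg _) (Finset.mem_univ a)).trans (hG c)
  have h3 := le_of_sq_le_mul (dot_nonneg c) (mul_nonneg hb (dot_nonneg v)) (by
    rw [← e] at h1
    linarith [mul_le_mul_of_nonneg_right h2 (dot_nonneg v)])
  rwa [dot_eq_sq, hc] at h3

omit [DecidableEq D] in
lemma vr_sup {A G S : I → Matrix D D ℝ} {b τ : ℝ} (hb : 0 ≤ b) (hA : ∀ i, A i = G i + S i)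
    (hP : ∀ v, P *ᵥ v ⬝ᵥ P *ᵥ v ≤ 1 * (v ⬝ᵥ v)) (hG : ∀ c, frob (lc G (P *ᵥ c)) ≤ b * (c ⬝ᵥ c))
    (hS : ∀ i, OpLe (S i) τ) (v : D → ℝ) : vr (fun j => lc A fun i => P i j) v ≤
      2 * (Fintype.card D * b + Fintype.card I * τ ^ 2) * (v ⬝ᵥ v) := by
  have h1 := vr_big hb hG v
  have h2 := vr_le hP S v
  have h3 : vr S v ≤ Fintype.card I * (τ ^ 2 * (v ⬝ᵥ v)) := by
    rw [← nsmul_eq_mul, ← Finset.card_univ]
    exact Finset.sum_le_card_nsmul _ _ _ fun i _ => hS i v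
  have h4 : vr (fun j => lc A fun i => P i j) v ≤
      2 * vr (fun j => lc G fun i => P i j) v + 2 * vr (fun j => lc S fun i => P i j) v := by
    simp only [vr_eq, Finset.mul_sum, ← Finset.sum_add_distrib]
    refine Finset.sum_le_sum fun a _ => Finset.sum_le_sum fun j _ => ?_
    have : ((lc A fun i => P i j) *ᵥ v) a =
        ((lc G fun i => P i j) *ᵥ v) a + ((lc S fun i => P i j) *ᵥ v) a := by
      simp only [lc_vec, hA, add_mulVec, Pi.add_apply, mul_add, Finset.sum_add_distrib]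
    rw [this]
    nlinarith [sq_nonneg (((lc G fun i => P i j) *ᵥ v) a - ((lc S fun i => P i j) *ᵥ v) a)]
  linarith

omit [DecidableEq D] in
lemma interp (hLP : S_LP) {p q : ℝ≥0∞} (hp : 2 ≤ p) (hpq : p ≤ q) (hp' : p ≠ ∞) {f : D → ℝ}
    {T ρ : ℝ} (hT : 0 < T) (hρ : 0 < ρ) (h1 : lpn p f ≤ T) (h2 : ∀ a, |f a| ≤ T * ρ ^ p.toReal⁻¹) :
    lpn q f ≤ T * ρ ^ (p.toReal⁻¹ - q.toReal⁻¹) := by
  have p1 : 1 ≤ p := one_le_two.trans hp
  obtain ⟨-, -, -, -, -, -, a1, a2⟩ := hLP D q (p1.trans hpq) f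
  by_cases hq : q = ∞
  · refine a2 hq _ (by positivity) ?_
    simpa [hq] using h2
  have r0 : 0 < p.toReal := ENNReal.toReal_pos (zero_lt_one.trans_le p1).ne' hp'
  have rs : p.toReal ≤ q.toReal := ENNReal.toReal_mono hq hpq
  have s0 := r0.trans_le rs
  have h3 := ((hLP D p p1 f).2.2.2.2.2.2.1 hp' T hT.le).1 h1
  refine (a1 hq _ (by positivity)).2 ?_
  calc ∑ a, |f a| ^ q.toReal
      ≤ ∑ a, (T * ρ ^ p.toReal⁻¹) ^ (q.toReal - p.toReal) * |f a| ^ p.toReal :=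
        Finset.sum_le_sum fun a _ => by
          conv_lhs => rw [← sub_add_cancel q.toReal p.toReal,
            Real.rpow_add_of_nonneg (abs_nonneg _) (sub_nonneg.2 rs) r0.le]
          exact mul_le_mul_of_nonneg_right
            (Real.rpow_le_rpow (abs_nonneg _) (h2 a) (sub_nonneg.2 rs)) (by positivity)
    _ ≤ (T * ρ ^ p.toReal⁻¹) ^ (q.toReal - p.toReal) * T ^ p.toReal := by
        rw [← Finset.mul_sum]
        exact mul_le_mul_of_nonneg_left h3 (by positivity)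
    _ = _ := by
        rw [Real.mul_rpow hT.le (by positivity), Real.mul_rpow hT.le (by positivity),
          mul_right_comm, ← Real.rpow_add hT, sub_add_cancel, ← Real.rpow_mul hρ.le,
          ← Real.rpow_mul hρ.le]
        congr 2
        field_simp

end SPLITx

open SPLITx in
theorem p_SPLIT (hLP : S_LP) (hSV : S_SV) (hSCH : S_SCH) (hVAR : S_VAR) : S_SPLIT := by
  intro d I _ _ A p q hp hpq hA
  have p1 : 1 ≤ p := one_le_two.trans hp
  obtain ⟨n, hn⟩ : ∃ n : ℝ, n = Fintype.card I := ⟨_, rfl⟩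
  have n0 : 0 ≤ n := hn ▸ Nat.cast_nonneg _
  have hs : √(∑ i, schatten p (A i) ^ 2) ≤ √n := Real.sqrt_le_sqrt (by
    rw [hn, ← Finset.card_univ, ← nsmul_one]
    exact Finset.sum_le_card_nsmul _ _ _ fun i _ => pow_le_one₀ (hLP _ p p1 _).1 (hA i))
  have hV := hVAR d I A p hp
  rw [← hn]
  by_cases hc : n ≤ d ∨ p = ∞ ∨ d = 0
  · have key : ∀ f : Fin d → ℝ, lpn p f ≤ √(∑ i, schatten p (A i) ^ 2) →
        lpn q f ≤ 5 * √n * min 1 (d / n) ^ (p.toReal⁻¹ - q.toReal⁻¹) := fun f hf => by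
      have h1 := (((hLP _ p p1 f).2.2.2.2.2.1 q hpq).trans hf).trans hs
      have h2 := Real.sqrt_nonneg n
      rcases hc with h | rfl | rfl
      · rcases n0.eq_or_lt with rfl | h3
        · simpa using h1
        · rw [min_eq_left ((one_le_div h3).2 h), Real.one_rpow]
          linarith
      · rw [top_le_iff.1 hpq] at h1 ⊢
        rw [sub_self, Real.rpow_zero]
        linarith
      · rw [Subsingleton.elim f ((0 : ℝ) • f), (hLP _ q (p1.trans hpq) f).2.2.2.1, abs_zero,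
          zero_mul]
        positivity
    exact ⟨A, ⊤, cod_top.mono (by positivity), fun _ _ => rfl,
      fun O hO => ⟨key _ (hV O hO).1, key _ (hV O hO).2⟩⟩
  push Not at hc
  obtain ⟨c1, c2, c3⟩ := hc
  have d0 : (0 : ℝ) < d := Nat.cast_pos.2 (Nat.pos_of_ne_zero c3)
  have n1 := d0.trans c1
  have ρ0 : 0 < d / n := div_pos d0 n1
  have r2 : 2 ≤ p.toReal := by simpa using ENNReal.toReal_mono c2 hp
  rw [min_eq_right ((div_le_one n1).2 c1.le)]
  obtain ⟨τ, hτ⟩ : ∃ τ : ℝ, τ = (d / n) ^ p.toReal⁻¹ := ⟨_, rfl⟩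
  have τ0 : 0 < τ := hτ ▸ Real.rpow_pos_of_pos ρ0 _
  have τ1 : d * τ ^ (2 - p.toReal) = n * τ ^ 2 := by
    rw [Real.rpow_sub τ0, Real.rpow_two, show τ ^ p.toReal = d / n by
      rw [hτ, Real.rpow_inv_rpow ρ0.le (by linarith)]]
    field_simp
  have τ2 : 0 < τ ^ (2 - p.toReal) := Real.rpow_pos_of_pos τ0 _
  have hd : ∀ i, ∃ G S, A i = G + S ∧ frob G ≤ τ ^ (2 - p.toReal) ∧ OpLe S τ := fun i => by
    obtain ⟨a0, O, -, a1, a2, a3, -⟩ := hSV d (A i)
    exact decomp a0 a1 a2 a3 τ0 r2 ((((hLP _ p p1 _).2.2.2.2.2.2.1 c2 1 zero_le_one).1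
      (hA i)).trans_eq (Real.one_rpow _))
  choose G S h1 h2 h3 using hd
  have b0 : 0 < 8 * τ ^ (2 - p.toReal) := by positivity
  obtain ⟨W, w1, w2⟩ := markov (Φ := fun y => frob (lc G y)) (IsQ.frob
    ⟨⟨lc G, lc_add G⟩, lc_smul G⟩) (fun _ => frob_nonneg _) b0
  obtain ⟨P, q1, q2, q3⟩ := exists_proj W
  have hG : ∀ c, frob (lc G (P *ᵥ c)) ≤ 8 * τ ^ (2 - p.toReal) * (c ⬝ᵥ c) := fun c =>
    (w2 _ (q1 c)).trans (mul_le_mul_of_nonneg_left ((q3 c).trans_eq (one_mul _)) b0.le)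
  have key : ∀ (A : I → Matrix (Fin d) (Fin d) ℝ) (O : Matrix (Fin d) (Fin d) ℝ), Oᵀ * O = 1 →
      lpn p (fun e => √(vr A fun a => O a e)) ≤ √n →
      (∀ v, vr (fun j => lc A fun i => P i j) v ≤ 2 * (Fintype.card (Fin d) *
        (8 * τ ^ (2 - p.toReal)) + Fintype.card I * τ ^ 2) * (v ⬝ᵥ v)) →
      lpn q (fun e => √(vr (fun j => lc A fun i => P i j) fun a => O a e)) ≤
        5 * √n * (d / n) ^ (p.toReal⁻¹ - q.toReal⁻¹) := fun A O hO a1 a2 => by
    have s0 := Real.sqrt_pos.2 n1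
    refine interp hLP hp hpq c2 (by positivity) ρ0
      (((hLP _ p p1 _).2.2.2.2.1 _ fun e => ?_).trans (a1.trans (by linarith))) fun e => ?_
    · rw [abs_of_nonneg (Real.sqrt_nonneg _), abs_of_nonneg (Real.sqrt_nonneg _)]
      exact Real.sqrt_le_sqrt (vr_le q3 A _)
    · have a3 := a2 fun a => O a e
      have a4 : (fun a => O a e) ⬝ᵥ (fun a => O a e) = 1 :=
        (congrFun (congrFun hO e) e).trans (one_apply_eq e)
      rw [a4, Fintype.card_fin, ← hn] at a3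
      rw [abs_of_nonneg (Real.sqrt_nonneg _), ← hτ, Real.sqrt_le_left (by positivity), mul_pow,
        mul_pow, Real.sq_sqrt n0]
      nlinarith [mul_pos n1 (pow_pos τ0 2)]
  refine ⟨fun j => lc A fun i => P i j, W, w1.mono ?_, fun y hy => ?_, fun O hO => ⟨?_, ?_⟩⟩
  · rw [div_le_iff₀ b0, show n / 8 * (8 * τ ^ (2 - p.toReal)) = n * τ ^ (2 - p.toReal) by ring, hn,
      ← nsmul_eq_mul, ← Finset.card_univ]
    refine Finset.sum_le_card_nsmul _ _ _ fun i _ => le_of_eq_of_le ?_ (h2 i)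
    simp [lc, Pi.single_apply]
  · exact (lc_mulVec A P y).symm.trans (congrArg _ (q2 y hy))
  · exact key A O hO ((hV O hO).1.trans hs) (vr_sup b0.le h1 q3 hG h3)
  · simp only [lc_tr]
    exact key _ O hO ((hV O hO).2.trans hs) (vr_sup (G := fun i => (G i)ᵀ) b0.le
      (fun i => by rw [h1, transpose_add]) q3 (fun c => by rw [← lc_tr, frob_transpose]; exact hG c)
      fun i => opLe_tr (h3 i))

end Pool.Agent.P.MP_1157dd_an.N
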