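import Mathlib

/-! Norms of a real square matrix. -/

namespace Pool.Agent.P.MP_1157dd_an.N

open scoped ENNReal

/-- the Schatten `p`-norm: the `l_p` norm of the vector of the `d` singular values -/
noncomputable def schatten (p : ℝ≥0∞) {d : ℕ} (X : Matrix (Fin d) (Fin d) ℝ) : ℝ :=
  ‖(WithLp.toLp p fun j : Fin d => (Matrix.toEuclideanLin X).singularValues j :
    PiLp p fun _ : Fin d => ℝ)‖

/-- the operator norm on Euclidean space -/
noncomputable def opNorm {d : ℕ} (X : Matrix (Fin d) (Fin d) ℝ) : ℝ :=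
  ‖Matrix.toEuclideanCLM (𝕜 := ℝ) X‖

/-- the squared Frobenius norm: the sum of the squares of the entries -/
def frobSq {d : ℕ} (X : Matrix (Fin d) (Fin d) ℝ) : ℝ := ∑ a, ∑ b, X a b ^ 2

end Pool.Agent.P.MP_1157dd_an.N
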