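import Pool.Agent.P.MP_1157dd_an.Full
import Pool.Agent.P.MP_1157dd_an.N.Defs

/-! Codimension counting and the Markov inequality for quadratic forms. -/

namespace Pool.Agent.P.MP_1157dd_an.N

open Matrix Module

variable {β γ : Type} [Fintype β] [Fintype γ]

/-- the subspace has codimension at most `a` -/
def Cod (N : Submodule ℝ (β → ℝ)) (a : ℝ) : Prop := (Fintype.card β : ℝ) ≤ finrank ℝ N + a

lemma Cod.mono {N : Submodule ℝ (β → ℝ)} {a b : ℝ} (h : Cod N a) (hab : a ≤ b) : Cod N b :=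
  le_trans h (by linarith)

lemma cod_top : Cod (⊤ : Submodule ℝ (β → ℝ)) 0 := by
  simp [Cod]

lemma Cod.inf {N M : Submodule ℝ (β → ℝ)} {a b : ℝ} (h : Cod N a) (h' : Cod M b) :
    Cod (N ⊓ M) (a + b) := by
  have a1 := Submodule.finrank_sup_add_finrank_inf_eq N M
  have a2 := Submodule.finrank_le (N ⊔ M)
  rw [finrank_fintype_fun_eq_card] at a2
  have a3 : (finrank ℝ N : ℝ) + finrank ℝ M ≤ Fintype.card β + finrank ℝ ↥(N ⊓ M) := by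
    exact_mod_cast (by omega : finrank ℝ N + finrank ℝ M ≤ Fintype.card β + finrank ℝ ↥(N ⊓ M))
  unfold Cod at *
  linarith

lemma cod_ker (L : (β → ℝ) →ₗ[ℝ] (γ → ℝ)) : Cod (LinearMap.ker L) (Fintype.card γ) := by
  have a3 := L.finrank_range_add_finrank_ker
  have a4 := Submodule.finrank_le (LinearMap.range L)
  rw [finrank_fintype_fun_eq_card] at a3 a4
  unfold Cod
  exact_mod_cast (by omega : Fintype.card β ≤ finrank ℝ (LinearMap.ker L) + Fintype.card γ)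

lemma Cod.comap {N : Submodule ℝ (β → ℝ)} {a : ℝ} (h : Cod N a) (L : (γ → ℝ) →ₗ[ℝ] (β → ℝ)) :
    Cod (N.comap L) a := by
  have a1 := (N.mkQ ∘ₗ L).finrank_range_add_finrank_ker
  have a2 := Submodule.finrank_le (LinearMap.range (N.mkQ ∘ₗ L))
  have a3 := N.finrank_quotient_add_finrank
  rw [LinearMap.ker_comp, Submodule.ker_mkQ] at a1
  rw [finrank_fintype_fun_eq_card] at a1 a3
  have a4 : (Fintype.card γ : ℝ) + finrank ℝ N ≤ finrank ℝ (N.comap L) + Fintype.card β := by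
    exact_mod_cast (by omega :
      Fintype.card γ + finrank ℝ N ≤ finrank ℝ (N.comap L) + Fintype.card β)
  unfold Cod at *
  linarith

lemma Cod.map {N : Submodule ℝ (β → ℝ)} {a : ℝ} (h : Cod N a) {L : (β → ℝ) →ₗ[ℝ] (β → ℝ)}
    (hL : Function.Injective L) : Cod (N.map L) a := by
  unfold Cod at *
  rwa [← (Submodule.equivMapOfInjective L hL N).finrank_eq]

lemma Cod.exists_ne {N : Submodule ℝ (β → ℝ)} {a : ℝ} (h : Cod N a) (ha : a < Fintype.card β) :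
    ∃ y ∈ N, y ≠ 0 := by
  refine (Submodule.ne_bot_iff N).1 fun h0 => ?_
  rw [Cod, h0, finrank_bot] at h
  simp only [Nat.cast_zero, zero_add] at h
  linarith

/-- vectors supported in `S` -/
lemma cod_supp [DecidableEq β] (S : Finset β) : ∃ N : Submodule ℝ (β → ℝ),
    Cod N (Fintype.card β - S.card) ∧ ∀ y ∈ N, ∀ i, i ∉ S → y i = 0 := by
  refine ⟨LinearMap.ker (LinearMap.funLeft ℝ ℝ (Subtype.val : {i // i ∉ S} → β)),
    (cod_ker _).mono (le_of_eq ?_), fun y hy i hi => congrFun (LinearMap.mem_ker.1 hy) ⟨i, hi⟩⟩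
  rw [Fintype.card_subtype_compl, Nat.cast_sub (Fintype.card_subtype_le _)]
  simp

/-- a quadratic form -/
def IsQ (Φ : (β → ℝ) → ℝ) : Prop := ∃ M : Matrix β β ℝ, Mᵀ = M ∧ ∀ y, Φ y = qf M y

lemma IsQ.add {Φ Ψ : (β → ℝ) → ℝ} (h : IsQ Φ) (h' : IsQ Ψ) : IsQ fun y => Φ y + Ψ y := by
  obtain ⟨M, h1, h2⟩ := h
  obtain ⟨N, h3, h4⟩ := h'
  exact ⟨M + N, by rw [transpose_add, h1, h3], fun y => by simp only [qf_add, h2, h4]⟩

lemma IsQ.mul {Φ : (β → ℝ) → ℝ} (h : IsQ Φ) (a : ℝ) : IsQ fun y => a * Φ y := by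
  obtain ⟨M, h1, h2⟩ := h
  exact ⟨a • M, by rw [transpose_smul, h1], fun y => by simp only [qf_smul, h2]⟩

lemma IsQ.sum {K : Type} [Fintype K] {Φ : K → (β → ℝ) → ℝ} (h : ∀ k, IsQ (Φ k)) :
    IsQ fun y => ∑ k, Φ k y := by
  choose M h1 h2 using h
  exact ⟨∑ k, M k, by simp [transpose_sum, h1], fun y => by simp [qf_sum, h2]⟩

lemma IsQ.sq (l : (β → ℝ) →ₗ[ℝ] ℝ) : IsQ fun y => l y ^ 2 := by
  classical
  refine ⟨vecMulVec (fun j => l (Pi.single j 1)) (fun j => l (Pi.single j 1)),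
    transpose_vecMulVec _ _, fun y => ?_⟩
  have : l y = ∑ j, y j * l (Pi.single j 1) := by
    conv_lhs => rw [pi_eq_sum_univ' y]
    simp [map_sum]
  beta_reduce
  rw [this, qf_eq, _root_.sq, Finset.sum_mul_sum]
  exact Finset.sum_congr rfl fun i _ => Finset.sum_congr rfl fun j _ => by
    rw [vecMulVec_apply]; ring

lemma IsQ.frob {a b : Type} [Fintype a] [Fintype b] (F : (β → ℝ) →ₗ[ℝ] Matrix a b ℝ) :
    IsQ fun y => frob (F y) :=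
  IsQ.sum fun i => IsQ.sum fun k => IsQ.sq ((Matrix.entryLinearMap ℝ ℝ i k).comp F)

lemma IsQ.dot (F : (β → ℝ) →ₗ[ℝ] (γ → ℝ)) : IsQ fun y => F y ⬝ᵥ F y := by
  simp only [dot_eq_sq]
  exact IsQ.sum fun i => IsQ.sq ((LinearMap.proj i).comp F)

lemma IsQ.comp {Φ : (β → ℝ) → ℝ} (h : IsQ Φ) (Y : Matrix β β ℝ) : IsQ fun y => Φ (Y *ᵥ y) := by
  obtain ⟨M, h1, h2⟩ := h
  exact ⟨Yᵀ * M * Y, by simp only [transpose_mul, transpose_transpose, h1, mul_assoc],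
    fun y => by simp only [qf_conj, h2]⟩

lemma markov [DecidableEq β] {Φ : (β → ℝ) → ℝ} (h : IsQ Φ) (h0 : ∀ y, 0 ≤ Φ y) {b : ℝ}
    (hb : 0 < b) : ∃ N : Submodule ℝ (β → ℝ), Cod N ((∑ j, Φ (Pi.single j 1)) / b) ∧
      ∀ y ∈ N, Φ y ≤ b * (y ⬝ᵥ y) := by
  obtain ⟨M, h1, h2⟩ := h
  obtain ⟨O, ζ, a1, a2, a3⟩ := spec h1
  have hq : ∀ y, Φ y = ∑ i, ζ i * (Oᵀ *ᵥ y) i ^ 2 := fun y => by
    rw [h2, a3, ← qf_diagonal, ← qf_conj, transpose_transpose]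
  have hζ : ∀ i, 0 ≤ ζ i := fun i => by
    have := h0 (O *ᵥ Pi.single i 1)
    rw [h2, ← qf_conj, a3, ← mul_assoc, ← mul_assoc, a1, one_mul, mul_assoc, a1, mul_one,
      qf_single, diagonal_apply_eq] at this
    exact this
  have ht : ∑ j, Φ (Pi.single j 1) = ∑ i, ζ i := by
    simp only [h2, qf_single]
    change M.trace = _
    rw [a3, trace_mul_comm, ← mul_assoc, a1, one_mul, trace_diagonal]
  obtain ⟨N, hN, hN2⟩ := cod_supp (Finset.univ.filter fun i => ζ i ≤ b)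
  refine ⟨N.comap Oᵀ.mulVecLin, (hN.comap _).mono ?_, fun y hy => ?_⟩
  · rw [ht, le_div_iff₀ hb]
    have := Finset.card_filter_add_card_filter_not (s := Finset.univ) fun i => ζ i ≤ b
    rw [Finset.card_univ] at this
    rw [← this, Nat.cast_add, add_sub_cancel_left]
    calc _ = ∑ _i ∈ Finset.univ.filter fun i => ¬ ζ i ≤ b, b := by simp
      _ ≤ ∑ i ∈ Finset.univ.filter fun i => ¬ ζ i ≤ b, ζ i :=
          Finset.sum_le_sum fun i hi => (not_le.1 (Finset.mem_filter.1 hi).2).le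
      _ ≤ _ := Finset.sum_le_sum_of_subset_of_nonneg (Finset.subset_univ _) fun i _ _ => hζ i
  · have e : y ⬝ᵥ y = ∑ i, (Oᵀ *ᵥ y) i ^ 2 := by
      rw [← dot_eq_sq, ← qf_one (Oᵀ *ᵥ y), ← qf_conj, transpose_transpose, mul_one, a2, qf_one]
    rw [hq, e, Finset.mul_sum]
    refine Finset.sum_le_sum fun i _ => ?_
    by_cases hi : ζ i ≤ b
    · exact mul_le_mul_of_nonneg_right hi (sq_nonneg _)
    · have : (Oᵀ *ᵥ y) i = 0 := hN2 _ hy i (by simpa using hi)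
      simp [this]

/-- weighted form, for vectors supported in `S` -/
lemma markov' [DecidableEq β] {Φ : (β → ℝ) → ℝ} (h : IsQ Φ) (h0 : ∀ y, 0 ≤ Φ y) {b : ℝ}
    (hb : 0 < b) (S : Finset β) {a : β → ℝ} (ha : ∀ j, 0 < a j) :
    ∃ N : Submodule ℝ (β → ℝ), Cod N ((∑ j ∈ S, Φ (Pi.single j 1) / a j) / b) ∧
      ∀ y ∈ N, (∀ j, j ∉ S → y j = 0) → Φ y ≤ b * ∑ j, a j * y j ^ 2 := by
  obtain ⟨N, hN, hN2⟩ := markov (h.comp (diagonal fun j => if j ∈ S then (√(a j))⁻¹ else 0))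
    (fun _ => h0 _) hb
  refine ⟨N.comap (diagonal fun j => √(a j)).mulVecLin, (hN.comap _).mono (le_of_eq ?_),
    fun y hy hS => ?_⟩
  · congr 1
    rw [← Finset.sum_subset (Finset.subset_univ S)]
    · refine Finset.sum_congr rfl fun j hj => ?_
      obtain ⟨M, -, h2⟩ := h
      rw [h2, h2, ← qf_conj, qf_single, qf_single, diagonal_transpose, mul_diagonal, diagonal_mul,
        if_pos hj]
      rw [mul_right_comm, ← mul_inv, Real.mul_self_sqrt (ha j).le, div_eq_inv_mul]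
    · intro j _ hj
      obtain ⟨M, -, h2⟩ := h
      rw [h2, ← qf_conj, qf_single, mul_diagonal, if_neg hj, mul_zero]
  · have := hN2 _ hy
    have e : (diagonal fun j => if j ∈ S then (√(a j))⁻¹ else 0) *ᵥ
        (diagonal fun j => √(a j)).mulVecLin y = y := by
      funext j
      rw [mulVecLin_apply, mulVec_diagonal, mulVec_diagonal]
      split_ifs with hj
      · rw [← mul_assoc, inv_mul_cancel₀ (Real.sqrt_pos.2 (ha j)).ne', one_mul]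
      · rw [hS j hj, zero_mul]
    rw [e, dot_eq_sq] at this
    refine this.trans (le_of_eq ?_)
    congr 1
    refine Finset.sum_congr rfl fun j _ => ?_
    rw [mulVecLin_apply, mulVec_diagonal, mul_pow, Real.sq_sqrt (ha j).le]

end Pool.Agent.P.MP_1157dd_an.N

/-! Working definitions and statements of the steps. -/

namespace Pool.Agent.P.MP_1157dd_an.N

open Matrix
open scoped ENNReal

section defs

variable {D I : Type} [Fintype D] [Fintype I]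

/-- `l_p` norm of a vector -/
noncomputable def lpn (p : ℝ≥0∞) {α : Type} [Fintype α] (f : α → ℝ) : ℝ :=
  ‖(WithLp.toLp p f : PiLp p fun _ : α => ℝ)‖

/-- singular values -/
noncomputable def sv {d : ℕ} (X : Matrix (Fin d) (Fin d) ℝ) (j : Fin d) : ℝ :=
  (Matrix.toEuclideanLin X).singularValues j

lemma schatten_eq (p : ℝ≥0∞) {d : ℕ} (X : Matrix (Fin d) (Fin d) ℝ) :
    schatten p X = lpn p (sv X) := rfl

/-- operator norm at most `s` -/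
def OpLe (M : Matrix D D ℝ) (s : ℝ) : Prop := ∀ v, M *ᵥ v ⬝ᵥ M *ᵥ v ≤ s ^ 2 * (v ⬝ᵥ v)

/-- the variance form -/
def vr (A : I → Matrix D D ℝ) (v : D → ℝ) : ℝ := ∑ i, A i *ᵥ v ⬝ᵥ A i *ᵥ v

/-- both variance matrices have operator norm at most `s ^ 2` -/
def Var (A : I → Matrix D D ℝ) (s : ℝ) : Prop :=
  ∀ v, vr A v ≤ s ^ 2 * (v ⬝ᵥ v) ∧ vr (fun i => (A i)ᵀ) v ≤ s ^ 2 * (v ⬝ᵥ v)

/-- the square roots of both variance matrices have Schatten norm at most `T` -/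
def SVar [DecidableEq D] (q : ℝ≥0∞) (A : I → Matrix D D ℝ) (T : ℝ) : Prop :=
  ∀ O : Matrix D D ℝ, Oᵀ * O = 1 → lpn q (fun e => √(vr A fun a => O a e)) ≤ T ∧
    lpn q (fun e => √(vr (fun i => (A i)ᵀ) fun a => O a e)) ≤ T

/-- a system with Bessel bound one whose vectors have length at most one -/
def Bessel {α : Type} [Fintype α] (u : α → D → ℝ) : Prop :=
  (∀ a, ∑ j, (u j ⬝ᵥ a) ^ 2 ≤ a ⬝ᵥ a) ∧ ∀ j, u j ⬝ᵥ u j ≤ 1

def Cube (x : I → ℝ) : Prop := ∀ i, |x i| ≤ 1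

def Sign (ε : I → ℝ) : Prop := ∀ i, ε i = 1 ∨ ε i = -1

/-- the coordinates strictly inside the cube -/
noncomputable def free (x : I → ℝ) : Finset I := Finset.univ.filter fun i => |x i| < 1

/-- the sign vector of a Boolean vector -/
def sg (s : I → Bool) (i : I) : ℝ := if s i then 1 else -1

/-- coordinate projection in the orthonormal basis `O` -/
def prj [DecidableEq D] (O : Matrix D D ℝ) (S : Finset D) : Matrix D D ℝ :=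
  O * diagonal (fun e => if e ∈ S then 1 else 0) * Oᵀ

lemma mem_free {x : I → ℝ} {i : I} : i ∈ free x ↔ |x i| < 1 := by simp [free]

omit [Fintype I] in
lemma sign_sg (s : I → Bool) : Sign (sg s) := fun i => by
  unfold sg; split_ifs <;> simp

/-- extension of a vector on the free coordinates -/
lemma exists_ext [DecidableEq I] {x₀ : I → ℝ} (h : Cube x₀) (x : {i // i ∈ free x₀} → ℝ)
    (hx : Cube x) : ∃ z : I → ℝ, Cube z ∧ (∀ i, i ∉ free x₀ → z i = x₀ i) ∧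
      (free z).card = (free x).card ∧ (∀ i : {i // i ∈ free x₀}, z i = x i) ∧
      ∀ {E : Type} [AddCommGroup E] [Module ℝ E] (Y : I → E),
        ∑ i, (z - x₀) i • Y i = ∑ i : {i // i ∈ free x₀}, (x i - x₀ i) • Y i := by
  refine ⟨fun i => if hi : i ∈ free x₀ then x ⟨i, hi⟩ else x₀ i, fun i => ?_,
    fun i hi => by simp [hi], ?_, fun i => by simp [i.2], fun Y => ?_⟩
  · by_cases hi : i ∈ free x₀
    · simpa [hi] using hx ⟨i, hi⟩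
    · simpa [hi] using h i
  · symm
    refine Finset.card_bij (fun i _ => i.1) (fun i hi => ?_) (fun i _ j _ e => Subtype.ext e)
      fun i hi => ?_
    · rw [mem_free] at hi ⊢
      simpa [i.2] using hi
    · rw [mem_free] at hi
      by_cases hi' : i ∈ free x₀
      · exact ⟨⟨i, hi'⟩, by rw [mem_free]; simpa [hi'] using hi, rfl⟩
      · exact absurd (mem_free.2 (by simpa [hi'] using hi)) hi'
  · rw [← Finset.sum_subset (Finset.subset_univ (free x₀)) (fun i _ hi => by simp [hi]),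
      ← Finset.sum_coe_sort (free x₀)]
    exact Finset.sum_congr rfl fun i _ => by simp [i.2]

end defs

-- deps:
def S_LP : Prop :=
  ∀ (α : Type) [Fintype α] (p : ℝ≥0∞), 1 ≤ p → ∀ f : α → ℝ,
    0 ≤ lpn p f ∧ (∀ a, |f a| ≤ lpn p f) ∧
    (∀ g : α → ℝ, lpn p (f + g) ≤ lpn p f + lpn p g) ∧
    (∀ c : ℝ, lpn p (c • f) = |c| * lpn p f) ∧
    (∀ g : α → ℝ, (∀ a, |f a| ≤ |g a|) → lpn p f ≤ lpn p g) ∧
    (∀ q : ℝ≥0∞, p ≤ q → lpn q f ≤ lpn p f) ∧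
    (p ≠ ∞ → ∀ T : ℝ, 0 ≤ T → (lpn p f ≤ T ↔ ∑ a, |f a| ^ p.toReal ≤ T ^ p.toReal)) ∧
    (p = ∞ → ∀ T : ℝ, 0 ≤ T → (∀ a, |f a| ≤ T) → lpn p f ≤ T)

-- deps: LP
def S_JEN : Prop :=
  ∀ (α β : Type) [Fintype α] [Fintype β] (p : ℝ≥0∞) (f : α → ℝ),
    (∀ (w : α → β → ℝ) (g : β → ℝ), (∀ a b, 0 ≤ w a b) → (∀ a, ∑ b, w a b ≤ 1) →
      (∀ b, ∑ a, w a b ≤ 1) →
      (1 ≤ p → (∀ a, |f a| ≤ ∑ b, w a b * |g b|) → lpn p f ≤ lpn p g) ∧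
      (2 ≤ p → (∀ a, f a ^ 2 ≤ ∑ b, w a b * g b ^ 2) → lpn p f ≤ lpn p g)) ∧
    ∀ g : β → α → ℝ, 2 ≤ p → (∀ a, f a ^ 2 ≤ ∑ b, g b a ^ 2) →
      lpn p f ≤ √(∑ b, lpn p (g b) ^ 2)

-- deps:
def S_SV : Prop :=
  ∀ (d : ℕ) (X : Matrix (Fin d) (Fin d) ℝ), (∀ j, 0 ≤ sv X j) ∧
    ∃ (O : Matrix (Fin d) (Fin d) ℝ) (u : Fin d → Fin d → ℝ), Oᵀ * O = 1 ∧ O * Oᵀ = 1 ∧
      Xᵀ * X = O * diagonal (fun j => sv X j ^ 2) * Oᵀ ∧ Bessel u ∧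
      (∀ j, X *ᵥ (fun a => O a j) = sv X j • u j) ∧ ∀ j, sv X j * (u j ⬝ᵥ u j) = sv X j

-- deps: LP JEN SV
def S_SCH : Prop :=
  ∀ (d : ℕ) (p : ℝ≥0∞), 1 ≤ p → ∀ X : Matrix (Fin d) (Fin d) ℝ,
    (∀ u v : Fin d → Fin d → ℝ, Bessel u → Bessel v →
      lpn p (fun j => u j ⬝ᵥ X *ᵥ v j) ≤ schatten p X) ∧
    (∀ Y, schatten p (X + Y) ≤ schatten p X + schatten p Y) ∧
    (∀ c : ℝ, schatten p (c • X) = |c| * schatten p X) ∧ schatten p Xᵀ = schatten p X ∧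
    OpLe X (schatten p X) ∧ (p = ∞ → ∀ s, 0 ≤ s → OpLe X s → schatten p X ≤ s)

-- deps: LP JEN SV SCH
def S_VAR : Prop :=
  ∀ (d : ℕ) (I : Type) [Fintype I] (A : I → Matrix (Fin d) (Fin d) ℝ) (p : ℝ≥0∞), 2 ≤ p →
    SVar p A √(∑ i, schatten p (A i) ^ 2)

-- deps: SV
def S_CNT : Prop :=
  ∀ (d : ℕ) (X O₁ O₂ : Matrix (Fin d) (Fin d) ℝ) (S₁ S₂ : Finset (Fin d)) (t : ℝ), 0 ≤ t →
    O₁ᵀ * O₁ = 1 → O₂ᵀ * O₂ = 1 → OpLe (prj O₁ S₁ * X * prj O₂ S₂) t →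
    (Finset.univ.filter fun j => t < sv X j).card ≤ S₁ᶜ.card + S₂ᶜ.card

-- deps: LP
def S_LAY : Prop :=
  ∀ (d : ℕ) (q : ℝ≥0∞) (f g h : Fin d → ℝ) (a T : ℝ) (S : ℕ), 1 ≤ q → 0 < a → 0 < T →
    d ≤ 2 ^ S → (∀ j, 0 ≤ f j) → (∀ j, 0 ≤ g j) → (∀ j, 0 ≤ h j) → lpn q g ≤ T → lpn q h ≤ T →
    (∀ s ≤ S, (Finset.univ.filter fun j => a * (T / 2 ^ s) < f j).card ≤
      (Finset.univ.filter fun j => T / 2 ^ s < g j).card +
        (Finset.univ.filter fun j => T / 2 ^ s < h j).card) →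
    lpn q f ≤ 10 * a * T

/-- the entropy lemma for the operator norm -/
def S_ENT : Prop :=
  ∀ (D I K : Type) [Fintype D] [DecidableEq D] [Fintype I] [DecidableEq I] [Fintype K]
    (A : K → I → Matrix D D ℝ) (σ : K → ℝ) (p : K → ℕ) (W : Submodule ℝ (I → ℝ)) (x₀ : I → ℝ),
    (∀ k, 0 < σ k) → (∀ k, 1 ≤ p k) → (∀ k, Var (A k) (σ k)) →
    ∑ k, (∑ i, frob (A k i)) / σ k ^ 2 / 2 ^ p k ≤ (Fintype.card I : ℝ) →
    Cod W ((Fintype.card I : ℝ) / 8) → Cube x₀ →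
    ∃ x, Cube x ∧ x - x₀ ∈ W ∧ 2 * (free x).card ≤ Fintype.card I ∧
      ∀ k, OpLe (lc (A k) (x - x₀)) (2 ^ 18 * σ k * √(p k))

/-- colouring all but `t` coordinates in one step -/
def S_DEEP : Prop :=
  ∀ (D I : Type) [Fintype D] [DecidableEq D] [Fintype I] [DecidableEq I]
    (A : I → Matrix D D ℝ) (σ t : ℝ) (p : ℕ) (x₀ : I → ℝ), 0 < σ → 0 < t → 1 ≤ p →
    (∀ i, OpLe (A i) 1) → Var A σ → 256 * p ≤ σ ^ 2 → (∑ i, frob (A i)) / σ ^ 2 / 2 ^ p ≤ t →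
    Cube x₀ → ∃ x, Cube x ∧ ((free x).card : ℝ) ≤ t ∧ OpLe (lc A (x - x₀)) (2 ^ 18 * σ * √p)

-- deps: LP SV CNT LAY ENT
def S_ENTS : Prop :=
  ∀ (d : ℕ) (I K : Type) [Fintype I] [DecidableEq I] [Fintype K]
    (A : K → I → Matrix (Fin d) (Fin d) ℝ) (q : ℝ≥0∞) (T : K → ℝ) (p : K → ℕ)
    (W : Submodule ℝ (I → ℝ)) (x₀ : I → ℝ), 1 ≤ q →
    (∀ k, 0 < T k) → (∀ k, 1 ≤ p k) → (∀ k, SVar q (A k) (T k)) →
    ∑ k, (2 * d : ℝ) / 2 ^ p k ≤ (Fintype.card I : ℝ) → Cod W ((Fintype.card I : ℝ) / 8) → Cube x₀ →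
    ∃ x, Cube x ∧ x - x₀ ∈ W ∧ 2 * (free x).card ≤ Fintype.card I ∧
      ∀ k, schatten q (lc (A k) (x - x₀)) ≤ 2 ^ 22 * T k * √(p k)

-- deps:
def S_NCK : Prop :=
  ∀ (D I : Type) [Fintype D] [DecidableEq D] [Fintype I] [DecidableEq I]
    (B : I → Matrix D D ℝ) (q T : ℝ) (O : (I → Bool) → Matrix D D ℝ) (l : (I → Bool) → D → ℝ),
    2 ≤ q → (∀ i, (B i)ᵀ = B i) →
    (∀ U : Matrix D D ℝ, Uᵀ * U = 1 → ∑ e, (vr B fun a => U a e) ^ (q / 2) ≤ T) →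
    (∀ s, (O s)ᵀ * O s = 1 ∧ O s * (O s)ᵀ = 1 ∧ lc B (sg s) = O s * diagonal (l s) * (O s)ᵀ) →
    ∑ s, ∑ e, |l s e| ^ q ≤ 2 ^ Fintype.card I * ((2 * q) ^ (q / 2) * T)

-- deps: LP JEN SV NCK
def S_NCKS : Prop :=
  ∀ (d : ℕ) (I : Type) [Fintype I] [DecidableEq I] (A : I → Matrix (Fin d) (Fin d) ℝ)
    (q : ℝ≥0∞) (T : ℝ), 2 ≤ q → q ≠ ∞ → 0 ≤ T → SVar q A T →
    4 * (Finset.univ.filter fun s : I → Bool =>
      8 * √q.toReal * T < schatten q (lc A (sg s))).card ≤ 2 ^ Fintype.card I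

-- deps:
def S_LEVY : Prop :=
  ∀ (E : Type) [AddCommGroup E] [Module ℝ E] (ν : E → ℝ) (n : ℕ) (Y : Fin n → E) (a : ℝ),
    (∀ X Z, 2 * ν X ≤ ν (X + Z) + ν (X - Z)) →
    (Finset.univ.filter fun s : Fin n → Bool =>
      ∃ t ≤ n, a < ν (∑ i ∈ Finset.univ.filter fun i : Fin n => (i : ℕ) < t, sg s i • Y i)).card ≤
    2 * (Finset.univ.filter fun s : Fin n → Bool => a < ν (∑ i, sg s i • Y i)).card

-- deps:
def S_CHAIN : Prop :=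
  ∀ (E I : Type) [AddCommGroup E] [Fintype I] (ν : E → ℝ) (r : I → ℕ) (Y : I → E) (L : ℕ)
    (a P : ℝ), (∀ X Z, ν (X + Z) ≤ ν X + ν Z) → ν 0 ≤ 0 → 0 ≤ a → 4 ≤ P →
    (∀ l ≤ L, ∀ c < 2 ^ (L + 1 - l), ν (∑ i ∈ Finset.univ.filter fun i => r i / 2 ^ l = c, Y i) ≤
      a * √(2 ^ l) * √(P + 2 * (L - l : ℕ))) →
    ∀ m < 2 ^ (L + 1), ν (∑ i ∈ Finset.univ.filter fun i => r i < m, Y i) ≤
      8 * a * √(P * 2 ^ L)

-- deps:
def S_ROUNDS : Prop :=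
  ∀ (I : Type) [Fintype I] (ν : (I → ℝ) → ℝ) (a P N : ℝ), (∀ y z, ν (y + z) ≤ ν y + ν z) →
    ν 0 ≤ 0 → 0 ≤ a → 4 ≤ P → 0 ≤ N →
    (∀ (j : ℕ) (x₀ : I → ℝ), Cube x₀ → N / 2 ^ (j + 1) < (free x₀).card →
      (free x₀).card ≤ N / 2 ^ j → ∃ x : I → ℝ, Cube x ∧
        2 * (free x).card ≤ (free x₀).card ∧ ν (x - x₀) ≤ a * √((P + 2 * j) * (N / 2 ^ j))) →
    ∀ x₀ : I → ℝ, Cube x₀ → (free x₀).card ≤ N → ∃ ε : I → ℝ, Sign ε ∧ ν (ε - x₀) ≤ 8 * a * √(P * N)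

-- deps: LP SV SCH VAR
def S_SPLIT : Prop :=
  ∀ (d : ℕ) (I : Type) [Fintype I] [DecidableEq I] (A : I → Matrix (Fin d) (Fin d) ℝ)
    (p q : ℝ≥0∞), 2 ≤ p → p ≤ q → (∀ i, schatten p (A i) ≤ 1) →
    ∃ (B : I → Matrix (Fin d) (Fin d) ℝ) (W : Submodule ℝ (I → ℝ)),
      Cod W ((Fintype.card I : ℝ) / 8) ∧ (∀ y ∈ W, lc B y = lc A y) ∧
      SVar q B (5 * √(Fintype.card I) *
        (min 1 ((d : ℝ) / Fintype.card I)) ^ (p.toReal⁻¹ - q.toReal⁻¹))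

-- deps: LP SCH ENT DEEP NCKS ROUNDS
def S_FA : Prop :=
  ∃ C : ℝ, ∀ (d n : ℕ) (A : Fin n → Matrix (Fin d) (Fin d) ℝ) (σ : ℝ), 0 < σ →
    (∀ i, ‖Matrix.toEuclideanCLM (𝕜 := ℝ) (A i)‖ ≤ 1) →
    ‖Matrix.toEuclideanCLM (𝕜 := ℝ) (∑ i, A i * (A i)ᵀ)‖ ≤ σ ^ 2 →
    ‖Matrix.toEuclideanCLM (𝕜 := ℝ) (∑ i, (A i)ᵀ * A i)‖ ≤ σ ^ 2 →
    ∃ ε : Fin n → ℝ, (∀ i, ε i = 1 ∨ ε i = -1) ∧
      ‖Matrix.toEuclideanCLM (𝕜 := ℝ) (∑ i, ε i • A i)‖ ≤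
        C * σ * max 1 √(Real.log ((∑ i, ∑ a, ∑ b, A i a b ^ 2) / σ ^ 4))

-- deps: ENT
def S_FB : Prop :=
  ∃ C : ℝ, ∀ (d n m : ℕ) (A : Fin m → Fin n → Matrix (Fin d) (Fin d) ℝ) (σ l : Fin m → ℝ)
    (W : Submodule ℝ (Fin n → ℝ)) (x₀ : Fin n → ℝ), (∀ k, 0 < σ k) → (∀ k, 1 ≤ l k) →
    (∀ k, ‖Matrix.toEuclideanCLM (𝕜 := ℝ) (∑ i, A k i * (A k i)ᵀ)‖ ≤ σ k ^ 2) →
    (∀ k, ‖Matrix.toEuclideanCLM (𝕜 := ℝ) (∑ i, (A k i)ᵀ * A k i)‖ ≤ σ k ^ 2) →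
    ∑ k, (∑ i, ∑ a, ∑ b, A k i a b ^ 2) / σ k ^ 2 * Real.exp (-l k ^ 2) ≤ n →
    7 * n ≤ 8 * Module.finrank ℝ W → (∀ i, |x₀ i| ≤ 1) →
    ∃ x : Fin n → ℝ, (∀ i, |x i| ≤ 1) ∧ x - x₀ ∈ W ∧
      n ≤ 2 * (Finset.univ.filter fun i => |x i| = 1).card ∧
      ∀ k, ‖Matrix.toEuclideanCLM (𝕜 := ℝ) (∑ i, (x i - x₀ i) • A k i)‖ ≤ C * l k * σ k

-- deps: LP SCH VAR ENTS NCKS SPLIT
def S_FC : Prop :=
  ∃ C : ℝ, ∀ (p q : ℝ≥0∞), 2 ≤ p → p ≤ q → ∀ (m n : ℕ) (A : Fin n → Matrix (Fin m) (Fin m) ℝ),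
    (∀ i, schatten p (A i) ≤ 1) →
    ∃ x : Fin n → ℝ, (∀ i, |x i| ≤ 1) ∧ n ≤ 2 * (Finset.univ.filter fun i => |x i| = 1).card ∧
      schatten q (∑ i, x i • A i) ≤
        C * √(n * (min p (ENNReal.ofReal (max 1 (Real.log ((m : ℝ) / n))))).toReal) *
          (min 1 ((m : ℝ) / n)) ^ (p.toReal⁻¹ - q.toReal⁻¹)

-- deps: LP SCH VAR ENTS NCKS LEVY CHAIN ROUNDS
def S_FD : Prop :=
  ∃ C : ℝ, ∀ (p : ℝ≥0∞), 2 ≤ p → ∀ (d n : ℕ) (A : Fin n → Matrix (Fin d) (Fin d) ℝ),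
    (∀ i, schatten p (A i) ≤ 1) →
    ∃ ε : Fin n → ℝ, (∀ i, ε i = 1 ∨ ε i = -1) ∧ ∀ t : ℕ,
      schatten p (∑ i ∈ Finset.univ.filter fun i : Fin n => (i : ℕ) < t, ε i • A i) ≤
        C * √(n * (min p (ENNReal.ofReal (max 1 (Real.log ((d : ℝ) / n))))).toReal)

end Pool.Agent.P.MP_1157dd_an.N
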