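import Pool.Agent.P.MP_1157dd_an.N.Base

/-! Consequences of local optimality, with several blocks and a free matrix `Θ`. -/

namespace Pool.Agent.P.MP_1157dd_an.N

open Matrix Filter Topology

variable {D I K : Type} [Fintype D] [Fintype I] [Fintype K]

/-- weighted bilinear map -/
def TB (B : I → Matrix D D ℝ) (Θ H : Matrix I I ℝ) (g : I → ℝ) (U : Matrix D D ℝ) :
    Matrix D D ℝ :=
  ∑ j, g j • (lc B (fun i => Θ i j) * U * lc B (fun i => H i j))

section tb

variable (B : I → Matrix D D ℝ) (Θ H : Matrix I I ℝ) (g : I → ℝ) (U : Matrix D D ℝ)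

lemma TB_addU (V : Matrix D D ℝ) : TB B Θ H g (U + V) = TB B Θ H g U + TB B Θ H g V := by
  simp only [TB, mul_add, add_mul, smul_add, Finset.sum_add_distrib]

lemma TB_smulU (a : ℝ) : TB B Θ H g (a • U) = a • TB B Θ H g U := by
  simp only [TB, Finset.smul_sum, mul_smul_comm, smul_mul_assoc, smul_comm a]

lemma TB_subg (g' : I → ℝ) : TB B Θ H (g - g') U = TB B Θ H g U - TB B Θ H g' U := by
  simp only [TB, Pi.sub_apply, sub_smul, Finset.sum_sub_distrib]

lemma TB_smulg (a : ℝ) : TB B Θ H (a • g) U = a • TB B Θ H g U := by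
  simp only [TB, Finset.smul_sum, Pi.smul_apply, smul_eq_mul, mul_smul]

lemma TB_expand (t : ℝ) : TB B (Θ + t • H) (Θ + t • H) g U =
    TB B Θ Θ g U + t • TB B Θ H g U + t • TB B H Θ g U + t ^ 2 • TB B H H g U := by
  have e : ∀ j, lc B (fun i => (Θ + t • H) i j) =
      lc B (fun i => Θ i j) + t • lc B (fun i => H i j) := fun j => by
    rw [← lc_smul, ← lc_add]; rfl
  simp only [TB, e, Finset.smul_sum, ← Finset.sum_add_distrib]
  refine Finset.sum_congr rfl fun j _ => ?_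
  simp only [mul_add, add_mul, mul_smul_comm, smul_mul_assoc]
  module

lemma TB_smulR (a : ℝ) : TB B Θ (a • H) g U = a • TB B Θ H g U := by
  have e : ∀ j, lc B (fun i => (a • H) i j) = a • lc B (fun i => H i j) := fun j => by
    rw [← lc_smul]; rfl
  simp only [TB, e, Finset.smul_sum, mul_smul_comm, smul_comm a]

lemma TB_smulL (a : ℝ) : TB B (a • Θ) H g U = a • TB B Θ H g U := by
  have e : ∀ j, lc B (fun i => (a • Θ) i j) = a • lc B (fun i => Θ i j) := fun j => by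
    rw [← lc_smul]; rfl
  simp only [TB, e, Finset.smul_sum, smul_mul_assoc, smul_comm a]

variable [DecidableEq I]

lemma lc_col (s : I → ℝ) (j : I) :
    lc B (fun i => (Θ * diagonal s) i j) = s j • lc B fun i => Θ i j := by
  rw [← lc_smul]
  congr 1
  funext i
  rw [mul_diagonal, Pi.smul_apply, smul_eq_mul, mul_comm]

lemma TB_eq_TT {g : I → ℝ} (hg : ∀ j, 0 ≤ g j) :
    TB B Θ Θ g = TT B (Θ * diagonal fun j => √(g j)) := by
  funext U
  simp only [TB, TT, lc_col, smul_mul_assoc, mul_smul_comm, smul_smul, Real.mul_self_sqrt (hg _)]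

end tb

/-- the size of the reservoir of coordinate `j` -/
def wt (κ : ℝ) (x : I → ℝ) (j : I) : ℝ := 1 + κ * (1 - x j ^ 2)

omit [Fintype I] in
lemma wt_bounds {κ : ℝ} {x : I → ℝ} (h0 : 0 ≤ κ) (h1 : κ ≤ 1) (hx : Cube x) (j : I) :
    1 ≤ wt κ x j ∧ wt κ x j ≤ 2 := by
  have : x j ^ 2 ≤ 1 := by rw [← sq_abs]; exact pow_le_one₀ (abs_nonneg _) (hx j)
  unfold wt
  constructor <;> nlinarith [sq_nonneg (x j)]

omit [Fintype I] in
lemma wt_expand (κ c t : ℝ) (x y : I → ℝ) : c • wt κ (x + t • y) =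
    c • wt κ x - t • (fun j => 2 * c * κ * (x j * y j)) - t ^ 2 • fun j => c * κ * y j ^ 2 := by
  funext j
  simp only [wt, Pi.smul_apply, Pi.sub_apply, Pi.add_apply, smul_eq_mul]
  ring

variable [DecidableEq D] [DecidableEq I]

/-- squared length of a column of `1 - Θ` -/
def pc (Θ : Matrix I I ℝ) (j : I) : ℝ := ∑ i, (1 - Θ) i j ^ 2

lemma pc_nonneg (Θ : Matrix I I ℝ) (j : I) : 0 ≤ pc Θ j :=
  Finset.sum_nonneg fun _ _ => sq_nonneg _

/-- polynomial bound for `1 - (1 + E)⁻¹` -/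
def iv (E : Matrix D D ℝ) : Matrix D D ℝ := E - E * E + E * E * E - (2 : ℝ) • (E * E * (E * E))

/-- local optimality in normalised coordinates -/
def LocM (B : K → I → Matrix D D ℝ) (ζ : K → D → ℝ) (Θ : Matrix I I ℝ) (x : I → ℝ)
    (W : Submodule ℝ (I → ℝ)) (p : K → ℕ) (μ c : K → ℝ) (κ lam : ℝ) : Prop :=
  ∀ y ∈ W, ∀ (Θ' : Matrix I I ℝ) (E : K → Matrix D D ℝ), Cube (x + y) → (∀ k, (E k)ᵀ = E k) →
    (∀ k u, 0 ≤ qf ((1 / 2 : ℝ) • 1 + E k) u) →
    (∀ k u, 0 ≤ qf (TB (B k) Θ Θ (c k • wt κ x) 1 - TB (B k) Θ' Θ' (c k • wt κ (x + y)) (1 + E k) -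
      lc (B k) y + iv (E k)) u) →
    0 ≤ ∑ k, μ k / p k * (((diagonal (ζ k) * (1 + E k)) ^ p k).trace -
        (diagonal (ζ k) ^ p k).trace) +
      (∑ j, wt κ (x + y) j * pc Θ' j - ∑ j, wt κ x j * pc Θ j) -
      lam * (∑ i, (x i + y i) ^ 2 - ∑ i, x i ^ 2)

variable {B : K → I → Matrix D D ℝ} {ζ : K → D → ℝ} {Θ : Matrix I I ℝ} {x : I → ℝ}
  {W : Submodule ℝ (I → ℝ)} {p : K → ℕ} {μ c : K → ℝ} {κ lam : ℝ}

lemma fo_feas {B : I → Matrix D D ℝ} {H : Matrix I I ℝ} {g : I → ℝ} {U : Matrix D D ℝ}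
    (hP : PD (U - TB B Θ Θ g U - TB B Θ H g 1 - TB B H Θ g 1)) :
    ∀ᶠ t in 𝓝[>] (0 : ℝ), ∀ u, 0 ≤ qf (TB B Θ Θ g 1 -
      TB B (Θ + t • H) (Θ + t • H) g (1 + t • U) + iv (t • U)) u := by
  let N : ℝ → Matrix D D ℝ := fun t => U - TB B Θ Θ g U - TB B Θ H g 1 - TB B H Θ g 1 -
    t • (TB B Θ H g U + TB B H Θ g U + TB B H H g 1 + U * U) +
    t ^ 2 • (U * U * U - TB B H H g U) - (2 * t ^ 3) • (U * U * (U * U))
  have hN : ∀ᶠ t in 𝓝 (0 : ℝ), PD (N t) := eventually_PD (by fun_prop) (by simpa [N] using hP)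
  filter_upwards [nhdsWithin_le_nhds hN, self_mem_nhdsWithin] with t hNt ht0 u
  have e : TB B Θ Θ g 1 - TB B (Θ + t • H) (Θ + t • H) g (1 + t • U) + iv (t • U) = t • N t := by
    simp only [TB_expand, TB_addU, TB_smulU, iv, N, smul_mul_assoc, mul_smul_comm]
    module
  rw [e, qf_smul]
  exact mul_nonneg (le_of_lt ht0) (hNt.nonneg u)

lemma fo_obj (h : LocM B ζ Θ x W p μ c κ lam) (hζ : ∀ k e, 0 < ζ k e) (hp : ∀ k, 1 ≤ p k)
    (hμ : ∀ k, 0 < μ k) (hx : Cube x) (H : Matrix I I ℝ) {U : K → Matrix D D ℝ}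
    (hU : ∀ k, (U k)ᵀ = U k)
    (hf : ∀ k, ∀ᶠ t in 𝓝[>] (0 : ℝ), ∀ u, 0 ≤ qf (TB (B k) Θ Θ (c k • wt κ x) 1 -
      TB (B k) (Θ + t • H) (Θ + t • H) (c k • wt κ x) (1 + t • U k) + iv (t • U k)) u) :
    0 ≤ ∑ k, μ k * (diagonal (ζ k) ^ p k * U k).trace -
      2 * ∑ j, wt κ x j * ∑ i, H i j * (1 - Θ) i j := by
  choose g r hr hg he using fun k => obj_expand (fun i => (hζ k i).le) (hU k) 0 (hp k) (hμ k).le
  have hE := eventually_all.2 fun k =>
    half_eventually (E := fun t : ℝ => t • U k) (by fun_prop) (by simp)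
  have := nonneg_of_eventually (k := 1) (f := fun t =>
    ∑ k, (μ k * (diagonal (ζ k) ^ p k * U k).trace + t * g k + t ^ 2 * r k t) -
      2 * ∑ j, wt κ x j * ∑ i, H i j * (1 - Θ) i j + t * ∑ j, wt κ x j * ∑ i, H i j ^ 2)
    (by fun_prop) ?_
  · simpa using this
  filter_upwards [nhdsWithin_le_nhds hE, eventually_all.2 hf] with t h1 h2
  have := h 0 W.zero_mem (Θ + t • H) (fun k => t • U k) (by simpa using hx)
    (fun k => by rw [transpose_smul, hU]) h1 (by simpa only [add_zero, lc_zero, sub_zero] using h2)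
  have e := fun k => he k t
  simp only [smul_zero, add_zero] at e
  simp only [e, add_zero, Pi.zero_apply, sub_self, mul_zero, sub_zero] at this
  refine this.trans (le_of_eq ?_)
  have e2 : ∀ j, pc (Θ + t • H) j =
      pc Θ j - 2 * t * ∑ i, H i j * (1 - Θ) i j + t ^ 2 * ∑ i, H i j ^ 2 := fun j => by
    simp only [pc, Finset.mul_sum, ← Finset.sum_sub_distrib, ← Finset.sum_add_distrib]
    refine Finset.sum_congr rfl fun i _ => ?_
    simp only [Matrix.sub_apply, Matrix.add_apply, Matrix.smul_apply, smul_eq_mul]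
    ring
  simp only [e2, pow_one, mul_add, mul_sub, Finset.mul_sum, Finset.sum_add_distrib,
    Finset.sum_sub_distrib]
  have a1 : ∀ k, t ^ 2 * g k = t * (t * g k) := fun k => by ring
  have a2 : ∀ k, t ^ 3 * r k t = t * (t ^ 2 * r k t) := fun k => by ring
  have a3 : ∀ j i, wt κ x j * (2 * t * (H i j * (1 - Θ) i j)) =
      t * (2 * (wt κ x j * (H i j * (1 - Θ) i j))) := fun j i => by ring
  have a4 : ∀ j i, wt κ x j * (t ^ 2 * H i j ^ 2) = t * (t * (wt κ x j * H i j ^ 2)) :=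
    fun j i => by ring
  simp only [a1, a2, a3, a4]
  ring

/-- second order condition -/
lemma second (h : LocM B ζ Θ x W p μ c κ lam) (hζ : ∀ k e, 0 < ζ k e) (hp : ∀ k, 1 ≤ p k)
    (hμ : ∀ k, 0 < μ k) (hx : Cube x) {y : I → ℝ} (hyW : y ∈ W) (hy : ∀ i, i ∉ free x → y i = 0)
    {U V : K → Matrix D D ℝ} (hU : ∀ k, (U k)ᵀ = U k) (hV : ∀ k, (V k)ᵀ = V k)
    (h1 : ∀ k, U k - TB (B k) Θ Θ (c k • wt κ x) (U k) =
      lc (B k) y - TB (B k) Θ Θ (fun j => 2 * c k * κ * (x j * y j)) 1)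
    (h2 : ∀ k, PD (V k - TB (B k) Θ Θ (c k • wt κ x) (V k) - U k * U k +
      TB (B k) Θ Θ (fun j => 2 * c k * κ * (x j * y j)) (U k) +
      TB (B k) Θ Θ (fun j => c k * κ * y j ^ 2) 1)) :
    lam * (y ⬝ᵥ y) + κ * ∑ j, y j ^ 2 * pc Θ j ≤
      ∑ k, (((p k : ℝ) - 1) / 2 * (μ k * (diagonal (ζ k) ^ p k * (U k * U k)).trace) +
        μ k * (diagonal (ζ k) ^ p k * V k).trace) := by
  choose g r hr hg he using
    fun k => obj_expand (fun i => (hζ k i).le) (hU k) (V k) (hp k) (hμ k).le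
  refine le_trans ?_ (Finset.sum_le_sum fun k _ => hg k)
  let F : K → ℝ → Matrix D D ℝ := fun k t => U k + t • V k
  let a : K → I → ℝ := fun k j => 2 * c k * κ * (x j * y j)
  let b : K → I → ℝ := fun k j => c k * κ * y j ^ 2
  let N : K → ℝ → Matrix D D ℝ := fun k t => V k - TB (B k) Θ Θ (c k • wt κ x) (V k) -
    F k t * F k t + TB (B k) Θ Θ (a k) (U k) + TB (B k) Θ Θ (b k) 1 +
    t • (TB (B k) Θ Θ (a k) (V k) + TB (B k) Θ Θ (b k) (U k) + F k t * F k t * F k t) +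
    t ^ 2 • (TB (B k) Θ Θ (b k) (V k) - (2 : ℝ) • (F k t * F k t * (F k t * F k t)))
  have hN : ∀ᶠ t in 𝓝 (0 : ℝ), ∀ k, PD (N k t) := eventually_all.2 fun k =>
    eventually_PD (N := N k) (by fun_prop) (by simpa [N, F] using h2 k)
  have hE := eventually_all.2 fun k =>
    half_eventually (E := fun t : ℝ => t • U k + t ^ 2 • V k) (by fun_prop) (by simp)
  have hc : ∀ᶠ t in 𝓝 (0 : ℝ), Cube (x + t • y) := by
    refine eventually_all.2 fun i => ?_
    by_cases hi : i ∈ free x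
    · have hcont : Continuous fun t : ℝ => |(x + t • y) i| := by fun_prop
      exact (hcont.continuousAt.eventually_lt continuousAt_const
        (by simpa using mem_free.1 hi)).mono fun t ht => ht.le
    · exact Eventually.of_forall fun t => by simpa [hy i hi] using hx i
  obtain ⟨α, hα⟩ : ∃ α : ℝ, α = ∑ k, μ k * (diagonal (ζ k) ^ p k * U k).trace -
    2 * κ * ∑ j, x j * y j * pc Θ j - 2 * lam * (x ⬝ᵥ y) := ⟨_, rfl⟩
  obtain ⟨γ, hγ⟩ : ∃ γ : ℝ, γ = ∑ k, g k - κ * ∑ j, y j ^ 2 * pc Θ j - lam * (y ⬝ᵥ y) := ⟨_, rfl⟩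
  have key : ∀ᶠ t in 𝓝 (0 : ℝ), 0 ≤ t * α + t ^ 2 * γ + t ^ 3 * ∑ k, r k t := by
    filter_upwards [hN, hE, hc] with t hNt hEt hct
    have := h (t • y) (W.smul_mem t hyW) Θ (fun k => t • U k + t ^ 2 • V k) hct
      (fun k => by rw [transpose_add, transpose_smul, transpose_smul, hU, hV]) hEt ?_
    · simp only [he] at this
      refine this.trans (le_of_eq ?_)
      have e : ∑ i, (x i + (t • y) i) ^ 2 - ∑ i, x i ^ 2 =
          2 * t * (x ⬝ᵥ y) + t ^ 2 * (y ⬝ᵥ y) := by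
        simp only [dotProduct, Finset.mul_sum, ← Finset.sum_sub_distrib,
          ← Finset.sum_add_distrib, Pi.smul_apply, smul_eq_mul]
        exact Finset.sum_congr rfl fun i _ => by ring
      have e2 : ∑ j, wt κ (x + t • y) j * pc Θ j - ∑ j, wt κ x j * pc Θ j =
          -(2 * t * κ * ∑ j, x j * y j * pc Θ j) - t ^ 2 * κ * ∑ j, y j ^ 2 * pc Θ j := by
        simp only [Finset.mul_sum, ← Finset.sum_sub_distrib, ← Finset.sum_neg_distrib, wt,
          Pi.add_apply, Pi.smul_apply, smul_eq_mul]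
        exact Finset.sum_congr rfl fun i _ => by ring
      rw [e, e2, hα, hγ, Finset.sum_add_distrib, Finset.sum_add_distrib, ← Finset.mul_sum,
        ← Finset.mul_sum, ← Finset.mul_sum]
      ring
    · intro k u
      have hF : t • U k + t ^ 2 • V k = t • F k t := by simp only [F]; module
      have e : TB (B k) Θ Θ (c k • wt κ x) 1 -
          TB (B k) Θ Θ (c k • wt κ (x + t • y)) (1 + (t • U k + t ^ 2 • V k)) - lc (B k) (t • y) +
          (t • U k + t ^ 2 • V k - t • F k t * t • F k t + t • F k t * t • F k t * t • F k t -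
          (2 : ℝ) • (t • F k t * t • F k t * (t • F k t * t • F k t))) = t ^ 2 • N k t := by
        rw [wt_expand, TB_subg, TB_subg, TB_smulg _ _ _ _ _ t, TB_smulg _ _ _ _ _ (t ^ 2), lc_smul,
          sub_eq_iff_eq_add.1 (h1 k).symm]
        simp only [N, a, b, TB_addU, TB_smulU, smul_mul_assoc, mul_smul_comm]
        module
      rw [← hF] at e
      rw [iv, e, qf_smul]
      exact mul_nonneg (sq_nonneg t) ((hNt k).nonneg u)
  have key2 : ∀ᶠ t in 𝓝 (0 : ℝ), 0 ≤ (-t) * α + (-t) ^ 2 * γ + (-t) ^ 3 * ∑ k, r k (-t) := by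
    have : Tendsto (fun t : ℝ => -t) (𝓝 0) (𝓝 0) := by simpa using (continuous_neg.tendsto (0 : ℝ))
    exact this.eventually key
  have := nonneg_of_eventually (k := 2)
    (f := fun t => 2 * γ + t * (∑ k, r k t - ∑ k, r k (-t))) (by fun_prop) ?_
  · simp only [zero_mul, add_zero] at this
    linarith
  filter_upwards [nhdsWithin_le_nhds key, nhdsWithin_le_nhds key2] with t a1 a2
  linarith

end Pool.Agent.P.MP_1157dd_an.N

/-! The dual certificate when the edge is fixed. -/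

namespace Pool.Agent.P.MP_1157dd_an.N

open Matrix Filter Topology

variable {D I : Type} [Fintype D] [Fintype I] [DecidableEq D]

lemma PD_one : PD (1 : Matrix D D ℝ) := ⟨1, one_pos, fun u => by rw [qf_one, one_mul]⟩

lemma exists_dual' {B : I → Matrix D D ℝ} {ζ : D → ℝ} {Γ : Matrix I I ℝ} {p : ℕ} {μ κ₀ : ℝ}
    (hB : ∀ i, (B i)ᵀ = B i)
    (h : ∀ (U : Matrix D D ℝ) (δ : ℝ), Uᵀ = U → 0 ≤ δ → PD (δ • TT B Γ 1 + (U - TT B Γ U)) →
      0 ≤ δ * κ₀ + μ * (diagonal ζ ^ p * U).trace) :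
    ∃ ρ : Matrix D D ℝ, ρᵀ = ρ ∧ (∀ u, 0 ≤ qf ρ u) ∧ ρ - TT B Γ ρ = μ • diagonal ζ ^ p := by
  let s : Set (Matrix D D ℝ × ℝ) := {q | PD q.1 ∧ q.2 < 0}
  let g : Matrix D D ℝ → ℝ → Matrix D D ℝ × ℝ := fun U δ =>
    (δ • TT B Γ 1 + (U - TT B Γ U), δ * κ₀ + μ * (diagonal ζ ^ p * U).trace)
  have gadd : ∀ U V δ ε, g (U + V) (δ + ε) = g U δ + g V ε := by
    intro U V δ ε
    simp only [g, TT_add, Prod.mk_add_mk, mul_add, trace_add, Prod.mk.injEq]
    exact ⟨by module, by ring⟩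
  have gsmul : ∀ (a : ℝ) U δ, g (a • U) (a * δ) = a • g U δ := by
    intro a U δ
    simp only [g, TT_smul, Prod.smul_mk, mul_smul_comm, trace_smul, smul_eq_mul, Prod.mk.injEq]
    exact ⟨by module, by ring⟩
  let t : Set (Matrix D D ℝ × ℝ) := {q | ∃ U δ, Uᵀ = U ∧ 0 ≤ δ ∧ q = g U δ}
  have hs1 : Convex ℝ s := by
    rintro q ⟨⟨δ, hδ, h1⟩, h2⟩ q' ⟨⟨δ', hδ', h1'⟩, h2'⟩ a b ha hb hab
    refine ⟨⟨min δ δ', lt_min hδ hδ', fun u => ?_⟩, ?_⟩
    · simp only [Prod.fst_add, Prod.smul_fst, qf_add, qf_smul]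
      have a1 := mul_le_mul_of_nonneg_right (min_le_left δ δ') (dot_nonneg u)
      have a2 := mul_le_mul_of_nonneg_right (min_le_right δ δ') (dot_nonneg u)
      have a3 := mul_le_mul_of_nonneg_left (a1.trans (h1 u)) ha
      have a4 := mul_le_mul_of_nonneg_left (a2.trans (h1' u)) hb
      have : min δ δ' * (u ⬝ᵥ u) = a * (min δ δ' * (u ⬝ᵥ u)) + b * (min δ δ' * (u ⬝ᵥ u)) := by
        rw [← add_mul, hab, one_mul]
      linarith
    · exact convex_Iio (0 : ℝ) h2 h2' ha hb hab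
  have hs2 : IsOpen s :=
    (isOpen_PD.preimage continuous_fst).inter (isOpen_lt continuous_snd continuous_const)
  have ht : Convex ℝ t := by
    rintro _ ⟨U, δ, hU, hδ, rfl⟩ _ ⟨V, ε, hV, hε, rfl⟩ a b ha hb -
    exact ⟨a • U + b • V, a * δ + b * ε, by
      rw [transpose_add, transpose_smul, transpose_smul, hU, hV], by positivity,
      by rw [gadd, gsmul, gsmul]⟩
  have hd : Disjoint s t := by
    rw [Set.disjoint_left]
    rintro _ ⟨h1, h2⟩ ⟨U, δ, hU, hδ, rfl⟩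
    exact absurd (h U δ hU hδ h1) (not_le.2 h2)
  obtain ⟨f, u₀, hf1, hf2⟩ := geometric_hahn_banach_open hs1 hs2 ht hd
  have hzero : ∀ U, Uᵀ = U → f (g U 0) = 0 := by
    intro U hU
    by_contra hne
    have := hf2 _ ⟨((u₀ - 1) / f (g U 0)) • U, ((u₀ - 1) / f (g U 0)) * 0,
      by rw [transpose_smul, hU], by simp, rfl⟩
    rw [gsmul, map_smul, smul_eq_mul, div_mul_cancel₀ _ hne] at this
    linarith
  have hu₀ : u₀ ≤ 0 := by
    have := hf2 _ ⟨0, 0, transpose_zero, le_rfl, rfl⟩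
    rwa [hzero 0 transpose_zero] at this
  have hray : 0 ≤ f (g 0 1) := by
    by_contra hne
    have hne' := not_le.1 hne
    have := hf2 _ ⟨((u₀ - 1) / f (g 0 1)) • (0 : Matrix D D ℝ), ((u₀ - 1) / f (g 0 1)) * 1,
      by simp, by rw [mul_one]; exact div_nonneg_of_nonpos (by linarith) hne'.le, rfl⟩
    rw [gsmul, map_smul, smul_eq_mul, div_mul_cancel₀ _ hne'.ne] at this
    linarith
  set τ := f (0, 1) with hτ
  let φ : D → D → ℝ := fun i j => -f (Matrix.single i j 1, 0)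
  let ρ : Matrix D D ℝ := Matrix.of fun i j => (φ i j + φ j i) / 2
  have hρs : ρᵀ = ρ := by ext i j; simp only [ρ, transpose_apply, of_apply]; ring
  have hf : ∀ (M : Matrix D D ℝ) (r : ℝ), Mᵀ = M → f (M, r) = r * τ - (ρ * M).trace := by
    intro M r hM
    have hs : ∀ i j, M j i = M i j := fun i j => by rw [← transpose_apply M i j, hM]
    have e1 : (M, r) = r • ((0 : Matrix D D ℝ), (1 : ℝ)) +
        ∑ i, ∑ j, M i j • ((Matrix.single i j 1 : Matrix D D ℝ), (0 : ℝ)) := by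
      ext1
      · simp only [Prod.fst_add, Prod.smul_fst, smul_zero, zero_add, Prod.fst_sum,
          Matrix.smul_single, smul_eq_mul, mul_one]
        exact matrix_eq_sum_single M
      · simp [Prod.snd_sum]
    have e2 : f (M, r) = r * τ - ∑ i, ∑ j, M i j * φ i j := by
      rw [e1, map_add, map_smul, map_sum]
      simp only [map_sum, map_smul, smul_eq_mul, φ, mul_neg, Finset.sum_neg_distrib, hτ]
      ring
    have e3 : ∑ i, ∑ j, M i j * φ i j = ∑ i, ∑ j, M i j * φ j i := by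
      rw [Finset.sum_comm]
      exact Finset.sum_congr rfl fun i _ => Finset.sum_congr rfl fun j _ => by rw [hs i j]
    have e4 : (ρ * M).trace = (∑ i, ∑ j, M i j * φ i j + ∑ i, ∑ j, M i j * φ j i) / 2 := by
      simp only [trace, diag_apply, mul_apply, ρ, of_apply, ← Finset.sum_add_distrib,
        Finset.sum_div]
      exact Finset.sum_congr rfl fun i _ => Finset.sum_congr rfl fun j _ => by rw [hs i j]; ring
    rw [e2, e4, ← e3]; ring
  have hT0 : TT B Γ 0 = 0 := by simp [TT]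
  have hT1 : (TT B Γ 1)ᵀ = TT B Γ 1 := by rw [TT_transpose hB, transpose_one]
  have hone : ∀ r : ℝ, r < 0 → r * τ < ρ.trace := fun r hr => by
    have := hf1 (1, r) ⟨PD_one, hr⟩
    rw [hf _ _ transpose_one, mul_one] at this
    linarith
  have hτ0 : 0 < τ := by
    by_contra hn
    rcases (not_lt.1 hn).eq_or_lt with h0 | h0
    · have a1 := hzero 1 transpose_one
      simp only [g, hT0, zero_smul, zero_add, one_smul, sub_zero, add_zero] at a1 hray
      rw [hf _ _ (by rw [transpose_sub, hT1, transpose_one]), h0, mul_sub, trace_sub, mul_one ρ] at a1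
      rw [hf _ _ hT1, h0] at hray
      have := hone (-1) (by norm_num)
      rw [h0] at this
      linarith
    · have := hone ((|ρ.trace| + 1) / τ) (div_neg_of_pos_of_neg (by positivity) h0)
      rw [div_mul_cancel₀ _ h0.ne] at this
      linarith [le_abs_self ρ.trace]
  have hpos : ∀ u, 0 ≤ qf ρ u := by
    intro u
    refine le_of_forall_pos_le_add fun ε hε => ?_
    have hv : ∀ w, 0 ≤ qf (vecMulVec u u) w := fun w => by
      have : qf (vecMulVec u u) w = (u ⬝ᵥ w) ^ 2 := by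
        simp only [qf_eq, vecMulVec_apply, dotProduct, sq, Finset.sum_mul_sum]
        exact Finset.sum_congr rfl fun i _ => Finset.sum_congr rfl fun j _ => by ring
      rw [this]; exact sq_nonneg _
    have h3 : 0 < τ + ρ.trace := by linarith [hone (-1) (by norm_num)]
    have := hf1 ((ε / (τ + ρ.trace)) • (1 : Matrix D D ℝ) + vecMulVec u u, -(ε / (τ + ρ.trace)))
      ⟨(PD_one.smul (by positivity)).add hv, neg_lt_zero.2 (by positivity)⟩
    rw [hf _ _ (by rw [transpose_add, transpose_smul, transpose_one, transpose_vecMulVec]), mul_add,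
      trace_add, mul_smul_comm, trace_smul, mul_one, smul_eq_mul] at this
    have e : (ρ * vecMulVec u u).trace = qf ρ u := by
      simp only [qf_eq, trace, diag_apply, mul_apply, vecMulVec_apply]
      exact Finset.sum_congr rfl fun i _ => Finset.sum_congr rfl fun j _ => by ring
    have e2 : ε / (τ + ρ.trace) * τ + ε / (τ + ρ.trace) * ρ.trace = ε := by field_simp
    rw [e, neg_mul] at this
    linarith
  have hL : (diagonal ζ)ᵀ = diagonal ζ := diagonal_transpose _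
  have hM : ρ - TT B Γ ρ - (τ * μ) • diagonal ζ ^ p = 0 := by
    obtain ⟨M, hMdef⟩ : ∃ M, M = ρ - TT B Γ ρ - (τ * μ) • diagonal ζ ^ p := ⟨_, rfl⟩
    have hMs : Mᵀ = M := by
      rw [hMdef, transpose_sub, transpose_sub, TT_transpose hB, hρs, transpose_smul,
        transpose_pow, hL]
    have := hzero M hMs
    simp only [g, zero_smul, zero_add, zero_mul] at this
    rw [hf _ _ (by rw [transpose_sub, TT_transpose hB, hMs]), mul_sub ρ, trace_sub, ← TT_adj]
      at this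
    rw [← hMdef]
    apply frob_eq_zero
    rw [frob_eq_trace, hMs]
    nth_rewrite 1 [hMdef]
    rw [sub_mul, sub_mul, trace_sub, trace_sub, smul_mul_assoc, trace_smul, smul_eq_mul]
    linarith
  refine ⟨τ⁻¹ • ρ, by rw [transpose_smul, hρs], fun u => ?_, ?_⟩
  · rw [qf_smul]; exact mul_nonneg (inv_nonneg.2 hτ0.le) (hpos u)
  · rw [TT_smul, ← smul_sub, sub_eq_zero.1 hM, smul_smul, ← mul_assoc, inv_mul_cancel₀ hτ0.ne',
      one_mul]

end Pool.Agent.P.MP_1157dd_an.N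

/-! The inequality satisfied by most directions at a local minimum. -/

namespace Pool.Agent.P.MP_1157dd_an.N

open Matrix Filter Topology

variable {D I K : Type} [Fintype D] [Fintype I] [Fintype K] [DecidableEq D]

lemma cod_iInf {β : Type} [Fintype β] (N : K → Submodule ℝ (β → ℝ)) (a : K → ℝ)
    (h : ∀ k, Cod (N k) (a k)) : ∃ M, Cod M (∑ k, a k) ∧ ∀ y ∈ M, ∀ k, y ∈ N k := by
  classical
  have : ∀ s : Finset K, ∃ M, Cod M (∑ k ∈ s, a k) ∧ ∀ y ∈ M, ∀ k ∈ s, y ∈ N k := by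
    intro s
    induction s using Finset.induction_on with
    | empty => exact ⟨⊤, by simpa using cod_top, by simp⟩
    | insert k s hk ih =>
      obtain ⟨M, h1, h2⟩ := ih
      refine ⟨N k ⊓ M, by rw [Finset.sum_insert hk]; exact (h k).inf h1, fun y hy j hj => ?_⟩
      rcases Finset.mem_insert.1 hj with rfl | hj
      exacts [hy.1, h2 y hy.2 j hj]
  obtain ⟨M, h1, h2⟩ := this Finset.univ
  exact ⟨M, h1, fun y hy k => h2 y hy k (Finset.mem_univ k)⟩

omit [DecidableEq D] in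
lemma vr_comp (B : I → Matrix D D ℝ) {Γ : Matrix I I ℝ} {c : ℝ}
    (hΓ : ∀ v, Γ *ᵥ v ⬝ᵥ Γ *ᵥ v ≤ c * (v ⬝ᵥ v)) (hc : 0 ≤ c) (u : D → ℝ) :
    vr (fun k => lc B fun i => Γ i k) u ≤ c * vr B u := by
  have h2 : ∀ k e, (lc B (fun i => Γ i k) *ᵥ u) e = ∑ i, Γ i k * (B i *ᵥ u) e := by
    intro k e
    simp only [lc, sum_mulVec, smul_mulVec, Finset.sum_apply, Pi.smul_apply, smul_eq_mul]
  simp only [vr, dot_eq_sq, h2]
  rw [Finset.sum_comm, Finset.sum_comm (γ := I), Finset.mul_sum]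
  exact Finset.sum_le_sum fun e _ => transpose_bound hΓ hc _

omit [DecidableEq D] in
lemma lc_sandwich (B : I → Matrix D D ℝ) (P : Matrix D D ℝ) (y : I → ℝ) :
    lc (fun i => P * B i * P) y = P * lc B y * P := by
  simp [lc, Finset.mul_sum, Finset.sum_mul]

lemma block_bound {B : I → Matrix D D ℝ} {Γ : Matrix I I ℝ} {ζ : D → ℝ} {G : Matrix D D ℝ} {p : ℕ}
    {μ c θ l s : ℝ} (hB : ∀ i, (B i)ᵀ = B i)
    (hρ : Gᵀ * G - TT B Γ (Gᵀ * G) = μ • diagonal ζ ^ p) (hμ : 0 < μ) (hlow : ∀ e, 1 ≤ 2 * ζ e)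
    (hΓ : ∀ v, Γ *ᵥ v ⬝ᵥ Γ *ᵥ v ≤ c * (v ⬝ᵥ v)) (hc : 0 ≤ c)
    (hsm : ∀ u, vr (fun i => PS ζ θ * B i * PS ζ θ) u ≤ s * (u ⬝ᵥ u)) (n1 : c * s ≤ 1 / 16)
    (hiso : ∀ r, frob (G * lc B (Γ *ᵥ r)) ≤ 1 / 2 * (r ⬝ᵥ r))
    (hl : ∑ e, (if θ < ζ e then TT B Γ 1 e e else 0) ≤ l) :
    ∃ N : Submodule ℝ (D × D → ℝ), Cod N (16 * (l * 2 ^ p / μ)) ∧
      ∀ U : Matrix D D ℝ, (fun q : D × D => U q.1 q.2) ∈ N →
        frob (G * U) ≤ 5 * frob (G * (U - TT B Γ U)) := by
  have hρ0 : ∀ u, 0 ≤ qf (Gᵀ * G) u := fun u => by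
    have := qf_conj 1 G u
    rw [mul_one, qf_one] at this
    rw [this]; exact dot_nonneg _
  have hq : ∀ u, qf (Gᵀ * G) u - qf (TT B Γ (Gᵀ * G)) u = μ * ∑ e, ζ e ^ p * u e ^ 2 := fun u => by
    rw [← qf_sub, hρ, qf_smul, diagonal_pow, qf_diagonal]; rfl
  have hζ : ∀ e, 0 ≤ ζ e := fun e => by linarith [hlow e]
  have hTle : ∀ u, qf (TT B Γ (Gᵀ * G)) u ≤ qf (Gᵀ * G) u := fun u => by
    have : 0 ≤ μ * ∑ e, ζ e ^ p * u e ^ 2 := mul_nonneg hμ.le
      (Finset.sum_nonneg fun e _ => mul_nonneg (pow_nonneg (hζ e) p) (sq_nonneg _))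
    linarith [hq u]
  have hlowρ : ∀ U : Matrix D D ℝ, frob U ≤ 2 ^ p / μ * frob (G * U) := by
    intro U
    rw [frob_mul, ← frob_transpose, frob, Finset.mul_sum]
    refine Finset.sum_le_sum fun j _ => ?_
    have a := TT_nonneg hB Γ hρ0 fun i => U i j
    have b := hq fun i => U i j
    calc ∑ k, Uᵀ j k ^ 2 ≤ ∑ e, (2 * ζ e) ^ p * U e j ^ 2 :=
          Finset.sum_le_sum fun e _ => le_mul_of_one_le_left (sq_nonneg _) (one_le_pow₀ (hlow e))
      _ = 2 ^ p / μ * (μ * ∑ e, ζ e ^ p * U e j ^ 2) := by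
          rw [← mul_assoc, div_mul_cancel₀ _ hμ.ne', Finset.mul_sum]
          exact Finset.sum_congr rfl fun e _ => by ring
      _ ≤ _ := mul_le_mul_of_nonneg_left (by linarith) (by positivity)
  let sm : I → Matrix D D ℝ := fun k => PS ζ θ * lc B (fun i => Γ i k) * PS ζ θ
  let r : I → Matrix D D ℝ := fun k => lc B (fun i => Γ i k) - sm k
  let L : (D × D → ℝ) →ₗ[ℝ] Matrix D D ℝ :=
    { toFun := fun u => G * ∑ k, lc B (fun i => Γ i k) * (Matrix.of fun a b => u (a, b)) * r k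
      map_add' := fun u v => by
        rw [← mul_add, ← Finset.sum_add_distrib]
        congr 1
        refine Finset.sum_congr rfl fun k _ => ?_
        rw [← add_mul, ← mul_add]; rfl
      map_smul' := fun a u => by
        rw [RingHom.id_apply, ← mul_smul_comm, Finset.smul_sum]
        congr 1
        refine Finset.sum_congr rfl fun k _ => ?_
        rw [← smul_mul_assoc, ← mul_smul_comm]; rfl }
  obtain ⟨N, hN, hN2⟩ := markov (IsQ.frob L) (fun _ => frob_nonneg _)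
    (b := μ / 2 ^ p / 16) (by positivity)
  refine ⟨N, hN.mono ?_, fun U hU => ?_⟩
  · have a1 : ∑ q, frob (L (Pi.single q 1)) = ∑ e, ∑ f, frob (G * lc B (Γ *ᵥ fun k => r k e f)) := by
      have a2 : ∀ c₀ e₀ a f, L (Pi.single (c₀, e₀) 1) a f =
          (G * lc B (Γ *ᵥ fun k => r k e₀ f)) a c₀ := by
        intro c₀ e₀ a f
        change (G * ∑ k, lc B (fun i => Γ i k) *
          (Matrix.of fun a b => (Pi.single (c₀, e₀) 1 : D × D → ℝ) (a, b)) * r k) a f = _
        rw [hs_entry, lc_mulVec, Finset.sum_eq_single c₀, Finset.sum_eq_single e₀]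
        · simp
        · intro e _ he; simp [he]
        · simp
        · intro c' _ hc'; simp [hc']
        · simp
      simp only [Fintype.sum_prod_type, frob, a2]
      calc _ = ∑ e, ∑ c₀, ∑ a, ∑ f, (G * lc B (Γ *ᵥ fun k => r k e f)) a c₀ ^ 2 := Finset.sum_comm
        _ = _ := Finset.sum_congr rfl fun e _ => by
          calc _ = ∑ c₀, ∑ f, ∑ a, (G * lc B (Γ *ᵥ fun k => r k e f)) a c₀ ^ 2 :=
                Finset.sum_congr rfl fun _ _ => Finset.sum_comm
            _ = ∑ f, ∑ c₀, ∑ a, (G * lc B (Γ *ᵥ fun k => r k e f)) a c₀ ^ 2 := Finset.sum_comm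
            _ = _ := Finset.sum_congr rfl fun _ _ => Finset.sum_comm
    have a3 : ∑ e, ∑ f, frob (G * lc B (Γ *ᵥ fun k => r k e f)) ≤ l :=
      calc _ ≤ ∑ e, ∑ f, 1 / 2 * ∑ k, r k e f ^ 2 :=
            Finset.sum_le_sum fun e _ => Finset.sum_le_sum fun f _ =>
              (hiso _).trans_eq (by rw [dot_eq_sq])
        _ = 1 / 2 * ∑ e, ∑ f, ∑ k, r k e f ^ 2 := by simp only [Finset.mul_sum]
        _ ≤ _ := by linarith [rest_part (Γ := Γ) (ζ := ζ) hB θ]
    rw [a1, div_le_iff₀ (by positivity)]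
    refine a3.trans (le_of_eq ?_)
    field_simp
  · have hN := frob_nonneg (G * U)
    have b2 : frob (G * ∑ k, lc B (fun i => Γ i k) * U * r k) ≤ frob (G * U) / 16 := by
      have a1 := hN2 _ hU
      rw [dot_eq_sq, Fintype.sum_prod_type] at a1
      refine le_trans a1 ((mul_le_mul_of_nonneg_left (hlowρ U) (by positivity)).trans
        (le_of_eq ?_))
      field_simp
    have b1 : frob (G * ∑ k, lc B (fun i => Γ i k) * U * sm k) ≤ frob (G * U) / 16 := by
      refine op_part hB G U sm (fun k => ?_) (fun u => ?_) hTle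
      · simp only [sm, transpose_mul, PS, diagonal_transpose, lc_symm hB, mul_assoc]
      · have a1 := vr_comp (fun i => PS ζ θ * B i * PS ζ θ) hΓ hc u
        simp only [lc_sandwich] at a1
        simp only [vr, dot_eq_sq] at a1 hsm ⊢
        have a2 := mul_le_mul_of_nonneg_left (hsm u) hc
        have a3 := mul_le_mul_of_nonneg_right n1 (Finset.sum_nonneg fun i _ => sq_nonneg (u i) :
          0 ≤ ∑ i, u i ^ 2)
        linarith
    have b3 : G * U = G * (U - TT B Γ U) + G * ∑ k, lc B (fun i => Γ i k) * U * sm k +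
        G * ∑ k, lc B (fun i => Γ i k) * U * r k := by
      rw [← mul_add, ← mul_add, add_assoc, ← Finset.sum_add_distrib]
      simp only [← mul_add, r, add_sub_cancel]
      rw [TT, sub_add_cancel]
    have b4 := three_frob (G * (U - TT B Γ U)) (G * ∑ k, lc B (fun i => Γ i k) * U * sm k)
      (G * ∑ k, lc B (fun i => Γ i k) * U * r k)
    rw [← b3] at b4
    linarith [frob_nonneg (G * (U - TT B Γ U))]

end Pool.Agent.P.MP_1157dd_an.N
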