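import Pool.Agent.P.MP_1157dd_an.N.Ent1

/-! The core inequality. -/

namespace Pool.Agent.P.MP_1157dd_an.N

open Matrix Filter Topology

variable {D I K : Type} [Fintype D] [Fintype I] [Fintype K] [DecidableEq D] [DecidableEq I]

/-- the quadratic form given by the dual certificates -/
def QQ (B : K → I → Matrix D D ℝ) (G : K → Matrix D D ℝ) (c : K → ℝ) (v : I → ℝ) : ℝ :=
  ∑ k, c k * frob (G k * lc (B k) v)

variable {B : K → I → Matrix D D ℝ} {ζ : K → D → ℝ} {Θ : Matrix I I ℝ} {x : I → ℝ}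
  {W : Submodule ℝ (I → ℝ)} {p : K → ℕ} {μ c : K → ℝ} {κ lam : ℝ}

lemma exists_G (h : LocM B ζ Θ x W p μ c κ lam) (hB : ∀ k i, (B k i)ᵀ = B k i)
    (hζ : ∀ k e, 0 < ζ k e) (hp : ∀ k, 1 ≤ p k) (hμ : ∀ k, 0 < μ k) (hx : Cube x)
    (hg : ∀ k j, 0 ≤ (c k • wt κ x) j) (k : K) : ∃ G : Matrix D D ℝ,
      Gᵀ * G - TB (B k) Θ Θ (c k • wt κ x) (Gᵀ * G) = μ k • diagonal (ζ k) ^ p k ∧
      ∀ E : Matrix D D ℝ, Eᵀ = E →
        ∃ U : Matrix D D ℝ, Uᵀ = U ∧ U - TB (B k) Θ Θ (c k • wt κ x) U = E := by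
  classical
  obtain ⟨ρ, hρs, hρ0, hρ⟩ := exists_dual' (ζ := ζ k) (p := p k) (μ := μ k)
    (Γ := Θ * diagonal fun j => √((c k • wt κ x) j))
    (κ₀ := ∑ j, wt κ x j * ∑ i, Θ i j * (1 - Θ) i j) (hB k) (by
    intro U δ hU hδ hP
    rw [← TB_eq_TT _ _ (hg k)] at hP
    have := fo_obj h hζ hp hμ hx ((-δ / 2) • Θ) (U := Pi.single k U)
      (fun k' => by by_cases e : k' = k <;> simp [Pi.single_apply, e, hU]) (fun k' => ?_)
    · rw [Finset.sum_eq_single k (fun k' _ e => by simp [e]) (by simp), Pi.single_eq_same] at this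
      refine this.trans (le_of_eq ?_)
      simp only [Matrix.smul_apply, smul_eq_mul, mul_assoc, ← Finset.mul_sum, mul_left_comm _ (-δ / 2)]
      ring
    · by_cases e : k' = k
      · subst e
        rw [Pi.single_eq_same]
        apply fo_feas
        rw [TB_smulL, TB_smulR]
        convert hP using 1
        module
      · have h1 : ∀ᶠ t in 𝓝 (0 : ℝ), t * δ < 4 :=
          (continuous_id.mul continuous_const).continuousAt.eventually_lt continuousAt_const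
            (by simp)
        filter_upwards [nhdsWithin_le_nhds h1, self_mem_nhdsWithin] with t ht ht0 u
        have e2 : Θ + t • (-δ / 2) • Θ = (1 - t * δ / 2) • Θ := by module
        rw [Pi.single_eq_of_ne e, e2, TB_smulL, TB_smulR]
        simp only [iv, smul_zero, add_zero, mul_zero, sub_zero, qf_sub, qf_smul]
        have h3 : 0 ≤ qf (TB (B k') Θ Θ (c k' • wt κ x) 1) u := by
          rw [TB_eq_TT _ _ (hg k')]
          exact TT_nonneg (hB k') _ (fun u => by rw [qf_one]; exact dot_nonneg u) u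
        have h4 : 0 ≤ t * δ := mul_nonneg (le_of_lt ht0) hδ
        nlinarith [mul_nonneg (mul_nonneg h4 (sub_pos.2 ht).le) h3])
  have hPD : PD (ρ - TT (B k) (Θ * diagonal fun j => √((c k • wt κ x) j)) ρ) := by
    rw [hρ, diagonal_pow]; exact (PD_diagonal fun e => pow_pos (hζ k e) _).smul (hμ k)
  obtain ⟨Y, -, -, -, -, hY, -, -⟩ := spec_pos hρs (by
    have := hPD.add (TT_nonneg (hB k) (Θ * diagonal fun j => √((c k • wt κ x) j)) hρ0)
    rwa [sub_add_cancel] at this)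
  rw [TB_eq_TT _ _ (hg k)]
  exact ⟨Yᵀ, by rw [transpose_transpose, hY, hρ], fun E hE => exists_solve (hB k) hρs hρ0 hPD hE⟩

omit [DecidableEq D] [DecidableEq I] in
lemma TB_symm {B : I → Matrix D D ℝ} (hB : ∀ i, (B i)ᵀ = B i) (Θ H : Matrix I I ℝ) (g : I → ℝ)
    {U : Matrix D D ℝ} (hU : Uᵀ = U) : (TB B Θ H g U)ᵀ = TB B H Θ g U := by
  simp [TB, transpose_sum, transpose_mul, lc_symm hB, hU, mul_assoc]

omit [DecidableEq D] [DecidableEq I] in
lemma le_of_eps {a b t : ℝ} (h : ∀ ε : ℝ, 0 < ε → a ≤ b + ε * t) : a ≤ b := by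
  refine le_of_forall_pos_le_add fun ε hε => (h (ε / (|t| + 1)) (by positivity)).trans ?_
  have : ε / (|t| + 1) * t ≤ ε := by
    rw [div_mul_eq_mul_div, div_le_iff₀ (by positivity)]
    nlinarith [le_abs_self t]
  linarith

theorem core' (h : LocM B ζ Θ x W p μ c κ lam) (hB : ∀ k i, (B k i)ᵀ = B k i)
    (hp : ∀ k, 1 ≤ p k) (hμ : ∀ k, 0 < μ k) {c₀ : ℝ} (hc₀ : 0 < c₀) (hc : ∀ k, c k = c₀ * p k)
    (hκ : 0 ≤ κ) (hκ1 : κ ≤ 1) (hx : Cube x) (hlow : ∀ k e, 1 ≤ 2 * ζ k e) {θ : ℝ} {s l : K → ℝ}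
    (hsm : ∀ k u, vr (fun i => PS (ζ k) θ * B k i * PS (ζ k) θ) u ≤ s k * (u ⬝ᵥ u))
    (n1 : ∀ k, 2 * c k * s k ≤ 1 / 16)
    (hl : ∀ k, ∑ e, (if θ < ζ k e then TB (B k) Θ Θ (c k • wt κ x) 1 e e else 0) ≤ l k) :
    ∃ G : K → Matrix D D ℝ,
      (∀ r, QQ B G c (Θ *ᵥ r) ≤ Θ *ᵥ r ⬝ᵥ r - Θ *ᵥ r ⬝ᵥ Θ *ᵥ r) ∧
      Function.Injective Θ.mulVecLin ∧
      ∃ N, Cod N (∑ k, 16 * (l k * 2 ^ p k / μ k)) ∧ ∀ y ∈ N, y ∈ W → (∀ i, i ∉ free x → y i = 0) →
        lam * (y ⬝ᵥ y) + κ * ∑ j, y j ^ 2 * (pc Θ j + QQ B G c (fun i => Θ i j) / 2) ≤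
          15 / c₀ * ∑ k, c k * frob (G k *
            (lc (B k) y - TB (B k) Θ Θ (fun j => 2 * c k * κ * (x j * y j)) 1)) := by
  have hζ : ∀ k e, 0 < ζ k e := fun k e => by linarith [hlow k e]
  have hp' : ∀ k, (1 : ℝ) ≤ p k := fun k => by exact_mod_cast hp k
  have hc0 : ∀ k, 0 < c k := fun k => by rw [hc]; exact mul_pos hc₀ (by linarith [hp' k])
  have hw := wt_bounds hκ hκ1 hx
  have hg : ∀ k j, 0 ≤ (c k • wt κ x) j := fun k j =>
    mul_nonneg (hc0 k).le (by linarith [(hw j).1])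
  choose G hρ hsolve using exists_G h hB hζ hp hμ hx hg
  have hadj : ∀ k U, μ k * (diagonal (ζ k) ^ p k * U).trace =
      ((G k)ᵀ * G k * (U - TB (B k) Θ Θ (c k • wt κ x) U)).trace := by
    intro k U
    have := hρ k
    rw [TB_eq_TT _ _ (hg k)] at this ⊢
    rw [mul_sub, trace_sub, ← TT_adj, ← trace_sub, ← sub_mul, this, smul_mul_assoc, trace_smul,
      smul_eq_mul]
  have hst : ∀ v r, v ⬝ᵥ r - v ⬝ᵥ Θ *ᵥ r ≤
      ∑ k, c k * ((G k)ᵀ * G k * (lc (B k) v * lc (B k) (Θ *ᵥ r))).trace := by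
    intro v r
    let H : Matrix I I ℝ := Matrix.of fun i j => r j / wt κ x j * v i
    have hH : ∀ k j, lc (B k) (fun i => H i j) = (r j / wt κ x j) • lc (B k) v := fun k j => by
      rw [← lc_smul]; rfl
    have hcan : ∀ k j, (c k • wt κ x) j * (r j / wt κ x j) = c k * r j := fun k j => by
      have : wt κ x j ≠ 0 := by linarith [(hw j).1]
      simp only [Pi.smul_apply, smul_eq_mul]
      field_simp
    have e1 : ∀ k, TB (B k) Θ H (c k • wt κ x) 1 = c k • (lc (B k) (Θ *ᵥ r) * lc (B k) v) := by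
      intro k
      simp only [TB, hH, mul_one, mul_smul_comm, smul_smul, hcan, lc_mulVec, Finset.sum_mul,
        Finset.smul_sum, smul_mul_assoc]
    have e2 : ∀ k, TB (B k) H Θ (c k • wt κ x) 1 = c k • (lc (B k) v * lc (B k) (Θ *ᵥ r)) := by
      intro k
      simp only [TB, hH, mul_one, mul_smul_comm, smul_smul, hcan, lc_mulVec, Finset.mul_sum,
        Finset.smul_sum, smul_mul_assoc]
    have e3 : ∑ j, wt κ x j * ∑ i, H i j * (1 - Θ) i j = v ⬝ᵥ r - v ⬝ᵥ Θ *ᵥ r := by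
      rw [← dotProduct_sub, show r - Θ *ᵥ r = (1 - Θ) *ᵥ r by rw [sub_mulVec, one_mulVec]]
      simp only [dotProduct, mulVec, Finset.mul_sum]
      rw [Finset.sum_comm]
      refine Finset.sum_congr rfl fun i _ => Finset.sum_congr rfl fun j _ => ?_
      have : wt κ x j ≠ 0 := by linarith [(hw j).1]
      simp only [H, of_apply]
      field_simp
    have e4 : ∀ k, ((G k)ᵀ * G k * (lc (B k) (Θ *ᵥ r) * lc (B k) v)).trace =
        ((G k)ᵀ * G k * (lc (B k) v * lc (B k) (Θ *ᵥ r))).trace := fun k => by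
      rw [← trace_transpose, transpose_mul, transpose_mul, transpose_mul, lc_symm (hB k),
        lc_symm (hB k), transpose_transpose, trace_mul_comm]
    refine le_of_eps (t := ∑ k, ((G k)ᵀ * G k).trace / 2) fun ε hε => ?_
    choose U hU hU2 using fun k => hsolve k (TB (B k) Θ H (c k • wt κ x) 1 +
      TB (B k) H Θ (c k • wt κ x) 1 + ε • 1) (by
        rw [transpose_add, transpose_add, TB_symm (hB k) _ _ _ transpose_one,
          TB_symm (hB k) _ _ _ transpose_one, transpose_smul, transpose_one,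
          add_comm (TB (B k) H Θ _ _)])
    have := fo_obj h hζ hp hμ hx H hU fun k => fo_feas (by
      rw [hU2]
      convert (PD_one (D := D)).smul hε using 1
      abel)
    simp only [hadj, hU2, e1, e2, e3, mul_add, trace_add, mul_smul_comm, trace_smul, smul_eq_mul,
      mul_one, e4, Finset.sum_add_distrib] at this
    rw [← Finset.sum_div, ← Finset.mul_sum _ _ ε] at *
    linarith
  have hQ : ∀ r, QQ B G c (Θ *ᵥ r) ≤ Θ *ᵥ r ⬝ᵥ r - Θ *ᵥ r ⬝ᵥ Θ *ᵥ r := fun r => by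
    have := hst ((-1 : ℝ) • Θ *ᵥ r) r
    simp only [lc_smul, smul_mul_assoc, mul_smul_comm, trace_smul, smul_eq_mul, smul_dotProduct,
      trace_sq_eq (lc_symm (hB _) _), neg_mul, one_mul, mul_neg, Finset.sum_neg_distrib] at this
    unfold QQ
    linarith
  have hQ0 : ∀ k v, c k * frob (G k * lc (B k) v) ≤ QQ B G c v := fun k v =>
    Finset.single_le_sum (f := fun k => c k * frob (G k * lc (B k) v))
      (fun k _ => mul_nonneg (hc0 k).le (frob_nonneg _)) (Finset.mem_univ k)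
  have hQn : ∀ v, 0 ≤ QQ B G c v := fun v =>
    Finset.sum_nonneg fun k _ => mul_nonneg (hc0 k).le (frob_nonneg _)
  have hsq : ∀ k (v : I → ℝ), (Θ * diagonal fun j => √((c k • wt κ x) j)) *ᵥ v =
      √(c k) • Θ *ᵥ fun j => √(wt κ x j) * v j := fun k v => by
    rw [← mulVec_mulVec, ← mulVec_smul]
    congr 1
    funext j
    simp only [mulVec_diagonal, Pi.smul_apply, smul_eq_mul, Real.sqrt_mul (hc0 k).le, mul_assoc]
  have hsq2 : ∀ v : I → ℝ, (fun j => √(wt κ x j) * v j) ⬝ᵥ (fun j => √(wt κ x j) * v j) ≤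
      2 * (v ⬝ᵥ v) := fun v => by
    simp only [dot_eq_sq, Finset.mul_sum, mul_pow]
    refine Finset.sum_le_sum fun j _ => ?_
    rw [Real.sq_sqrt (by linarith [(hw j).1])]
    exact mul_le_mul_of_nonneg_right (hw j).2 (sq_nonneg _)
  choose N hN hN2 using fun k => block_bound (G := G k) (ζ := ζ k) (p := p k) (θ := θ) (l := l k)
    (Γ := Θ * diagonal fun j => √((c k • wt κ x) j)) (c := 2 * c k) (hB k)
    (by rw [← TB_eq_TT _ _ (hg k)]; exact hρ k) (hμ k) (hlow k) (fun v => by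
      rw [hsq, smul_dotProduct, dotProduct_smul, smul_eq_mul, smul_eq_mul, ← mul_assoc,
        Real.mul_self_sqrt (hc0 k).le, mul_comm 2, mul_assoc]
      refine mul_le_mul_of_nonneg_left (le_trans ?_ (hsq2 v)) (hc0 k).le
      generalize (fun j => √(wt κ x j) * v j) = r
      have a1 := (hQn _).trans (hQ r)
      have a2 := dot_nonneg (Θ *ᵥ r - r)
      simp only [sub_dotProduct, dotProduct_sub, dotProduct_comm r (Θ *ᵥ r)] at a2
      linarith) (by linarith [hc0 k]) (hsm k) (n1 k) (fun v => by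
      rw [hsq, lc_smul, mul_smul_comm, frob_eq_trace, transpose_smul, smul_mul_assoc,
        mul_smul_comm, smul_smul, Real.mul_self_sqrt (hc0 k).le, trace_smul, ← frob_eq_trace,
        smul_eq_mul]
      have a0 := hsq2 v
      generalize (fun j => √(wt κ x j) * v j) = r at a0
      have a1 := (hQ0 k _).trans (hQ r)
      have a2 := dot_nonneg ((2 : ℝ) • Θ *ᵥ r - r)
      simp only [sub_dotProduct, dotProduct_sub, dotProduct_comm r (Θ *ᵥ r), smul_dotProduct,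
        dotProduct_smul, smul_eq_mul] at a2
      linarith) (by rw [← TB_eq_TT _ _ (hg k)]; exact hl k)
  choose Us hUs hUs2 using fun k i => hsolve k (B k i - (2 * c k * κ * x i) •
    (lc (B k) (fun a => Θ a i) * lc (B k) fun a => Θ a i)) (by
      rw [transpose_sub, transpose_smul, transpose_mul, lc_symm (hB k), hB])
  let S : K → (I → ℝ) →ₗ[ℝ] (D × D → ℝ) := fun k =>
    { toFun := fun y q => lc (Us k) y q.1 q.2
      map_add' := fun y y' => by funext q; rw [lc_add]; rfl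
      map_smul' := fun a y => by funext q; rw [lc_smul]; rfl }
  obtain ⟨M, hM, hM2⟩ := cod_iInf (fun k => (N k).comap (S k)) _ fun k => (hN k).comap _
  refine ⟨G, hQ, ?_, M, hM, fun y hy hyW hyf => ?_⟩
  · rw [injective_iff_map_eq_zero]
    intro r hr
    have := hst r r
    rw [mulVecLin_apply] at hr
    simp only [hr, lc_zero, mul_zero, trace_zero, Finset.sum_const_zero, dotProduct_zero,
      sub_zero] at this
    exact dotProduct_self_eq_zero.1 (le_antisymm this (dot_nonneg r))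
  have hU : ∀ k, (lc (Us k) y)ᵀ = lc (Us k) y := fun k => lc_symm (hUs k) y
  have hU2 : ∀ k, lc (Us k) y - TB (B k) Θ Θ (c k • wt κ x) (lc (Us k) y) =
      lc (B k) y - TB (B k) Θ Θ (fun j => 2 * c k * κ * (x j * y j)) 1 := by
    intro k
    have := hUs2 k
    rw [TB_eq_TT _ _ (hg k)] at this ⊢
    rw [TT_lc, lc, lc, TB, ← Finset.sum_sub_distrib, ← Finset.sum_sub_distrib]
    refine Finset.sum_congr rfl fun i _ => ?_
    rw [← smul_sub, this, mul_one]
    module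
  have hb := fun k => hN2 k (lc (Us k) y) (hM2 y hy k)
  simp only [← TB_eq_TT _ _ (hg _), hU2] at hb
  obtain ⟨U, hUd⟩ : ∃ U : K → Matrix D D ℝ, ∀ k, lc (Us k) y = U k := ⟨_, fun _ => rfl⟩
  simp only [hUd] at hU hU2 hb
  refine le_of_eps (t := ∑ k, ((G k)ᵀ * G k).trace) fun ε hε => ?_
  choose V hV hV2 using fun k => hsolve k (U k * U k -
    TB (B k) Θ Θ (fun j => 2 * c k * κ * (x j * y j)) (U k) -
    TB (B k) Θ Θ (fun j => c k * κ * y j ^ 2) 1 + ε • 1) (by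
      rw [transpose_add, transpose_sub, transpose_sub, TB_symm (hB k) _ _ _ transpose_one,
        TB_symm (hB k) _ _ _ (hU k), transpose_smul, transpose_one, transpose_mul, hU])
  have a0 := second h hζ hp hμ hx hyW hyf hU hV hU2 fun k => by
    rw [hV2]
    convert (PD_one (D := D)).smul hε using 1
    abel
  have a1 : ∀ k, ((p k : ℝ) - 1) / 2 * (μ k * (diagonal (ζ k) ^ p k * (U k * U k)).trace) +
      μ k * (diagonal (ζ k) ^ p k * V k).trace ≤ 15 / c₀ * (c k * frob (G k *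
        (lc (B k) y - TB (B k) Θ Θ (fun j => 2 * c k * κ * (x j * y j)) 1))) -
      κ * ∑ j, y j ^ 2 * (c k * frob (G k * lc (B k) fun i => Θ i j) / 2) +
      ε * ((G k)ᵀ * G k).trace := by
    intro k
    have hρ0 : ∀ u, 0 ≤ qf ((G k)ᵀ * G k) u := fun u => by
      have := qf_conj 1 (G k) u
      rw [mul_one, qf_one] at this
      rw [this]; exact dot_nonneg _
    have hT0 : ∀ u, 0 ≤ qf (TB (B k) Θ Θ (c k • wt κ x) ((G k)ᵀ * G k)) u := by
      rw [TB_eq_TT _ _ (hg k)]; exact TT_nonneg (hB k) _ hρ0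
    have b7 : μ k * (diagonal (ζ k) ^ p k * (U k * U k)).trace ≤ frob (G k * U k) := by
      have a2 : 0 ≤ (TB (B k) Θ Θ (c k • wt κ x) ((G k)ᵀ * G k) * (U k * U k)).trace := by
        rw [← mul_assoc, trace_mul_comm, ← mul_assoc]
        nth_rewrite 1 [← hU k]
        rw [trace_conj]
        exact Finset.sum_nonneg fun j _ => hT0 _
      rw [← smul_eq_mul, ← trace_smul, ← smul_mul_assoc, ← hρ, sub_mul, trace_sub,
        trace_sq_eq (hU k)]
      linarith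
    have b8 : ∑ j, (c k • wt κ x) j * frob (G k * (lc (B k) (fun i => Θ i j) * U k)) ≤
        frob (G k * U k) := by
      have a2 := sum_frob_TT (Γ := Θ * diagonal fun j => √((c k • wt κ x) j)) (hB k) (G k) (U k)
      rw [← TB_eq_TT _ _ (hg k)] at a2
      have a3 : ∑ j, qf (TB (B k) Θ Θ (c k • wt κ x) ((G k)ᵀ * G k)) (fun i => U k i j) ≤
          frob (G k * U k) := by
        rw [frob_mul]
        refine Finset.sum_le_sum fun j _ => sub_nonneg.1 ?_
        rw [← qf_sub, hρ, diagonal_pow]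
        exact ((PD_diagonal fun e => pow_pos (hζ k e) _).smul (hμ k)).nonneg _
      rw [← a2] at a3
      refine le_trans (le_of_eq (Finset.sum_congr rfl fun j _ => ?_)) a3
      rw [lc_col, smul_mul_assoc, mul_smul_comm, frob_eq_trace (_ • _), transpose_smul,
        smul_mul_assoc, mul_smul_comm, smul_smul, Real.mul_self_sqrt (hg k j), trace_smul,
        ← frob_eq_trace, smul_eq_mul]
    have c1 : -((G k)ᵀ * G k * TB (B k) Θ Θ (fun j => 2 * c k * κ * (x j * y j)) (U k)).trace ≤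
        2 * frob (G k * U k) +
          κ * ∑ j, y j ^ 2 * (c k * frob (G k * lc (B k) fun i => Θ i j) / 2) := by
      refine le_trans ?_ (add_le_add_left (mul_le_mul_of_nonneg_left b8 zero_le_two) _)
      rw [TB, Finset.mul_sum, trace_sum, Finset.mul_sum, Finset.mul_sum, ← Finset.sum_neg_distrib,
        ← Finset.sum_add_distrib]
      refine Finset.sum_le_sum fun j _ => ?_
      have hs := lc_symm (hB k) fun i => Θ i j
      generalize (lc (B k) fun i => Θ i j) = b at hs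
      have a2 := trace_le_frob ((-y j) • (G k * b)) (x j • (G k * (b * U k))) (s := 1 / 2)
        (by norm_num)
      have a3 : ((G k)ᵀ * G k * (b * U k * b)).trace = ((G k * b)ᵀ * (G k * (b * U k))).trace := by
        rw [transpose_mul, hs, ← mul_assoc, trace_mul_comm]
        simp only [mul_assoc]
      have a4 : ∀ (a : ℝ) (M : Matrix D D ℝ), frob (a • M) = a ^ 2 * frob M := fun a M => by
        simp only [frob, Matrix.smul_apply, smul_eq_mul, mul_pow, Finset.mul_sum]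
      rw [a4, a4, transpose_smul, smul_mul_assoc, mul_smul_comm, trace_smul, trace_smul] at a2
      rw [mul_smul_comm, trace_smul, a3]
      simp only [smul_eq_mul, Pi.smul_apply] at a2 ⊢
      have a5 : κ * x j ^ 2 ≤ wt κ x j := by
        have : x j ^ 2 ≤ 1 := by rw [← sq_abs]; exact pow_le_one₀ (abs_nonneg _) (hx j)
        nlinarith [(hw j).1]
      have a6 := mul_le_mul_of_nonneg_left a2 (mul_nonneg (hc0 k).le hκ)
      have a7 := mul_le_mul_of_nonneg_right a5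
        (mul_nonneg (hc0 k).le (frob_nonneg (G k * (b * U k))))
      nlinarith
    have c2 : ((G k)ᵀ * G k * TB (B k) Θ Θ (fun j => c k * κ * y j ^ 2) 1).trace =
        2 * (κ * ∑ j, y j ^ 2 * (c k * frob (G k * lc (B k) fun i => Θ i j) / 2)) := by
      rw [TB, Finset.mul_sum, trace_sum, Finset.mul_sum, Finset.mul_sum]
      refine Finset.sum_congr rfl fun j _ => ?_
      rw [mul_one, mul_smul_comm, trace_smul, trace_sq_eq (lc_symm (hB k) _), smul_eq_mul]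
      ring
    rw [hadj k (V k), hV2, mul_add, mul_sub, mul_sub, trace_add, trace_sub, trace_sub, c2,
      trace_sq_eq (hU k), mul_smul_comm, mul_one, trace_smul, smul_eq_mul]
    have b9 := mul_le_mul_of_nonneg_left b7 (by linarith [hp' k] : (0 : ℝ) ≤ ((p k : ℝ) - 1) / 2)
    have b10 := mul_le_mul_of_nonneg_left (hb k) (by linarith [hp' k] : (0 : ℝ) ≤ 3 * (p k : ℝ))
    have b11 := mul_nonneg (sub_nonneg.2 (hp' k)) (frob_nonneg (G k * U k))
    have b12 : ∀ z : ℝ, 15 / c₀ * (c k * z) = 3 * p k * (5 * z) := fun z => by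
      rw [hc]; field_simp; ring
    rw [b12]
    linarith
  have a2 := a0.trans (Finset.sum_le_sum fun k _ => a1 k)
  rw [Finset.sum_add_distrib, Finset.sum_sub_distrib, ← Finset.mul_sum, ← Finset.mul_sum,
    ← Finset.mul_sum, Finset.sum_comm] at a2
  simp only [← Finset.mul_sum, ← Finset.sum_div] at a2
  simp only [mul_add, Finset.sum_add_distrib, QQ]
  linarith

end Pool.Agent.P.MP_1157dd_an.N

/-! The variational problem and its minimiser. -/

namespace Pool.Agent.P.MP_1157dd_an.N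

open Matrix Filter Topology

variable {D I K : Type} [Fintype D] [Fintype I] [Fintype K] [DecidableEq D] [DecidableEq I]

/-- symmetric traceless families with symmetric numerical range -/
def Bal (A : I → Matrix D D ℝ) : Prop :=
  (∀ i, (A i)ᵀ = A i) ∧ (∀ i, (A i).trace = 0) ∧
    ∀ (y : I → ℝ) (s : ℝ), (∀ u, qf (lc A y) u ≤ s * (u ⬝ᵥ u)) → ∀ u, -qf (lc A y) u ≤ s * (u ⬝ᵥ u)

/-- the constraint of one block -/
def Con (A : I → Matrix D D ℝ) (y : I → ℝ) (Θ : Matrix I I ℝ) (g : I → ℝ) (Z : Matrix D D ℝ) :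
    Prop :=
  Zᵀ = Z ∧ ∀ u v, 2 * (u ⬝ᵥ v) ≤ qf (1 - lc A y - TB A Θ Θ g Z) u + qf Z v

omit [DecidableEq D] [DecidableEq I] in
lemma TB_conj (A : I → Matrix D D ℝ) (Y : Matrix D D ℝ) (Θ : Matrix I I ℝ) (g : I → ℝ)
    (U : Matrix D D ℝ) :
    TB (fun i => Yᵀ * A i * Y) Θ Θ g U = Yᵀ * TB A Θ Θ g (Y * U * Yᵀ) * Y := by
  simp only [TB, lc_conj]
  simp only [Finset.mul_sum, Finset.sum_mul, mul_assoc, mul_smul_comm, smul_mul_assoc]

lemma scal1 {t : ℝ} (ht : 0 < t) {p : ℕ} (hp : 1 ≤ p) :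
    (if 1024 < t then 2 * t else 0) * 1024 ^ p ≤ 4096 * (t ^ p - 1 - p * (1 - t⁻¹)) := by
  have h1 := one_add_mul_le_pow (a := t - 1) (by linarith) p
  rw [add_sub_cancel] at h1
  have hp' : (1 : ℝ) ≤ p := by exact_mod_cast hp
  have h2 : 0 < t⁻¹ := inv_pos.2 ht
  split_ifs with h
  · obtain ⟨q, rfl⟩ := Nat.exists_eq_add_of_le' hp
    have h3 : (1024 : ℝ) ^ q ≤ t ^ q := pow_le_pow_left₀ (by norm_num) h.le q
    have h4 := mul_le_mul_of_nonneg_right h3 ht.le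
    rw [← pow_succ] at h4
    rw [pow_succ (1024 : ℝ)]
    nlinarith [mul_pos (lt_of_lt_of_le one_pos hp') h2, mul_le_mul_of_nonneg_left h.le
      (le_trans zero_le_one hp')]
  · have h3 : 1 - t⁻¹ ≤ t - 1 := by
      have : t * t⁻¹ = 1 := mul_inv_cancel₀ ht.ne'
      nlinarith [sq_nonneg (t - 1), mul_nonneg h2.le (sq_nonneg (t - 1))]
    nlinarith

lemma Con.facts {A : I → Matrix D D ℝ} {y g : I → ℝ} {Θ : Matrix I I ℝ} {Z : Matrix D D ℝ}
    (h : Con A y Θ g Z) (hA : Bal A) (hg : ∀ j, 0 ≤ g j) {p : ℕ} (hp : 1 ≤ p) :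
    (∀ u, 0 ≤ qf Z u) ∧ (∀ u, qf (lc A y) u ≤ u ⬝ᵥ u) ∧
    ∃ (Y H : Matrix D D ℝ) (ζ : D → ℝ), Yᵀ * Y = diagonal ζ ∧ Y * Yᵀ = Z ∧ Y * H = 1 ∧ H * Y = 1 ∧
      (∀ e, 1 ≤ 2 * ζ e) ∧ 0 ≤ (Z ^ p).trace - Fintype.card D ∧
      (∑ e, if 1024 < ζ e then TB (fun i => Yᵀ * A i * Y) Θ Θ g 1 e e else 0) * 1024 ^ p ≤
        4096 * ((Z ^ p).trace - Fintype.card D) := by
  obtain ⟨hs, h4⟩ := h
  have a1 : ∀ u, 0 ≤ qf Z u := fun u => by simpa [qf] using h4 0 u
  have a2 : ∀ u, 0 ≤ u ⬝ᵥ u - qf (lc A y) u - qf (TB A Θ Θ g Z) u := fun u => by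
    have := h4 u 0
    rw [qf_sub, qf_sub, qf_one] at this
    simpa [qf] using this
  have a3 : ∀ u, 0 ≤ qf (TB A Θ Θ g Z) u := by
    rw [TB_eq_TT _ _ hg]; exact TT_nonneg hA.1 _ a1
  have a4 : ∀ u, qf (lc A y) u ≤ 1 * (u ⬝ᵥ u) := fun u => by linarith [a2 u, a3 u]
  have a5 := hA.2.2 _ _ a4
  have hPD : PD Z := by
    refine ⟨1 / 2, by norm_num, fun v => ?_⟩
    have c1 := h4 ((1 / 2 : ℝ) • v) v
    have c2 := a3 ((1 / 2 : ℝ) • v)
    have c3 := a5 ((1 / 2 : ℝ) • v)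
    rw [qf_sub, qf_sub, qf_one] at c1
    simp only [smul_dotProduct, dotProduct_smul, smul_eq_mul] at c1 c3
    linarith
  obtain ⟨Y, H, ζ, hζ, h1, h2, h3, h5⟩ := spec_pos hs hPD
  have hYe : ∀ e, Y *ᵥ Pi.single e 1 ⬝ᵥ Y *ᵥ Pi.single e 1 = ζ e := fun e => by
    rw [← qf_one, ← qf_conj, mul_one, h1, qf_single, diagonal_apply_eq]
  have b1 : ∀ e, 1 ≤ ζ e - qf (lc A y) (Y *ᵥ Pi.single e 1) := fun e => by
    have c1 := h4 (Y *ᵥ Pi.single e 1) (Hᵀ *ᵥ Pi.single e 1)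
    have c3 : Yᵀ *ᵥ Hᵀ *ᵥ Pi.single e (1 : ℝ) = Pi.single e 1 := by
      rw [mulVec_mulVec, ← transpose_mul, h5, transpose_one, one_mulVec]
    have c4 : qf Z (Hᵀ *ᵥ Pi.single e 1) = 1 := by
      have := qf_conj 1 Yᵀ (Hᵀ *ᵥ Pi.single e 1)
      rw [transpose_transpose, mul_one, h2, c3, qf_single, one_apply_eq] at this
      exact this
    have c5 : Y *ᵥ Pi.single e 1 ⬝ᵥ Hᵀ *ᵥ Pi.single e (1 : ℝ) = 1 := by
      rw [← vecMul_transpose, ← dotProduct_mulVec, c3]; simp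
    rw [c4, c5, qf_sub, qf_sub, qf_one, hYe] at c1
    linarith [a3 (Y *ᵥ Pi.single e 1)]
  have b2 : 0 ≤ ∑ e, (1 - (ζ e)⁻¹) := by
    have c1 : Y * diagonal (fun e => (ζ e)⁻¹) * Yᵀ = 1 := by
      have : diagonal (fun e => (ζ e)⁻¹) * Yᵀ = H := by
        rw [← mul_one (_ * Yᵀ), ← h3, ← mul_assoc, mul_assoc _ Yᵀ, h1, diagonal_mul_diagonal]
        simp [(hζ _).ne']
      rw [mul_assoc, this, h3]
    have c2 : ∑ e, (ζ e)⁻¹ * qf (lc A y) (Y *ᵥ Pi.single e 1) = 0 := by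
      have : (diagonal (fun e => (ζ e)⁻¹) * (Yᵀ * lc A y * Y)).trace = 0 := by
        rw [← mul_assoc, trace_mul_comm, ← mul_assoc, ← mul_assoc, c1, one_mul, lc,
          trace_sum]
        simp [hA.2.1]
      rw [← this]
      simp only [trace, diag_apply, diagonal_mul, ← qf_conj, qf_single]
    rw [← c2]
    refine Finset.sum_le_sum fun e _ => ?_
    have := mul_le_mul_of_nonneg_left (b1 e) (inv_pos.2 (hζ e)).le
    rw [mul_sub, inv_mul_cancel₀ (hζ e).ne'] at this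
    linarith
  have b3 : (Z ^ p).trace - Fintype.card D = ∑ e, (ζ e ^ p - 1) := by
    rw [← h2, trace_pow_comm, h1, diagonal_pow, trace_diagonal, Finset.sum_sub_distrib]
    simp
  have b4 : (∑ e, if 1024 < ζ e then 2 * ζ e else 0) * 1024 ^ p ≤
      4096 * ((Z ^ p).trace - Fintype.card D) := by
    have := Finset.sum_le_sum fun e (_ : e ∈ Finset.univ) => scal1 (hζ e) hp
    rw [← Finset.sum_mul, ← Finset.mul_sum, Finset.sum_sub_distrib, ← Finset.mul_sum, ← b3] at this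
    nlinarith [mul_nonneg (Nat.cast_nonneg (α := ℝ) p) b2]
  refine ⟨a1, fun u => by linarith [a4 u], Y, H, ζ, h1, h2, h3, h5, fun e => ?_, ?_,
    le_trans (mul_le_mul_of_nonneg_right (Finset.sum_le_sum fun e _ => ?_) (by positivity)) b4⟩
  · linarith [b1 e, a5 (Y *ᵥ Pi.single e 1), hYe e]
  · have : 0 ≤ (∑ e, if 1024 < ζ e then 2 * ζ e else 0) * 1024 ^ p :=
      mul_nonneg (Finset.sum_nonneg fun e _ => by have := hζ e; split_ifs <;> positivity)
        (by positivity)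
    linarith
  · split_ifs
    · rw [TB_conj, mul_one, h2, ← qf_single (Yᵀ * _ * Y), qf_conj]
      linarith [a2 (Y *ᵥ Pi.single e 1), a5 (Y *ᵥ Pi.single e 1), hYe e]
    · exact le_rfl

lemma scal2 {a : ℝ} (h0 : 0 ≤ a) (h1 : a ≤ 1) (p : ℕ) : (1 + a) ^ p ≤ 1 + p * 2 ^ p * a := by
  induction p with
  | zero => simp
  | succ p ih =>
    rw [pow_succ, pow_succ]
    push_cast
    have h2 : (1 : ℝ) ≤ 2 ^ p := one_le_pow₀ one_le_two
    have h3 : (0 : ℝ) ≤ p * 2 ^ p * a := by positivity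
    nlinarith [mul_le_mul_of_nonneg_right ih (by linarith : 0 ≤ 1 + a), mul_nonneg h0 (sub_nonneg.2 h2),
      mul_nonneg h3 (sub_nonneg.2 h1)]

lemma exists_init {A : I → Matrix D D ℝ} (hA : ∀ i, (A i)ᵀ = A i) {g : I → ℝ} {c s : ℝ}
    (hc : 0 ≤ c) (hg0 : ∀ j, 0 ≤ g j) (hg : ∀ j, g j ≤ 2 * c) (hs : ∀ u, vr A u ≤ s * (u ⬝ᵥ u))
    (hcs : c * s ≤ 1 / 12) (p : ℕ) : ∃ Z, Con A 0 1 g Z ∧
      (Z ^ p).trace - Fintype.card D ≤ p * (2 ^ p * (6 * c * ∑ i, frob (A i))) := by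
  have hV : ∀ u, qf (∑ i, A i * A i) u = vr A u := fun u => by
    rw [qf_sum]
    exact Finset.sum_congr rfl fun i _ => by rw [qf, ← mulVec_mulVec, symm_dot (hA i)]
  obtain ⟨O, a, h1, h2, h3⟩ := spec (Z := (6 * c) • ∑ i, A i * A i)
    (by simp [transpose_sum, transpose_mul, hA])
  have hq : ∀ b u, qf (O * diagonal b * Oᵀ) u = ∑ e, b e * (Oᵀ *ᵥ u) e ^ 2 := fun b u => by
    rw [← qf_diagonal, ← qf_conj, transpose_transpose]
  have hd : ∀ u v, u ⬝ᵥ v = ∑ e, (Oᵀ *ᵥ u) e * (Oᵀ *ᵥ v) e := fun u v => by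
    change _ = Oᵀ *ᵥ u ⬝ᵥ Oᵀ *ᵥ v
    rw [dotProduct_mulVec, vecMul_transpose, mulVec_mulVec, h2, one_mulVec]
  have hvr : ∀ u, 0 ≤ vr A u := fun u => Finset.sum_nonneg fun i _ => dot_nonneg _
  have ha : ∀ e, 0 ≤ a e ∧ a e ≤ 1 / 2 := fun e => by
    have b1 := hV (O *ᵥ Pi.single e 1)
    have b2 : qf ((6 * c) • ∑ i, A i * A i) (O *ᵥ Pi.single e 1) = a e := by
      rw [h3, ← qf_conj, ← mul_assoc, ← mul_assoc, h1, one_mul, mul_assoc, h1, mul_one, qf_single,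
        diagonal_apply_eq]
    have b3 := hs (O *ᵥ Pi.single e 1)
    rw [← qf_one (O *ᵥ _), ← qf_conj, mul_one, h1, qf_single, one_apply_eq] at b3
    rw [qf_smul, b1] at b2
    rw [← b2]
    exact ⟨mul_nonneg (by linarith) (hvr _), by nlinarith⟩
  refine ⟨O * diagonal (fun e => 1 + a e) * Oᵀ, ⟨by
    simp only [transpose_mul, transpose_transpose, diagonal_transpose, mul_assoc], fun u v => ?_⟩, ?_⟩
  · have b1 : qf (TB A 1 1 g (O * diagonal (fun e => 1 + a e) * Oᵀ)) u ≤ 3 * c * vr A u := by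
      rw [TB, qf_sum, vr, Finset.mul_sum]
      refine Finset.sum_le_sum fun j _ => ?_
      have e : lc A (fun i => (1 : Matrix I I ℝ) i j) = A j := by simp [lc, one_apply]
      have b2 : qf (O * diagonal (fun e => 1 + a e) * Oᵀ) (A j *ᵥ u) ≤
          3 / 2 * (A j *ᵥ u ⬝ᵥ A j *ᵥ u) := by
        rw [hq, hd, Finset.mul_sum]
        exact Finset.sum_le_sum fun e _ => by nlinarith [(ha e).2, sq_nonneg ((Oᵀ *ᵥ A j *ᵥ u) e)]
      rw [e, qf_smul]
      nth_rewrite 1 [← hA j]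
      rw [qf_conj]
      nlinarith [mul_le_mul_of_nonneg_left b2 (hg0 j),
        mul_le_mul_of_nonneg_right (hg j) (dot_nonneg (A j *ᵥ u))]
    have b2 : 6 * c * vr A u = ∑ e, a e * (Oᵀ *ᵥ u) e ^ 2 := by rw [← hq, ← h3, qf_smul, hV]
    have b3 : 2 * (u ⬝ᵥ v) ≤ u ⬝ᵥ u - 1 / 2 * ∑ e, a e * (Oᵀ *ᵥ u) e ^ 2 +
        ∑ e, (1 + a e) * (Oᵀ *ᵥ v) e ^ 2 := by
      rw [hd u v, hd u u, Finset.mul_sum, Finset.mul_sum, ← Finset.sum_sub_distrib,
        ← Finset.sum_add_distrib]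
      refine Finset.sum_le_sum fun e _ => ?_
      obtain ⟨c1, c2⟩ := ha e
      generalize (Oᵀ *ᵥ u) e = α
      generalize (Oᵀ *ᵥ v) e = β
      have c3 : 0 ≤ (1 + a e) * (β - (1 - a e / 2) * α) ^ 2 := by positivity
      have c4 : 0 ≤ a e * (1 - a e) := by nlinarith
      nlinarith [sq_nonneg (α - β), mul_nonneg c1 (sq_nonneg (α - 2 * β)), mul_nonneg c1 (sq_nonneg β),
        mul_nonneg c1 (sq_nonneg α), mul_nonneg (sub_nonneg.2 c2) (sq_nonneg (α - β))]
    rw [lc_zero, sub_zero, qf_sub, qf_one, hq]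
    linarith
  · have b1 : ∑ e, a e = 6 * c * ∑ i, frob (A i) := by
      rw [← trace_diagonal, ← one_mul (diagonal a), ← h1, mul_assoc, trace_mul_comm, ← h3,
        trace_smul, trace_sum, smul_eq_mul]
      simp only [frob_eq_trace, hA]
    rw [trace_pow_comm, ← mul_assoc, h1, one_mul, diagonal_pow, trace_diagonal, ← b1,
      ← mul_assoc, Finset.mul_sum, sub_le_iff_le_add']
    calc _ ≤ ∑ e, (1 + p * 2 ^ p * a e) :=
          Finset.sum_le_sum fun e _ => scal2 (ha e).1 (by linarith [(ha e).2]) p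
      _ = _ := by simp [Finset.sum_add_distrib]

/-- the variables -/
abbrev Pt' (I D K : Type) : Type := (I → ℝ) × Matrix I I ℝ × (K → Matrix D D ℝ)

/-- the feasible set -/
def Feas' (A : K → I → Matrix D D ℝ) (x₀ : I → ℝ) (W : Submodule ℝ (I → ℝ)) (c : K → ℝ) (κ : ℝ)
    (q : Pt' I D K) : Prop :=
  Cube q.1 ∧ q.1 - x₀ ∈ W ∧ ∀ k, Con (A k) (q.1 - x₀) q.2.1 (c k • wt κ q.1) (q.2.2 k)

/-- the objective -/
noncomputable def obj' (p : K → ℕ) (μ : K → ℝ) (κ lam : ℝ) (q : Pt' I D K) : ℝ :=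
  ∑ k, μ k / p k * ((q.2.2 k ^ p k).trace - Fintype.card D) + ∑ j, wt κ q.1 j * pc q.2.1 j -
    lam * ∑ i, q.1 i ^ 2

variable {A : K → I → Matrix D D ℝ} {x₀ : I → ℝ} {W : Submodule ℝ (I → ℝ)} {c μ : K → ℝ}
  {κ lam : ℝ} {p : K → ℕ}

omit [Fintype K] [DecidableEq I] in
lemma isClosed_feas' : IsClosed {q : Pt' I D K | Feas' A x₀ W c κ q} := by
  simp only [Feas', Con, Cube, Set.ofPred_and, Set.ofPred_forall]
  refine (isClosed_iInter fun i => isClosed_le (by fun_prop) continuous_const).inter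
    ((W.closed_of_finiteDimensional.preimage (f := fun q : Pt' I D K => q.1 - x₀)
      (by fun_prop)).inter (isClosed_iInter fun k => (isClosed_eq (by fun_prop) (by fun_prop)).inter
    (isClosed_iInter fun u => isClosed_iInter fun v => isClosed_le continuous_const ?_)))
  simp only [qf, TB, lc, Pi.smul_apply, wt]
  fun_prop

lemma obj'_low (hA : ∀ k, Bal (A k)) (hp : ∀ k, 1 ≤ p k) (hμ : ∀ k, 0 < μ k) (hc : ∀ k, 0 ≤ c k)
    (hκ : 0 ≤ κ) (hκ1 : κ ≤ 1) (hlam : 0 ≤ lam) {q : Pt' I D K} (hq : Feas' A x₀ W c κ q) :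
    (∀ k, 0 ≤ μ k / p k * ((q.2.2 k ^ p k).trace - Fintype.card D)) ∧
    ∑ k, μ k / p k * ((q.2.2 k ^ p k).trace - Fintype.card D) + ∑ j, pc q.2.1 j ≤
      obj' p μ κ lam q + lam * Fintype.card I := by
  have hw := wt_bounds hκ hκ1 hq.1
  refine ⟨fun k => ?_, ?_⟩
  · obtain ⟨-, -, Y, H, ζ, -, -, -, -, -, h, -⟩ := (hq.2.2 k).facts (hA k)
      (fun j => mul_nonneg (hc k) (by linarith [(hw j).1])) (hp k)
    have := hμ k
    positivity
  · have a1 : ∑ j, pc q.2.1 j ≤ ∑ j, wt κ q.1 j * pc q.2.1 j :=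
      Finset.sum_le_sum fun j _ => le_mul_of_one_le_left (pc_nonneg _ _) (hw j).1
    have a2 := mul_le_mul_of_nonneg_left (sum_sq_le hq.1) hlam
    unfold obj'
    linarith

lemma exists_min' (hA : ∀ k, Bal (A k)) (hp : ∀ k, 1 ≤ p k) (hμ : ∀ k, 0 < μ k)
    (hc : ∀ k, 0 ≤ c k) (hκ : 0 ≤ κ) (hκ1 : κ ≤ 1) (hlam : 0 ≤ lam) {q₀ : Pt' I D K}
    (h₀ : Feas' A x₀ W c κ q₀) : ∃ q, Feas' A x₀ W c κ q ∧
      ∀ q', Feas' A x₀ W c κ q' → obj' p μ κ lam q ≤ obj' p μ κ lam q' := by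
  have hcont : Continuous (obj' (I := I) (D := D) p μ κ lam) := by
    unfold obj' pc wt
    fun_prop
  obtain ⟨M, hM⟩ : ∃ M, M = obj' p μ κ lam q₀ + lam * Fintype.card I := ⟨_, rfl⟩
  have hK : IsCompact ({q : Pt' I D K | Feas' A x₀ W c κ q} ∩
      {q | obj' p μ κ lam q ≤ obj' p μ κ lam q₀}) := by
    have hbox : IsCompact ((Set.univ.pi fun _ : I => Set.Icc (-1 : ℝ) 1) ×ˢ
        {Γ : Matrix I I ℝ | ∀ i j, |Γ i j| ≤ 2 + M} ×ˢ
        (Set.univ.pi fun k : K => {Z : Matrix D D ℝ | ∀ i j, |Z i j| ≤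
          1 + Fintype.card D * (1 + (Fintype.card D + M * (p k / μ k))) ^ 2})) :=
      (isCompact_univ_pi fun _ => isCompact_Icc).prod ((compact_box _).prod
        (isCompact_univ_pi fun _ => compact_box _))
    refine hbox.of_isClosed_subset (isClosed_feas'.inter (isClosed_le hcont continuous_const)) ?_
    rintro q ⟨hq, hJ⟩
    obtain ⟨b1, b2⟩ := obj'_low hA hp hμ hc hκ hκ1 hlam hq
    simp only [Set.mem_ofPred_eq] at hJ
    have b3 := Finset.sum_nonneg fun k (_ : k ∈ Finset.univ) => b1 k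
    have b4 := Finset.sum_nonneg fun j (_ : j ∈ Finset.univ) => pc_nonneg q.2.1 j
    refine ⟨fun i _ => abs_le.1 (hq.1 i), fun i j => ?_, fun k _ i j => ?_⟩
    · have c1 := (Finset.single_le_sum (f := fun i => (1 - q.2.1) i j ^ 2) (fun _ _ => sq_nonneg _)
        (Finset.mem_univ i)).trans (Finset.single_le_sum (f := pc q.2.1)
          (fun j _ => pc_nonneg _ j) (Finset.mem_univ j))
      simp only [Matrix.sub_apply, one_apply] at c1
      rw [abs_le]
      split_ifs at c1 <;> constructor <;> nlinarith [sq_nonneg (q.2.1 i j + 1),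
        sq_nonneg (q.2.1 i j - 1), sq_nonneg (q.2.1 i j - 2), sq_nonneg (q.2.1 i j)]
    · have a1 := ((hq.2.2 k).facts (hA k) (fun j => mul_nonneg (hc k)
        (by linarith [(wt_bounds hκ hκ1 hq.1 j).1])) (hp k)).1
      obtain ⟨c0, c1⟩ := psd_bounds (hq.2.2 k).1 a1 (hp k)
      refine (c1 i j).trans ?_
      have c2 := Finset.single_le_sum (f := fun k => μ k / p k *
        ((q.2.2 k ^ p k).trace - Fintype.card D)) (fun k _ => b1 k) (Finset.mem_univ k)
      have hp' : (0 : ℝ) < p k := by exact_mod_cast hp k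
      have := hμ k
      have c3 : (q.2.2 k ^ p k).trace - Fintype.card D ≤ M * (p k / μ k) :=
        calc _ = μ k / p k * ((q.2.2 k ^ p k).trace - Fintype.card D) * (p k / μ k) := by field_simp
          _ ≤ _ := by gcongr; linarith
      gcongr
      linarith
  obtain ⟨q, ⟨hq, hJ⟩, hmin⟩ := hK.exists_isMinOn ⟨q₀, h₀, le_refl (obj' p μ κ lam q₀)⟩
    hcont.continuousOn
  refine ⟨q, hq, fun q' hq' => ?_⟩
  rcases le_total (obj' p μ κ lam q') (obj' p μ κ lam q₀) with h | h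
  · exact hmin ⟨hq', h⟩
  · exact le_trans hJ h

lemma locM_of {q : Pt' I D K} (hq : Feas' A x₀ W c κ q)
    (hmin : ∀ q', Feas' A x₀ W c κ q' → obj' p μ κ lam q ≤ obj' p μ κ lam q')
    {Y H : K → Matrix D D ℝ} {ζ : K → D → ℝ} (h1 : ∀ k, (Y k)ᵀ * Y k = diagonal (ζ k))
    (h2 : ∀ k, Y k * (Y k)ᵀ = q.2.2 k) (h3 : ∀ k, Y k * H k = 1) (h4 : ∀ k, H k * Y k = 1) :
    LocM (fun k i => (Y k)ᵀ * A k i * Y k) ζ q.2.1 q.1 W p μ c κ lam := by
  obtain ⟨x, Θ, Z⟩ := q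
  intro y hy Θ' E a1 a3 a4 a5
  simp only at h2
  have hdot : ∀ k u v, Y k *ᵥ u ⬝ᵥ v = u ⬝ᵥ (Y k)ᵀ *ᵥ v := fun k u v => by
    rw [dotProduct_mulVec u, vecMul_transpose]
  have hqf : ∀ k M v, qf (Y k * M * (Y k)ᵀ) v = qf M ((Y k)ᵀ *ᵥ v) := fun k M v => by
    rw [← qf_conj, transpose_transpose]
  have := hmin (x + y, Θ', fun k => Y k * (1 + E k) * (Y k)ᵀ) ⟨a1, ?_, fun k => ⟨?_, fun u v => ?_⟩⟩
  · simp only [obj', Pi.add_apply, ← h2] at this
    have e : ∀ k, μ k / p k * (((diagonal (ζ k) * (1 + E k)) ^ p k).trace -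
        (diagonal (ζ k) ^ p k).trace) =
        μ k / p k * (((Y k * (1 + E k) * (Y k)ᵀ) ^ p k).trace - Fintype.card D) -
        μ k / p k * (((Y k * (Y k)ᵀ) ^ p k).trace - Fintype.card D) := fun k => by
      rw [trace_pow_comm (Y k * (1 + E k)), ← mul_assoc, h1, trace_pow_comm (Y k), h1]
      ring
    simp only [e, Finset.sum_sub_distrib]
    linarith
  · rw [add_sub_right_comm]
    exact W.add_mem hq.2.1 hy
  · simp only [transpose_mul, transpose_add, transpose_one, transpose_transpose, a3, mul_assoc]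
  · obtain ⟨u, rfl⟩ : ∃ u', u = Y k *ᵥ u' := ⟨H k *ᵥ u, by rw [mulVec_mulVec, h3, one_mulVec]⟩
    have b1 := (hq.2.2 k).2 (Y k *ᵥ u) ((H k)ᵀ *ᵥ u)
    have b2 : (Y k)ᵀ *ᵥ (H k)ᵀ *ᵥ u = u := by
      rw [mulVec_mulVec, ← transpose_mul, h4, transpose_one, one_mulVec]
    have b3 := hqf k 1 ((H k)ᵀ *ᵥ u)
    rw [mul_one, b2, qf_one, h2] at b3
    simp only at b1 ⊢
    rw [hdot, b2, b3] at b1
    rw [hdot, hqf]
    refine (inv_bound (a3 k) (a4 k) u ((Y k)ᵀ *ᵥ v)).trans (add_le_add_left ?_ _)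
    have b4 := a5 k u
    rw [lc_conj, TB_conj, TB_conj, mul_one, h2] at b4
    rw [add_sub_right_comm x y x₀, lc_add]
    simp only [iv, qf_add, qf_sub, qf_smul, qf_one, qf_conj] at b1 b4 ⊢
    linarith

end Pool.Agent.P.MP_1157dd_an.N
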