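import Pool.Agent.P.MP_1157dd_an.N.Ent2

/-! The minimiser has few free coordinates. -/

namespace Pool.Agent.P.MP_1157dd_an.N

open Matrix Filter Topology

variable {D I K : Type} [Fintype D] [Fintype I] [Fintype K] [DecidableEq D] [DecidableEq I]

omit [DecidableEq D] in
lemma tr_bound {Γ : Matrix D D ℝ} {c : ℝ} (hΓ : ∀ v, Γ *ᵥ v ⬝ᵥ Γ *ᵥ v ≤ c * (v ⬝ᵥ v)) (hc : 0 ≤ c)
    (a : D → ℝ) : Γᵀ *ᵥ a ⬝ᵥ Γᵀ *ᵥ a ≤ c * (a ⬝ᵥ a) := by
  rw [dot_eq_sq, dot_eq_sq]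
  exact transpose_bound hΓ hc a

lemma sm_bound {Y : Matrix D D ℝ} {ζ : D → ℝ} (h1 : Yᵀ * Y = diagonal ζ) {θ : ℝ} (hθ : 0 ≤ θ)
    (u : D → ℝ) : (Y * PS ζ θ) *ᵥ u ⬝ᵥ (Y * PS ζ θ) *ᵥ u ≤ θ * (u ⬝ᵥ u) ∧ ∀ M : Matrix D D ℝ,
      (PS ζ θ * (Yᵀ * M * Y) * PS ζ θ) *ᵥ u ⬝ᵥ (PS ζ θ * (Yᵀ * M * Y) * PS ζ θ) *ᵥ u ≤
        θ * (M *ᵥ (Y * PS ζ θ) *ᵥ u ⬝ᵥ M *ᵥ (Y * PS ζ θ) *ᵥ u) := by
  have h2 : ∀ u, (Y * PS ζ θ) *ᵥ u ⬝ᵥ (Y * PS ζ θ) *ᵥ u ≤ θ * (u ⬝ᵥ u) := fun u => by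
    rw [← mulVec_mulVec, ← qf_one, ← qf_conj, mul_one, h1]
    exact qf_PS ζ hθ u
  refine ⟨h2 u, fun M => ?_⟩
  have := tr_bound h2 hθ (M *ᵥ (Y * PS ζ θ) *ᵥ u)
  rw [transpose_mul, show (PS ζ θ)ᵀ = PS ζ θ from diagonal_transpose _] at this
  simpa only [mulVec_mulVec, mul_assoc] using this

theorem opt {A : K → I → Matrix D D ℝ} (hA : ∀ k, Bal (A k)) {p : K → ℕ} (hp : ∀ k, 1 ≤ p k)
    {s c : K → ℝ} (hc : ∀ k, c k = 1024 * p k) (hs0 : ∀ k, 0 ≤ s k)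
    (hs : ∀ k u, vr (A k) u ≤ s k * (u ⬝ᵥ u))
    (hcs : ∀ k, c k * s k ≤ 1 / 2 ^ 25) {κ lam T : ℝ} (hκ : 0 ≤ κ) (hκ1 : κ ≤ 1) (hlam : 0 ≤ lam)
    (W : Submodule ℝ (I → ℝ)) {x₀ : I → ℝ} (hx₀ : Cube x₀)
    (hT : ∑ k, 384 / 8 ^ p k * (c k * ∑ i, frob (A k i)) + lam * Fintype.card I ≤ T) :
    ∃ (x : I → ℝ) (Θ : Matrix I I ℝ) (Y G : K → Matrix D D ℝ) (ζ : K → D → ℝ)
      (B : K → I → Matrix D D ℝ), (∀ k i, B k i = (Y k)ᵀ * A k i * Y k) ∧ Cube x ∧ x - x₀ ∈ W ∧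
      (∀ k u, qf (lc (A k) (x - x₀)) u ≤ u ⬝ᵥ u) ∧ (∀ k, (Y k)ᵀ * Y k = diagonal (ζ k)) ∧
      ∑ j, pc Θ j ≤ T ∧
      (∀ k, ∑ e, (if 1024 < ζ k e then TB (B k) Θ Θ (c k • wt κ x) 1 e e else 0) ≤ 2 * T) ∧
      ∃ N₁, Cod N₁ (4 * T) ∧ (∀ y ∈ N₁, QQ B G c y ≤ y ⬝ᵥ y) ∧
      ∃ N, Cod N (16 * T) ∧ ∀ y ∈ N, y ∈ W → (∀ i, i ∉ free x → y i = 0) →
        lam * (y ⬝ᵥ y) + κ * ∑ j, y j ^ 2 * (pc Θ j + QQ B G c (fun i => Θ i j) / 2) ≤
          15 / 1024 * ∑ k, c k * frob (G k *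
            (lc (B k) y - TB (B k) Θ Θ (fun j => 2 * c k * κ * (x j * y j)) 1)) := by
  have hp' : ∀ k, (1 : ℝ) ≤ p k := fun k => by exact_mod_cast hp k
  have hc0 : ∀ k, 0 ≤ c k := fun k => by rw [hc]; positivity
  have hw := wt_bounds hκ hκ1 hx₀
  choose Z₀ hZ₀ hZ₁ using fun k => exists_init (hA k).1 (g := c k • wt κ x₀) (hc0 k)
    (fun j => mul_nonneg (hc0 k) (by linarith [(hw j).1]))
    (fun j => by rw [mul_comm]; exact mul_le_mul_of_nonneg_left (hw j).2 (hc0 k)) (hs k)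
    ((hcs k).trans (by norm_num)) (p k)
  obtain ⟨μ, hμ⟩ : ∃ μ : K → ℝ, ∀ k, μ k = 64 / 16 ^ p k := ⟨_, fun _ => rfl⟩
  have hμ0 : ∀ k, 0 < μ k := fun k => by rw [hμ]; positivity
  have h₀ : Feas' A x₀ W c κ (x₀, 1, Z₀) :=
    ⟨hx₀, by simp, fun k => by simpa only [sub_self] using hZ₀ k⟩
  obtain ⟨q, hq, hmin⟩ := exists_min' hA hp hμ0 hc0 hκ hκ1 hlam h₀
  obtain ⟨b1, b2⟩ := obj'_low hA hp hμ0 hc0 hκ hκ1 hlam hq
  have b3 : obj' p μ κ lam (x₀, (1 : Matrix I I ℝ), Z₀) ≤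
      ∑ k, 384 / 8 ^ p k * (c k * ∑ i, frob (A k i)) := by
    have a1 : 0 ≤ lam * ∑ i, x₀ i ^ 2 := by positivity
    have a2 : ∑ k, μ k / p k * ((Z₀ k ^ p k).trace - Fintype.card D) ≤
        ∑ k, 384 / 8 ^ p k * (c k * ∑ i, frob (A k i)) := by
      refine Finset.sum_le_sum fun k _ => (mul_le_mul_of_nonneg_left (hZ₁ k)
        (div_nonneg (hμ0 k).le (Nat.cast_nonneg _))).trans (le_of_eq ?_)
      have : (p k : ℝ) ≠ 0 := by linarith [hp' k]
      rw [hμ, show (16 : ℝ) = 2 * 8 by norm_num, mul_pow]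
      field_simp
      ring
    simp only [obj', pc, sub_self, Matrix.zero_apply, ne_eq, OfNat.ofNat_ne_zero, not_false_eq_true,
      zero_pow, Finset.sum_const_zero, mul_zero, add_zero]
    linarith
  have b4 := hmin _ h₀
  have b5 := Finset.sum_nonneg fun k (_ : k ∈ Finset.univ) => b1 k
  have b6 := Finset.sum_nonneg fun j (_ : j ∈ Finset.univ) => pc_nonneg q.2.1 j
  have hw' := wt_bounds hκ hκ1 hq.1
  choose f1 f2 Y H ζ h1 h2 h3 h4 h5 h6 h7 using fun k => (hq.2.2 k).facts (hA k)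
    (fun j => mul_nonneg (hc0 k) (by linarith [(hw' j).1])) (hp k)
  have hl : ∀ k, ∑ e, (if 1024 < ζ k e then TB (fun i => (Y k)ᵀ * A k i * Y k) q.2.1 q.2.1
      (c k • wt κ q.1) 1 e e else 0) ≤
      μ k / 2 ^ p k * (μ k / p k * ((q.2.2 k ^ p k).trace - Fintype.card D)) := fun k => by
    refine le_of_mul_le_mul_right ((h7 k).trans ?_) (by positivity)
    have a1 : (p k : ℝ) ≤ 2 ^ p k := by exact_mod_cast (Nat.lt_two_pow_self).le
    have a2 : (0 : ℝ) < p k := by linarith [hp' k]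
    calc _ ≤ 2 ^ p k / p k * (4096 * ((q.2.2 k ^ p k).trace - Fintype.card D)) :=
          le_mul_of_one_le_left (by linarith [h6 k]) ((one_le_div a2).2 a1)
      _ = _ := by
        rw [hμ, show (1024 : ℝ) = 16 * 16 * 2 * 2 by norm_num, mul_pow, mul_pow, mul_pow]
        field_simp
        ring
  obtain ⟨G, hQ, hinj, N, hN, hN2⟩ := core' (locM_of hq hmin h1 h2 h3 h4)
    (fun k i => by simp only [transpose_mul, transpose_transpose, (hA k).1, mul_assoc]) hp hμ0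
    (by norm_num : (0 : ℝ) < 1024) hc hκ hκ1 hq.1 h5 (θ := 1024) (s := fun k => 2 ^ 20 * s k)
    (fun k u => by
      have a1 := sm_bound (h1 k) (by norm_num : (0 : ℝ) ≤ 1024) u
      have a2 := hs k ((Y k * PS (ζ k) 1024) *ᵥ u)
      have a3 := Finset.sum_le_sum fun i (_ : i ∈ Finset.univ) => a1.2 (A k i)
      rw [← Finset.mul_sum] at a3
      have a4 := mul_le_mul_of_nonneg_left a1.1 (hs0 k)
      unfold vr at a2 ⊢
      linarith) (fun k => by linarith [hcs k]) hl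
  obtain ⟨N₁, hN₁, hN₁'⟩ := markov (IsQ.dot (1 - q.2.1).mulVecLin) (fun _ => dot_nonneg _)
    (b := 1 / 4) (by norm_num)
  refine ⟨q.1, q.2.1, Y, G, ζ, _, fun _ _ => rfl, hq.1, hq.2.1, f2, h1, by linarith,
    fun k => (hl k).trans ?_, N₁.map q.2.1.mulVecLin, (hN₁.map hinj).mono ?_, ?_, N, hN.mono ?_,
    hN2⟩
  · have a1 := Finset.single_le_sum (f := fun k => μ k / p k *
      ((q.2.2 k ^ p k).trace - Fintype.card D)) (fun k _ => b1 k) (Finset.mem_univ k)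
    have a2 : μ k / 2 ^ p k ≤ 2 := by
      rw [hμ, div_div, ← mul_pow, div_le_iff₀ (by positivity)]
      linarith [le_self_pow₀ (by norm_num : (1 : ℝ) ≤ 16 * 2) (by have := hp k; omega : p k ≠ 0)]
    exact mul_le_mul a2 (by linarith) (b1 k) zero_le_two
  · have : ∑ j, (1 - q.2.1).mulVecLin (Pi.single j 1) ⬝ᵥ (1 - q.2.1).mulVecLin (Pi.single j 1) =
        ∑ j, pc q.2.1 j := Finset.sum_congr rfl fun j _ => by
      rw [dot_eq_sq, mulVecLin_apply, mulVec_single_one]; rfl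
    rw [this]
    linarith
  · rintro _ ⟨r, hr, rfl⟩
    have a1 := hN₁' r hr
    have a2 := hQ r
    have a3 := dot_nonneg ((2 : ℝ) • q.2.1 *ᵥ r - r)
    simp only [mulVecLin_apply, sub_mulVec, one_mulVec, sub_dotProduct, dotProduct_sub,
      smul_dotProduct, dotProduct_smul, smul_eq_mul, dotProduct_comm r (q.2.1 *ᵥ r)] at a1 a3 ⊢
    linarith
  · rw [← Finset.mul_sum]
    refine mul_le_mul_of_nonneg_left (le_trans (le_of_eq ?_) (by linarith :
      ∑ k, μ k / p k * ((q.2.2 k ^ p k).trace - Fintype.card D) ≤ T)) (by norm_num)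
    refine Finset.sum_congr rfl fun k _ => ?_
    have := (hμ0 k).ne'
    field_simp

theorem half' {A : K → I → Matrix D D ℝ} (hA : ∀ k, Bal (A k)) {p : K → ℕ} (hp : ∀ k, 1 ≤ p k)
    {s : K → ℝ} (hs0 : ∀ k, 0 ≤ s k) (hs : ∀ k u, vr (A k) u ≤ s k * (u ⬝ᵥ u))
    (hcs : ∀ k, 1024 * p k * s k ≤ 1 / 2 ^ 25) {W : Submodule ℝ (I → ℝ)}
    (hW : Cod W ((Fintype.card I : ℝ) / 8)) {x₀ : I → ℝ} (hx₀ : Cube x₀)
    (hT : ∑ k, 384 / 8 ^ p k * (1024 * p k * ∑ i, frob (A k i)) ≤ (Fintype.card I : ℝ) / 1024) :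
    ∃ x, Cube x ∧ x - x₀ ∈ W ∧ 2 * (free x).card ≤ Fintype.card I ∧
      ∀ k u, qf (lc (A k) (x - x₀)) u ≤ u ⬝ᵥ u := by
  obtain ⟨x, Θ, Y, G, ζ, B, -, hx, hxW, hq, -, -, -, N₁, h1, h2, N, h3, h4⟩ :=
    opt hA hp (fun _ => rfl) hs0 hs hcs (κ := 0) (lam := 1 / 64) le_rfl zero_le_one (by norm_num)
      W hx₀ (T := 17 / 1024 * Fintype.card I) (by linarith)
  refine ⟨x, hx, hxW, ?_, hq⟩
  by_contra hcon
  obtain ⟨N₀, h5, h6⟩ := cod_supp (free x)
  have a1 : (Fintype.card I : ℝ) < 2 * (free x).card := by exact_mod_cast not_le.1 hcon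
  obtain ⟨y, ⟨⟨y0, yW⟩, y1, y2⟩, hy⟩ := ((h5.inf hW).inf (h1.inf h3)).exists_ne (by
    linarith [Nat.cast_nonneg (α := ℝ) (Fintype.card I)])
  have a2 := h4 y y2 yW (h6 y y0)
  have a3 := h2 y y1
  have a4 : 0 < y ⬝ᵥ y :=
    lt_of_le_of_ne (dot_nonneg y) fun h0 => hy (dotProduct_self_eq_zero.1 h0.symm)
  simp only [TB, mul_zero, zero_mul, zero_smul, Finset.sum_const_zero, sub_zero, add_zero] at a2
  unfold QQ at a3
  linarith

end Pool.Agent.P.MP_1157dd_an.N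

/-! Colouring all but `t` coordinates, and the passage to general matrices. -/

namespace Pool.Agent.P.MP_1157dd_an.N

open Matrix Filter Topology

variable {D I : Type} [Fintype D] [Fintype I] [DecidableEq D] [DecidableEq I]

omit [DecidableEq D] in
lemma dot_add_le (a b : D → ℝ) : (a + b) ⬝ᵥ (a + b) ≤ 2 * (a ⬝ᵥ a) + 2 * (b ⬝ᵥ b) := by
  have := dot_nonneg (a - b)
  simp only [add_dotProduct, dotProduct_add, sub_dotProduct, dotProduct_sub] at this ⊢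
  linarith

omit [DecidableEq D] in
lemma frob_add_le (M N : Matrix D D ℝ) : frob (M + N) ≤ 2 * frob M + 2 * frob N := by
  simp only [frob, Finset.mul_sum, ← Finset.sum_add_distrib, Matrix.add_apply]
  exact Finset.sum_le_sum fun i _ => Finset.sum_le_sum fun j _ => by
    nlinarith [sq_nonneg (M i j - N i j)]

omit [DecidableEq D] in
lemma frob_smul (a : ℝ) (M : Matrix D D ℝ) : frob (a • M) = a ^ 2 * frob M := by
  simp only [frob, Matrix.smul_apply, smul_eq_mul, mul_pow, Finset.mul_sum]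

omit [DecidableEq D] in
lemma op_le_frob (M : Matrix D D ℝ) (u : D → ℝ) : M *ᵥ u ⬝ᵥ M *ᵥ u ≤ frob M * (u ⬝ᵥ u) := by
  rw [dot_eq_sq, frob, Finset.sum_mul]
  refine Finset.sum_le_sum fun a _ => (dot_sq_le (M a) u).trans (le_of_eq ?_)
  rw [dot_eq_sq (M a)]

omit [DecidableEq D] [DecidableEq I] in
lemma lc_le_vr (S : I → Matrix D D ℝ) (v : I → ℝ) (u : D → ℝ) :
    lc S v *ᵥ u ⬝ᵥ lc S v *ᵥ u ≤ (∑ i, v i ^ 2) * vr S u := by
  simp only [vr, dot_eq_sq]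
  rw [Finset.sum_comm, Finset.mul_sum]
  refine Finset.sum_le_sum fun e _ => ?_
  simp only [lc, sum_mulVec, smul_mulVec, Finset.sum_apply, Pi.smul_apply, smul_eq_mul]
  exact Finset.sum_mul_sq_le_sq_mul_sq _ _ _

omit [DecidableEq D] in
lemma frob_mul_le (M : Matrix D D ℝ) {b : Matrix D D ℝ} (hb : bᵀ = b) {β : ℝ}
    (h : ∀ u, b *ᵥ u ⬝ᵥ b *ᵥ u ≤ β * (u ⬝ᵥ u)) : frob (M * b) ≤ β * frob M := by
  rw [frob, frob, Finset.mul_sum]
  refine Finset.sum_le_sum fun a _ => ?_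
  have := h (M a)
  rw [dot_eq_sq, dot_eq_sq] at this
  refine le_trans (le_of_eq (Finset.sum_congr rfl fun e _ => ?_)) this
  nth_rewrite 2 [← hb]
  rw [mulVec_transpose]
  rfl

theorem deep' {A : I → Matrix D D ℝ} (hA : Bal A) {p : ℕ} (hp : 1 ≤ p) {s R t : ℝ} (hs0 : 0 ≤ s)
    (hR0 : 0 ≤ R) (ht : 0 < t) (hs : ∀ u, vr A u ≤ s * (u ⬝ᵥ u))
    (hcs : 1024 * p * s ≤ 1 / 2 ^ 25) (hR : ∀ i u, A i *ᵥ u ⬝ᵥ A i *ᵥ u ≤ R * (u ⬝ᵥ u))
    (hcR : (1024 * p) ^ 2 * (2 ^ 20 * R) ≤ 1 / 8) {x₀ : I → ℝ} (hx₀ : Cube x₀)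
    (hT : 384 / 8 ^ p * (1024 * p * ∑ i, frob (A i)) ≤ t / (8192 * p)) :
    ∃ x, Cube x ∧ ((free x).card : ℝ) ≤ t ∧ ∀ u, qf (lc A (x - x₀)) u ≤ u ⬝ᵥ u := by
  have hp' : (1 : ℝ) ≤ p := by exact_mod_cast hp
  obtain ⟨c, hc⟩ : ∃ c : ℝ, c = 1024 * p := ⟨_, rfl⟩
  obtain ⟨T, hTd⟩ : ∃ T : ℝ, T = t / (4096 * p) := ⟨_, rfl⟩
  obtain ⟨lam, hlam⟩ : ∃ lam : ℝ, lam = t / (8192 * p) / (Fintype.card I + 1) := ⟨_, rfl⟩
  have hlam0 : 0 < lam := by rw [hlam]; positivity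
  have hc0 : 0 < c := by rw [hc]; positivity
  have hT0 : 0 < T := by rw [hTd]; positivity
  rw [← hc] at hcs hcR hT
  obtain ⟨x, Θ, Y, G, ζ, B, hB, hx, -, hq, hY, hpc, hl, N₁, h1, h2, N, h3, h4⟩ :=
    opt (K := Unit) (A := fun _ => A) (fun _ => hA) (p := fun _ => p) (fun _ => hp)
      (c := fun _ => c) (fun _ => hc) (s := fun _ => s) (fun _ => hs0) (fun _ => hs)
      (fun _ => hcs) (κ := 1) zero_le_one le_rfl hlam0.le ⊤ hx₀ (T := T) (by
        have a1 : lam * Fintype.card I ≤ t / (8192 * p) := by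
          rw [hlam, div_mul_eq_mul_div, div_le_iff₀ (by positivity)]
          gcongr
          linarith
        have a2 : T = 2 * (t / (8192 * p)) := by rw [hTd]; field_simp; norm_num
        simp only [Finset.univ_unique, Finset.sum_singleton]
        linarith)
  refine ⟨x, hx, ?_, hq ()⟩
  by_contra hcon
  have hcon' := not_le.1 hcon
  simp only [QQ, Finset.univ_unique, Finset.sum_singleton] at h2 h4
  replace hl := hl default
  replace hY := hY default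
  replace hB := hB default
  generalize G default = G at h2 h4
  generalize B default = B at h2 h4 hl hB
  generalize ζ default = ζ at hl hY
  generalize Y default = Y at hY hB
  have hBs : ∀ i, (B i)ᵀ = B i := fun i => by
    simp only [hB, transpose_mul, transpose_transpose, hA.1, mul_assoc]
  have hw := wt_bounds zero_le_one le_rfl hx
  have hg : ∀ j, 0 ≤ (c • wt 1 x) j := fun j => mul_nonneg hc0.le (by linarith [(hw j).1])
  obtain ⟨b, hb⟩ : ∃ b : I → Matrix D D ℝ, ∀ j, b j = lc B fun i => Θ i j := ⟨_, fun _ => rfl⟩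
  obtain ⟨P, hP⟩ : ∃ P, P = PS ζ 1024 := ⟨_, rfl⟩
  have hrest : ∑ j, c * frob (b j - P * b j * P) ≤ 4 * T := by
    have a1 := rest_part (Γ := Θ * diagonal fun j => √((c • wt 1 x) j)) (ζ := ζ) hBs 1024
    rw [← TB_eq_TT _ _ hg, ← hP] at a1
    refine le_trans ?_ (a1.trans (by linarith))
    calc _ ≤ ∑ j, frob (√((c • wt 1 x) j) • (b j - P * b j * P)) := by
          refine Finset.sum_le_sum fun j _ => ?_
          rw [frob_smul, Real.sq_sqrt (hg j)]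
          exact mul_le_mul_of_nonneg_right (le_mul_of_one_le_right hc0.le (hw j).1) (frob_nonneg _)
      _ = _ := by
          simp only [lc_col, ← hb, mul_smul_comm, smul_mul_assoc, ← smul_sub, frob]
          rw [Finset.sum_comm]
          exact Finset.sum_congr rfl fun _ _ => Finset.sum_comm
  have hβ : ∀ j u, b j *ᵥ u ⬝ᵥ b j *ᵥ u ≤
      (4 * (2 ^ 20 * R) + 4 * (2 ^ 20 * s) * pc Θ j + 2 * frob (b j - P * b j * P)) * (u ⬝ᵥ u) := by
    intro j u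
    have a1 := sm_bound hY (by norm_num : (0 : ℝ) ≤ 1024) u
    rw [← hP] at a1
    have a2 : (P * B j * P) *ᵥ u ⬝ᵥ (P * B j * P) *ᵥ u ≤ 2 ^ 20 * R * (u ⬝ᵥ u) := by
      have := mul_le_mul_of_nonneg_left a1.1 hR0
      rw [hB]
      linarith [a1.2 (A j), hR j ((Y * P) *ᵥ u)]
    have a3 : vr (fun i => P * B i * P) u ≤ 2 ^ 20 * s * (u ⬝ᵥ u) := by
      have a2 := hs ((Y * P) *ᵥ u)
      have a3 := Finset.sum_le_sum fun i (_ : i ∈ Finset.univ) => a1.2 (A i)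
      rw [← Finset.mul_sum] at a3
      have a4 := mul_le_mul_of_nonneg_left a1.1 hs0
      simp only [vr, hB] at a2 ⊢
      linarith
    have a4 := (lc_le_vr (fun i => P * B i * P) (fun i => -(1 - Θ) i j) u).trans
      (mul_le_mul_of_nonneg_left a3 (Finset.sum_nonneg fun _ _ => sq_nonneg _))
    simp only [neg_sq] at a4
    have e : b j = (P * B j * P + lc (fun i => P * B i * P) fun i => -(1 - Θ) i j) +
        (b j - P * b j * P) := by
      have : B j + lc B (fun i => -(1 - Θ) i j) = b j := by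
        rw [hb, show B j = lc B (fun i => (1 : Matrix I I ℝ) i j) by simp [lc, one_apply], ← lc_add]
        congr 1
        funext i
        simp
      rw [lc_sandwich, ← add_mul, ← mul_add, this, add_sub_cancel]
    have a5 := dot_add_le ((P * B j * P) *ᵥ u)
      (lc (fun i => P * B i * P) (fun i => -(1 - Θ) i j) *ᵥ u)
    have a6 := op_le_frob (b j - P * b j * P) u
    nth_rewrite 1 2 [e]
    rw [add_mulVec, add_mulVec]
    refine (dot_add_le _ _).trans ?_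
    unfold pc
    linarith
  let L₁ : (I → ℝ) →ₗ[ℝ] Matrix D D ℝ :=
    { toFun := fun y => G * lc B (Θ *ᵥ y)
      map_add' := fun y z => by rw [mulVec_add, lc_add, mul_add]
      map_smul' := fun a y => by rw [mulVec_smul, lc_smul, mul_smul_comm]; rfl }
  let L₂ : (I → ℝ) →ₗ[ℝ] Matrix D D ℝ :=
    { toFun := fun y => G * TB B Θ Θ (fun j => 2 * c * 1 * (x j * y j)) 1
      map_add' := fun y z => by
        simp only [TB, Pi.add_apply, mul_add, add_smul, Finset.sum_add_distrib]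
      map_smul' := fun a y => by
        rw [RingHom.id_apply, ← mul_smul_comm, ← TB_smulg]
        congr 2
        funext j
        simp only [Pi.smul_apply, smul_eq_mul]
        ring }
  have hm : ∀ j, 0 ≤ c * frob (G * b j) := fun j => mul_nonneg hc0.le (frob_nonneg _)
  obtain ⟨N₂, h5, h6⟩ := markov' ((((IsQ.frob L₁).mul (4 * c)).add
    ((IsQ.dot (1 - Θ).mulVecLin).mul 4)).add ((IsQ.frob L₂).mul (2 * c))) (fun y => by
      have := frob_nonneg (L₁ y)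
      have := frob_nonneg (L₂ y)
      have := dot_nonneg ((1 - Θ).mulVecLin y)
      positivity) (b := 32) (by norm_num) (free x)
    (a := fun j => pc Θ j + c * frob (G * b j) + 2 * lam) fun j => by
      linarith [pc_nonneg Θ j, hm j]
  have h7 : Cod N₂ ((free x).card / 4 + 2080 * p * T) := by
    refine h5.mono ?_
    have a1 : ∀ j, (4 * c * frob (L₁ (Pi.single j 1)) + 4 * ((1 - Θ).mulVecLin (Pi.single j 1) ⬝ᵥ
        (1 - Θ).mulVecLin (Pi.single j 1)) + 2 * c * frob (L₂ (Pi.single j 1))) /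
        (pc Θ j + c * frob (G * b j) + 2 * lam) ≤
        8 + (c * pc Θ j + 16 * c * (c * frob (b j - P * b j * P))) := by
      intro j
      have e1 : L₁ (Pi.single j 1) = G * b j := by
        change G * lc B (Θ *ᵥ Pi.single j 1) = _
        rw [mulVec_single_one, hb]; rfl
      have e2 : (1 - Θ).mulVecLin (Pi.single j 1) ⬝ᵥ (1 - Θ).mulVecLin (Pi.single j 1) = pc Θ j := by
        rw [dot_eq_sq, mulVecLin_apply, mulVec_single_one]; rfl
      have e3 : L₂ (Pi.single j 1) = (2 * c * x j) • (G * b j * b j) := by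
        change G * TB B Θ Θ (fun k => 2 * c * 1 * (x k * (Pi.single j 1 : I → ℝ) k)) 1 = _
        rw [TB, Finset.sum_eq_single j (fun k _ hk => by simp [hk]) (by simp), ← hb]
        simp [mul_assoc]
      have a2 := frob_mul_le (G * b j) (by rw [hb]; exact lc_symm hBs _) (hβ j)
      have a3 : x j ^ 2 ≤ 1 := by rw [← sq_abs]; exact pow_le_one₀ (abs_nonneg _) (hx j)
      have a4 := pc_nonneg Θ j
      have a5 := frob_nonneg (b j - P * b j * P)
      have a6 : 8 * c ^ 2 * (4 * (2 ^ 20 * R) + 4 * (2 ^ 20 * s) * pc Θ j +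
          2 * frob (b j - P * b j * P)) ≤
          4 + (c * pc Θ j + 16 * c * (c * frob (b j - P * b j * P))) := by
        nlinarith [mul_le_mul_of_nonneg_right hcs (mul_nonneg hc0.le a4)]
      have a7 : 2 * c * ((2 * c * x j) ^ 2 * frob (G * b j * b j)) ≤
          (4 + (c * pc Θ j + 16 * c * (c * frob (b j - P * b j * P)))) * (c * frob (G * b j)) :=
        calc _ = 8 * c ^ 3 * (x j ^ 2 * frob (G * b j * b j)) := by ring
          _ ≤ 8 * c ^ 3 * (1 * ((4 * (2 ^ 20 * R) + 4 * (2 ^ 20 * s) * pc Θ j +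
              2 * frob (b j - P * b j * P)) * frob (G * b j))) :=
            mul_le_mul_of_nonneg_left (mul_le_mul a3 a2 (frob_nonneg _) zero_le_one) (by positivity)
          _ = 8 * c ^ 2 * (4 * (2 ^ 20 * R) + 4 * (2 ^ 20 * s) * pc Θ j +
              2 * frob (b j - P * b j * P)) * (c * frob (G * b j)) := by ring
          _ ≤ _ := mul_le_mul_of_nonneg_right a6 (hm j)
      rw [e1, e2, e3, frob_smul, div_le_iff₀ (by linarith [hm j])]
      have a8 : 0 ≤ 4 + (c * pc Θ j + 16 * c * (c * frob (b j - P * b j * P))) := by positivity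
      nlinarith [mul_nonneg a8 a4, mul_nonneg a8 hlam0.le]
    rw [div_le_iff₀ (by norm_num)]
    refine (Finset.sum_le_sum fun j _ => a1 j).trans ?_
    rw [Finset.sum_add_distrib, Finset.sum_const, nsmul_eq_mul]
    have a2 : ∑ j ∈ free x, (c * pc Θ j + 16 * c * (c * frob (b j - P * b j * P))) ≤
        ∑ j, (c * pc Θ j + 16 * c * (c * frob (b j - P * b j * P))) :=
      Finset.sum_le_sum_of_subset_of_nonneg (Finset.subset_univ _) fun j _ _ => by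
        have := pc_nonneg Θ j
        have := frob_nonneg (b j - P * b j * P)
        positivity
    rw [Finset.sum_add_distrib (s := Finset.univ), ← Finset.mul_sum, ← Finset.mul_sum] at a2
    have a3 := mul_le_mul_of_nonneg_left hpc hc0.le
    have a4 := mul_le_mul_of_nonneg_left hrest hc0.le
    have a5 : c * T = 1024 * (p * T) := by rw [hc]; ring
    linarith
  obtain ⟨N₀, h8, h9⟩ := cod_supp (free x)
  obtain ⟨y, ⟨⟨y0, y3⟩, y1, y2⟩, hy⟩ :=
    ((h8.inf h7).inf ((h1.comap (1 - Θ).mulVecLin).inf h3)).exists_ne (by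
      have a1 : p * T = t / 4096 := by rw [hTd]; field_simp
      nlinarith [mul_le_mul_of_nonneg_right hp' hT0.le])
  have a1 := h4 y y2 trivial (h9 y y0)
  have a2 := h2 _ y1
  have a3 := h6 y y3 (h9 y y0)
  have a4 : 0 < y ⬝ᵥ y :=
    lt_of_le_of_ne (dot_nonneg y) fun h0 => hy (dotProduct_self_eq_zero.1 h0.symm)
  have a5 := frob_add_le (G * lc B y) ((-1 : ℝ) • L₂ y)
  have a6 := frob_add_le (L₁ y) (G * lc B ((1 - Θ).mulVecLin y))
  have e1 : L₁ y + G * lc B ((1 - Θ).mulVecLin y) = G * lc B y := by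
    change G * lc B (Θ *ᵥ y) + _ = _
    rw [← mul_add, ← lc_add, mulVecLin_apply, sub_mulVec, one_mulVec, add_sub_cancel]
  rw [e1] at a6
  rw [frob_smul, neg_one_smul, ← sub_eq_add_neg] at a5
  rw [mul_sub] at a1
  simp only [← hb] at a1
  have a7 : ∑ j, (pc Θ j + c * frob (G * b j) + 2 * lam) * y j ^ 2 ≤
      2 * (lam * (y ⬝ᵥ y) + ∑ j, y j ^ 2 * (pc Θ j + c * frob (G * b j) / 2)) := by
    rw [dot_eq_sq, Finset.mul_sum, ← Finset.sum_add_distrib, Finset.mul_sum]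
    exact Finset.sum_le_sum fun j _ => by nlinarith [mul_nonneg (pc_nonneg Θ j) (sq_nonneg (y j))]
  have a8 : 0 ≤ ∑ j, y j ^ 2 * (pc Θ j + c * frob (G * b j) / 2) :=
    Finset.sum_nonneg fun j _ => mul_nonneg (sq_nonneg _) (by linarith [pc_nonneg Θ j, hm j])
  have a9 := mul_le_mul_of_nonneg_left a5 hc0.le
  have a10 := mul_le_mul_of_nonneg_left a6 hc0.le
  have a11 := mul_pos hlam0 a4
  change _ ≤ 15 / 1024 * (c * frob (G * lc B y - L₂ y)) at a1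
  linarith

/-- the scaled hermitian dilation -/
def dil (a : ℝ) (M : Matrix D D ℝ) : Matrix (D ⊕ D) (D ⊕ D) ℝ := fromBlocks 0 (a • M) (a • M)ᵀ 0

omit [DecidableEq D] in
lemma qf_dil' (a : ℝ) (M : Matrix D D ℝ) (u v : D → ℝ) :
    qf (dil a M) (Sum.elim u v) = 2 * a * (u ⬝ᵥ M *ᵥ v) := by
  rw [qf, dil, fromBlocks_mulVec]
  simp only [zero_mulVec, zero_add, add_zero, Sum.elim_comp_inl, Sum.elim_comp_inr,
    sumElim_dotProduct_sumElim]
  rw [dotProduct_mulVec v, vecMul_transpose, dotProduct_comm, smul_mulVec, smul_dotProduct,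
    dotProduct_comm, smul_eq_mul]
  ring

omit [Fintype D] [DecidableEq D] [DecidableEq I] in
lemma lc_dil (a : ℝ) (A : I → Matrix D D ℝ) (y : I → ℝ) :
    lc (fun i => dil a (A i)) y = dil a (lc A y) := by
  ext (i | i) (j | j) <;> simp [lc, dil, Matrix.sum_apply, Finset.mul_sum, mul_left_comm]

omit [DecidableEq D] [DecidableEq I] in
lemma bal_dil (a : ℝ) (A : I → Matrix D D ℝ) : Bal fun i => dil a (A i) := by
  refine ⟨fun i => by simp [dil, fromBlocks_transpose], fun i => by simp [dil, trace],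
    fun y s h u => ?_⟩
  have := h (Sum.elim (u ∘ Sum.inl) (-(u ∘ Sum.inr)))
  rw [← Sum.elim_comp_inl_inr u]
  rw [lc_dil, qf_dil', sumElim_dotProduct_sumElim] at this ⊢
  simpa [mulVec_neg] using this

omit [DecidableEq D] in
lemma dil_dot (a : ℝ) (M : Matrix D D ℝ) (u : D ⊕ D → ℝ) : dil a M *ᵥ u ⬝ᵥ dil a M *ᵥ u =
    a ^ 2 * (M *ᵥ (u ∘ Sum.inr) ⬝ᵥ M *ᵥ (u ∘ Sum.inr) +
      Mᵀ *ᵥ (u ∘ Sum.inl) ⬝ᵥ Mᵀ *ᵥ (u ∘ Sum.inl)) := by
  rw [dil, fromBlocks_mulVec]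
  simp only [zero_mulVec, zero_add, add_zero, sumElim_dotProduct_sumElim, transpose_smul,
    smul_mulVec, smul_dotProduct, dotProduct_smul, smul_eq_mul]
  ring

omit [DecidableEq D] in
lemma dot_sum (u : D ⊕ D → ℝ) :
    u ⬝ᵥ u = (u ∘ Sum.inr) ⬝ᵥ (u ∘ Sum.inr) + (u ∘ Sum.inl) ⬝ᵥ (u ∘ Sum.inl) := by
  simp only [dotProduct, Fintype.sum_sum_type, Function.comp]
  ring

omit [DecidableEq D] [DecidableEq I] in
lemma vr_dil (a : ℝ) {A : I → Matrix D D ℝ} {σ : ℝ} (h : Var A σ) (u : D ⊕ D → ℝ) :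
    vr (fun i => dil a (A i)) u ≤ a ^ 2 * σ ^ 2 * (u ⬝ᵥ u) := by
  have h1 := (h (u ∘ Sum.inr)).1
  have h2 := (h (u ∘ Sum.inl)).2
  simp only [vr, dil_dot, ← Finset.mul_sum, Finset.sum_add_distrib] at h1 h2 ⊢
  rw [dot_sum u, mul_assoc]
  exact mul_le_mul_of_nonneg_left (by linarith) (sq_nonneg a)

omit [DecidableEq D] in
lemma frob_dil (a : ℝ) (M : Matrix D D ℝ) : frob (dil a M) = 2 * a ^ 2 * frob M := by
  have := frob_transpose (a • M)
  rw [frob_smul] at this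
  rw [mul_assoc, two_mul]
  nth_rewrite 1 [← frob_smul]
  rw [← this]
  simp [frob, dil, Fintype.sum_sum_type]

omit [DecidableEq D] in
lemma op_of_dil {z : ℝ} (hz : 0 < z) {M : Matrix D D ℝ} (h : ∀ u, qf (dil z⁻¹ M) u ≤ u ⬝ᵥ u) :
    OpLe M z := fun v => by
  have a1 := h (Sum.elim (M *ᵥ v) (z • v))
  rw [qf_dil', sumElim_dotProduct_sumElim, mulVec_smul, dotProduct_smul, smul_dotProduct,
    dotProduct_smul] at a1
  simp only [smul_eq_mul] at a1
  rw [mul_assoc, ← mul_assoc z⁻¹, inv_mul_cancel₀ hz.ne'] at a1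
  linarith

lemma num1 {σ : ℝ} (hσ : 0 < σ) {p : ℕ} (hp : 1 ≤ p) :
    1024 * p * (2 ^ 18 * σ * √p)⁻¹ ^ 2 = 1 / 2 ^ 26 / σ ^ 2 := by
  have hp' : (0 : ℝ) < p := by exact_mod_cast hp
  rw [inv_pow, mul_pow, mul_pow, Real.sq_sqrt hp'.le]
  field_simp
  norm_num

lemma num2 {σ F : ℝ} (hσ : 0 < σ) (hF : 0 ≤ F) {p : ℕ} (hp : 1 ≤ p) :
    384 / 8 ^ p * (1024 * p * (2 * (2 ^ 18 * σ * √p)⁻¹ ^ 2 * F)) ≤
      F / σ ^ 2 / 2 ^ p / (8192 * p) := by
  have hp' : (0 : ℝ) < p := by exact_mod_cast hp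
  have a1 : (p : ℝ) ≤ 4 ^ p := by exact_mod_cast (Nat.lt_pow_self (by norm_num)).le
  calc _ = 384 / 8 ^ p * (2 * F) * (1024 * p * (2 ^ 18 * σ * √p)⁻¹ ^ 2) := by ring
    _ = F / σ ^ 2 / 2 ^ p / (8192 * p) * (3 / 32 * (p / 4 ^ p)) := by
      rw [num1 hσ hp, show (8 : ℝ) = 2 * 4 by norm_num, mul_pow]
      field_simp
      ring
    _ ≤ _ := mul_le_of_le_one_right (by positivity) (by
      linarith [(div_le_one (by positivity : (0 : ℝ) < 4 ^ p)).2 a1])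

theorem p_ENT : S_ENT := by
  intro D I K _ _ _ _ _ A σ p W x₀ hσ hp hV hF hW hx₀
  have hp' : ∀ k, (1 : ℝ) ≤ p k := fun k => by exact_mod_cast hp k
  obtain ⟨x, h1, h2, h3, h4⟩ := half' (fun k => bal_dil (2 ^ 18 * σ k * √(p k))⁻¹ (A k)) hp
    (fun k => by positivity) (fun k => vr_dil _ (hV k)) (fun k => by
      have := hσ k
      rw [← mul_assoc, num1 (hσ k) (hp k), div_mul_cancel₀ _ (by positivity)]
      norm_num) hW hx₀ (by
      refine le_trans (Finset.sum_le_sum fun k _ => ?_)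
        ((Finset.sum_div _ _ _).symm.trans_le (div_le_div_of_nonneg_right hF (by norm_num)))
      have a1 : 0 ≤ ∑ i, frob (A k i) := Finset.sum_nonneg fun i _ => frob_nonneg _
      simp only [frob_dil, ← Finset.mul_sum]
      refine (num2 (hσ k) a1 (hp k)).trans ?_
      gcongr
      linarith [hp' k])
  refine ⟨x, h1, h2, h3, fun k => op_of_dil ?_ fun u => by simpa only [lc_dil] using h4 k u⟩
  have := hσ k
  have := hp' k
  positivity

theorem p_DEEP : S_DEEP := by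
  intro D I _ _ _ _ A σ t p x₀ hσ ht hp hA hV hpσ hF hx₀
  have hp' : (1 : ℝ) ≤ p := by exact_mod_cast hp
  obtain ⟨x, h1, h2, h3⟩ := deep' (bal_dil (2 ^ 18 * σ * √p)⁻¹ A) hp
    (R := (2 ^ 18 * σ * √p)⁻¹ ^ 2) (by positivity) (by positivity) ht (vr_dil _ hV) (by
      rw [← mul_assoc, num1 hσ hp, div_mul_cancel₀ _ (by positivity)]
      norm_num) (fun i u => by
      have a1 := hA i (u ∘ Sum.inr)
      have a2 := tr_bound (hA i) (by norm_num) (u ∘ Sum.inl)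
      rw [dil_dot, dot_sum u]
      exact mul_le_mul_of_nonneg_left (by linarith) (sq_nonneg _)) (by
      calc _ = (2 : ℝ) ^ 30 * p * (1024 * p * (2 ^ 18 * σ * √p)⁻¹ ^ 2) := by ring
        _ = 16 * p / σ ^ 2 := by rw [num1 hσ hp]; field_simp; norm_num
        _ ≤ _ := by rw [div_le_iff₀ (by positivity)]; linarith) hx₀ (by
      simp only [frob_dil, ← Finset.mul_sum]
      refine (num2 hσ (Finset.sum_nonneg fun i _ => frob_nonneg _) hp).trans ?_
      gcongr)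
  exact ⟨x, h1, h2, op_of_dil (by positivity) fun u => by simpa only [lc_dil] using h3 u⟩

end Pool.Agent.P.MP_1157dd_an.N
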