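import Pool.Agent.P.MP_1157dd_an.N.Base

/-! The matrix Spencer bound with a variance parameter. -/

namespace Pool.Agent.P.MP_1157dd_an.N

open Matrix
open scoped ENNReal

namespace FAx

variable {d : ℕ} {I : Type} [Fintype I]

lemma op_iff (M : Matrix (Fin d) (Fin d) ℝ) {s : ℝ} (hs : 0 ≤ s) :
    ‖Matrix.toEuclideanCLM (𝕜 := ℝ) M‖ ≤ s ↔ OpLe M s := by
  constructor
  · intro h v
    have h1 := (Matrix.toEuclideanCLM (𝕜 := ℝ) M).le_of_opNorm_le h (WithLp.toLp 2 v)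
    have h2 := pow_le_pow_left₀ (norm_nonneg _) h1 2
    rw [mul_pow, EuclideanSpace.norm_sq_eq, EuclideanSpace.norm_sq_eq] at h2
    simpa [dot_eq_sq] using h2
  · intro h
    refine ContinuousLinearMap.opNorm_le_bound _ hs fun v => ?_
    refine abs_le_of_sq_le_sq' ?_ (by positivity) |>.2
    rw [mul_pow, EuclideanSpace.norm_sq_eq, EuclideanSpace.norm_sq_eq]
    simpa [dot_eq_sq] using h v.ofLp

lemma var_of {A : I → Matrix (Fin d) (Fin d) ℝ} {σ : ℝ}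
    (h : ‖Matrix.toEuclideanCLM (𝕜 := ℝ) (∑ i, (A i)ᵀ * A i)‖ ≤ σ ^ 2) (v : Fin d → ℝ) :
    vr A v ≤ σ ^ 2 * (v ⬝ᵥ v) := by
  have e : vr A v = v ⬝ᵥ (∑ i, (A i)ᵀ * A i) *ᵥ v := by
    rw [← qf, qf_sum]
    exact Finset.sum_congr rfl fun i _ => by rw [← qf_one, ← qf_conj, mul_one]
  have h0 := dot_nonneg v
  refine (abs_le_of_sq_le_sq' ?_ (by positivity)).2
  rw [e]
  refine (dot_sq_le _ _).trans ((mul_le_mul_of_nonneg_left
    ((op_iff _ (sq_nonneg σ)).1 h v) h0).trans_eq (by ring))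

lemma op_tr {M : Matrix (Fin d) (Fin d) ℝ} (h : OpLe M 1) : OpLe Mᵀ 1 := fun v => by
  rw [dot_eq_sq, dot_eq_sq v]
  exact transpose_bound h (sq_nonneg _) v

lemma var_card {A : I → Matrix (Fin d) (Fin d) ℝ} (h : ∀ i, OpLe (A i) 1) {s : ℝ}
    (hs : (Fintype.card I : ℝ) ≤ s ^ 2) (v : Fin d → ℝ) : vr A v ≤ s ^ 2 * (v ⬝ᵥ v) := by
  refine (Finset.sum_le_sum fun i _ => h i v).trans ?_
  rw [Finset.sum_const, nsmul_eq_mul, one_pow, one_mul]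
  exact mul_le_mul_of_nonneg_right hs (dot_nonneg v)

lemma svar (hLP : S_LP) {A : I → Matrix (Fin d) (Fin d) ℝ} {σ : ℝ} {p : ℕ} (hσ : 0 < σ)
    (hp : 4 ≤ p) (h : ∀ v, vr A v ≤ σ ^ 2 * (v ⬝ᵥ v)) (hF : ∑ i, frob (A i) ≤ σ ^ 4 * 2 ^ p)
    (hs : σ ^ 2 ≤ 256 * p) (O : Matrix (Fin d) (Fin d) ℝ) (hO : Oᵀ * O = 1) :
    lpn ((4 * p : ℕ) : ℝ≥0∞) (fun e => √(vr A fun a => O a e)) ≤ 2 * σ := by
  obtain ⟨k, hk⟩ : ∃ k, 2 * p = k + 1 := ⟨2 * p - 1, by omega⟩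
  refine ((hLP _ _ (by exact_mod_cast (by omega : 1 ≤ 4 * p)) _).2.2.2.2.2.2.1
    (ENNReal.natCast_ne_top _) _ (by positivity)).2 ?_
  simp only [ENNReal.toReal_natCast, Real.rpow_natCast]
  have h0 : ∀ e, 0 ≤ vr A fun a => O a e := fun e => Finset.sum_nonneg fun _ _ => dot_nonneg _
  have h1 : ∀ e, (vr A fun a => O a e) ≤ σ ^ 2 := fun e => by
    have := h fun a => O a e
    rwa [show (fun a => O a e) ⬝ᵥ (fun a => O a e) = (Oᵀ * O) e e from rfl, hO, one_apply_eq,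
      mul_one] at this
  have h2 : ∑ e, (vr A fun a => O a e) = ∑ i, frob (A i) := by
    rw [show (∑ e, vr A fun a => O a e) = _ from Finset.sum_comm]
    refine Finset.sum_congr rfl fun i _ => ?_
    have : frob (A i * O) = frob (A i) := by
      rw [frob_eq_trace, frob_eq_trace, transpose_mul, mul_assoc, trace_mul_comm, mul_assoc,
        mul_assoc, mul_eq_one_comm.1 hO, mul_one]
    rw [← this, frob_mul]
    exact Finset.sum_congr rfl fun e _ => by rw [← qf_one, ← qf_conj, mul_one]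
  have h3 : (256 * p : ℝ) * 2 ^ p ≤ 2 ^ (4 * p) := by
    have a1 : 2 ^ 8 ≤ 2 ^ (2 * p) := Nat.pow_le_pow_right (by norm_num) (by omega)
    have a2 := Nat.mul_le_mul (Nat.mul_le_mul a1 (Nat.lt_two_pow_self (n := p)).le) (le_refl (2 ^ p))
    rw [← pow_add, ← pow_add, show 2 * p + p + p = 4 * p by ring] at a2
    exact_mod_cast a2
  calc _ ≤ ∑ e, (σ ^ 2) ^ k * vr A fun a => O a e := Finset.sum_le_sum fun e _ => by
        rw [show 4 * p = 2 * (2 * p) by ring, pow_mul, sq_abs, Real.sq_sqrt (h0 e), hk, pow_succ]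
        exact mul_le_mul_of_nonneg_right (pow_le_pow_left₀ (h0 e) (h1 e) k) (h0 e)
    _ ≤ (σ ^ 2) ^ k * (σ ^ 2 * (256 * p) * 2 ^ p) := by
        rw [← Finset.mul_sum, h2]
        refine mul_le_mul_of_nonneg_left (hF.trans ?_) (by positivity)
        rw [show σ ^ 4 = σ ^ 2 * σ ^ 2 by ring]
        gcongr
    _ ≤ _ := by
        rw [mul_pow, show σ ^ (4 * p) = (σ ^ 2) ^ k * σ ^ 2 by
          rw [← pow_succ, ← hk, ← pow_mul]; congr 1; ring]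
        nlinarith [mul_le_mul_of_nonneg_left h3 (show 0 ≤ (σ ^ 2) ^ k * σ ^ 2 by positivity)]

lemma round (hENT : S_ENT) [DecidableEq I] {A : I → Matrix (Fin d) (Fin d) ℝ} {σ : ℝ} {p : ℕ}
    (hσ : 0 < σ) (h : ∀ i, OpLe (A i) 1) (hF : ∑ i, frob (A i) ≤ σ ^ 4 * 2 ^ p) (j : ℕ)
    (x₀ : I → ℝ) (hx : Cube x₀) (h1 : σ ^ 2 / 2 ^ (j + 1) < (free x₀).card)
    (h2 : (free x₀).card ≤ σ ^ 2 / 2 ^ j) : ∃ x : I → ℝ, Cube x ∧
      2 * (free x).card ≤ (free x₀).card ∧ ‖Matrix.toEuclideanCLM (𝕜 := ℝ) (lc A (x - x₀))‖ ≤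
        2 ^ 18 * √((p + 1 + 2 * j) * (σ ^ 2 / 2 ^ j)) := by
  have hc : Fintype.card {i // i ∈ free x₀} = (free x₀).card := Fintype.card_coe _
  obtain ⟨s, s0, hs⟩ : ∃ s : ℝ, 0 < s ∧ s ^ 2 = σ ^ 2 / 2 ^ j :=
    ⟨√(σ ^ 2 / 2 ^ j), by positivity, Real.sq_sqrt (by positivity)⟩
  have hc' : (Fintype.card {i // i ∈ free x₀} : ℝ) ≤ s ^ 2 := by rwa [hs, hc]
  have b : ∑ i : {i // i ∈ free x₀}, frob (A i) ≤ σ ^ 4 * 2 ^ p := by
    rw [Finset.sum_coe_sort (free x₀) fun i => frob (A i)]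
    exact (Finset.sum_le_sum_of_subset_of_nonneg (Finset.subset_univ _)
      fun i _ _ => frob_nonneg _).trans hF
  have b' : (∑ i : {i // i ∈ free x₀}, frob (A i)) / s ^ 2 / 2 ^ (p + 1 + 2 * j) ≤
      (Fintype.card {i // i ∈ free x₀} : ℝ) := by
    rw [hs, hc]
    refine le_trans ?_ h1.le
    calc _ ≤ σ ^ 4 * 2 ^ p / (σ ^ 2 / 2 ^ j) / 2 ^ (p + 1 + 2 * j) := by gcongr
      _ = _ := by field_simp; ring
  obtain ⟨x, a1, -, a2, a3⟩ := hENT (Fin d) {i // i ∈ free x₀} Unit (fun _ i => A i)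
    (fun _ => s) (fun _ => p + 1 + 2 * j) ⊤ (fun i => x₀ i) (fun _ => s0) (fun _ => by omega)
    (fun _ v => ⟨var_card (A := fun i : {i // i ∈ free x₀} => A i) (fun i => h i.1) hc' v,
      var_card (A := fun i : {i // i ∈ free x₀} => (A i)ᵀ) (fun i => op_tr (h i.1)) hc' v⟩)
    (by rw [Fintype.sum_unique]; exact b') (cod_top.mono (by positivity)) fun i => hx i
  obtain ⟨z, b1, -, b2, -, b3⟩ := exists_ext hx x a1
  refine ⟨z, b1, by rwa [b2, ← hc], ?_⟩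
  have b4 : lc A (z - x₀) = lc (fun i : {i // i ∈ free x₀} => A i)
    (x - fun i : {i // i ∈ free x₀} => x₀ i) := b3 A
  have b5 : 0 ≤ 2 ^ 18 * s * √((p + 1 + 2 * j : ℕ) : ℝ) := by positivity
  rw [b4, ← hs, Real.sqrt_mul' _ (sq_nonneg s), Real.sqrt_sq s0.le]
  refine ((op_iff _ b5).2 (a3 ())).trans_eq ?_
  push_cast
  ring

end FAx

open FAx in
theorem p_FA (hLP : S_LP) (hSCH : S_SCH) (hENT : S_ENT) (hDEEP : S_DEEP) (hNCKS : S_NCKS)
    (hROUNDS : S_ROUNDS) : S_FA := by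
  refine ⟨2 ^ 18 * 27, fun d n A σ hσ hA h1 h2 => ?_⟩
  change ∃ ε : Fin n → ℝ, Sign ε ∧ ‖Matrix.toEuclideanCLM (𝕜 := ℝ) (lc A ε)‖ ≤
    2 ^ 18 * 27 * σ * max 1 √(Real.log ((∑ i, frob (A i)) / σ ^ 4))
  obtain ⟨m, hm⟩ : ∃ m : ℝ, m = max 1 √(Real.log ((∑ i, frob (A i)) / σ ^ 4)) := ⟨_, rfl⟩
  have m1 : 1 ≤ m := hm ▸ le_max_left _ _
  have m2 : Real.log ((∑ i, frob (A i)) / σ ^ 4) ≤ m ^ 2 :=
    (Real.sqrt_le_iff.1 (hm ▸ le_max_right _ _)).2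
  have m3 := one_le_pow₀ m1 (n := 2)
  rw [← hm]
  obtain ⟨p, p1, p2, p3⟩ : ∃ p : ℕ, 4 ≤ p ∧ 2 * m ^ 2 ≤ p ∧ (p : ℝ) + 1 ≤ (3 * m) ^ 2 := by
    refine ⟨⌈2 * m ^ 2⌉₊ + 4, by omega, ?_, ?_⟩ <;> push_cast
    · linarith [Nat.le_ceil (2 * m ^ 2)]
    · linarith [Nat.ceil_lt_add_one (show 0 ≤ 2 * m ^ 2 by positivity)]
  have hF : ∑ i, frob (A i) ≤ σ ^ 4 * 2 ^ p := by
    rw [← div_le_iff₀' (by positivity)]
    refine (Real.le_exp_log _).trans ?_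
    rw [← Real.exp_log (show (0 : ℝ) < 2 ^ p by positivity), Real.exp_le_exp, Real.log_pow]
    nlinarith [Real.log_two_gt_d9]
  have s1 : √((p : ℝ) + 1) ≤ 3 * m := Real.sqrt_le_iff.2 ⟨by positivity, p3⟩
  have s2 : √(p : ℝ) ≤ 3 * m := (Real.sqrt_le_sqrt (by linarith)).trans s1
  have hA' : ∀ i, OpLe (A i) 1 := fun i => (op_iff _ zero_le_one).1 (hA i)
  have v1 := var_of h2
  have v2 := var_of (A := fun i => (A i)ᵀ) (by simpa only [transpose_transpose] using h1)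
  have hm0 : 0 ≤ σ * m := by positivity
  rcases le_total (256 * p : ℝ) (σ ^ 2) with hc | hc
  · obtain ⟨x, a1, a2, a3⟩ := hDEEP (Fin d) (Fin n) A σ (σ ^ 2) p 0 hσ (by positivity) (by omega)
      hA' (fun v => ⟨v1 v, v2 v⟩) hc (by
        rw [div_div, div_le_iff₀ (by positivity)]
        exact hF.trans_eq (by ring)) fun i => by simp
    have sub : ∀ y z, ‖Matrix.toEuclideanCLM (𝕜 := ℝ) (lc A (y + z))‖ ≤
        ‖Matrix.toEuclideanCLM (𝕜 := ℝ) (lc A y)‖ + ‖Matrix.toEuclideanCLM (𝕜 := ℝ) (lc A z)‖ :=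
      fun y z => by rw [lc_add, map_add]; exact norm_add_le _ _
    obtain ⟨ε, b1, b2⟩ := hROUNDS (Fin n) (fun y => ‖Matrix.toEuclideanCLM (𝕜 := ℝ) (lc A y)‖)
      (2 ^ 18) (p + 1) (σ ^ 2) sub (by simp [lc_zero]) (by positivity)
      (by exact_mod_cast (by omega : 4 ≤ p + 1)) (by positivity) (round hENT hσ hA' hF) x a1 a2
    refine ⟨ε, b1, ?_⟩
    have b3 := sub (ε - x) x
    have b4 := (op_iff _ (by positivity)).2 a3
    rw [sub_add_cancel] at b3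
    rw [sub_zero] at b4
    rw [Real.sqrt_mul (by positivity), Real.sqrt_sq hσ.le] at b2
    nlinarith [mul_le_mul_of_nonneg_left s1 hσ.le, mul_le_mul_of_nonneg_left s2 hσ.le]
  · have q2 : (2 : ℝ≥0∞) ≤ ((4 * p : ℕ) : ℝ≥0∞) := by exact_mod_cast (by omega : 2 ≤ 4 * p)
    have k := hNCKS d (Fin n) A _ (2 * σ) q2 (ENNReal.natCast_ne_top _) (by positivity)
      fun O hO => ⟨svar hLP hσ p1 v1 hF hc O hO,
        svar hLP hσ p1 v2 (by simpa only [frob_transpose] using hF) hc O hO⟩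
    obtain ⟨s, hs⟩ : ∃ s : Fin n → Bool, schatten ((4 * p : ℕ) : ℝ≥0∞) (lc A (sg s)) ≤
        8 * √((4 * p : ℕ) : ℝ≥0∞).toReal * (2 * σ) := by
      by_contra! hh
      rw [Finset.filter_true_of_mem fun s _ => hh s, Finset.card_univ, Fintype.card_fun,
        Fintype.card_bool] at k
      have := Nat.two_pow_pos (Fintype.card (Fin n))
      omega
    refine ⟨sg s, sign_sg s, ((op_iff _ (hLP _ _ (one_le_two.trans q2) _).1).2
      (hSCH d _ (one_le_two.trans q2) _).2.2.2.2.1).trans (hs.trans ?_)⟩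
    have s3 : √((4 * p : ℕ) : ℝ≥0∞).toReal ≤ 6 * m := by
      rw [ENNReal.toReal_natCast, Real.sqrt_le_iff]
      push_cast
      exact ⟨by positivity, by linarith⟩
    nlinarith [mul_le_mul_of_nonneg_left s3 hσ.le]

end Pool.Agent.P.MP_1157dd_an.N

/-! The entropy lemma in terms of operator norms. -/

namespace Pool.Agent.P.MP_1157dd_an.N

open Matrix
open scoped ENNReal

namespace FBx

lemma norm_sq {d : ℕ} (v : Fin d → ℝ) : ‖WithLp.toLp 2 v‖ ^ 2 = v ⬝ᵥ v := by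
  rw [EuclideanSpace.norm_sq_eq]
  simp [dot_eq_sq]

lemma dot_le {d : ℕ} {M : Matrix (Fin d) (Fin d) ℝ} {s : ℝ}
    (h : ‖Matrix.toEuclideanCLM (𝕜 := ℝ) M‖ ≤ s) (v : Fin d → ℝ) :
    v ⬝ᵥ M *ᵥ v ≤ s * (v ⬝ᵥ v) := by
  have h1 := (Matrix.toEuclideanCLM (𝕜 := ℝ) M).le_of_opNorm_le h (WithLp.toLp 2 v)
  have h2 := real_inner_le_norm (Matrix.toEuclideanCLM (𝕜 := ℝ) M (WithLp.toLp 2 v))
    (WithLp.toLp 2 v)
  have h3 : inner ℝ (Matrix.toEuclideanCLM (𝕜 := ℝ) M (WithLp.toLp 2 v)) (WithLp.toLp 2 v) =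
      v ⬝ᵥ M *ᵥ v := by
    simp [EuclideanSpace.inner_eq_star_dotProduct]
  rw [← h3, ← norm_sq, sq, ← mul_assoc]
  exact h2.trans (mul_le_mul_of_nonneg_right h1 (norm_nonneg _))

lemma vr_le {d n : ℕ} {A : Fin n → Matrix (Fin d) (Fin d) ℝ} {s : ℝ}
    (h : ‖Matrix.toEuclideanCLM (𝕜 := ℝ) (∑ i, (A i)ᵀ * A i)‖ ≤ s) (v : Fin d → ℝ) :
    vr A v ≤ s * (v ⬝ᵥ v) := by
  refine le_of_eq_of_le ?_ (dot_le h v)
  rw [vr, sum_mulVec, dotProduct_sum]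
  refine Finset.sum_congr rfl fun i _ => ?_
  rw [← mulVec_mulVec, dotProduct_mulVec v, vecMul_transpose]

lemma norm_le {d : ℕ} {M : Matrix (Fin d) (Fin d) ℝ} {s : ℝ} (hs : 0 ≤ s) (h : OpLe M s) :
    ‖Matrix.toEuclideanCLM (𝕜 := ℝ) M‖ ≤ s := by
  refine ContinuousLinearMap.opNorm_le_bound _ hs fun v => ?_
  refine abs_le_of_sq_le_sq' ?_ (by positivity) |>.2
  rw [mul_pow, EuclideanSpace.norm_sq_eq, EuclideanSpace.norm_sq_eq]
  simpa [dot_eq_sq] using h v.ofLp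

lemma exp_le (l : ℝ) : 1 / (2 : ℝ) ^ ⌈2 * l ^ 2⌉₊ ≤ Real.exp (-l ^ 2) := by
  rw [Real.exp_neg, ← one_div]
  refine one_div_le_one_div_of_le (Real.exp_pos _) ?_
  rw [← Real.le_log_iff_exp_le (by positivity), Real.log_pow]
  have h1 := Nat.le_ceil (2 * l ^ 2)
  have h2 := Real.log_two_gt_d9
  nlinarith [sq_nonneg l]

end FBx

theorem p_FB (hENT : S_ENT) : S_FB := by
  refine ⟨2 ^ 19, fun d n m A σ l W x₀ hσ hl h1 h2 h3 hW hx => ?_⟩
  have l1 : ∀ k, 1 ≤ l k ^ 2 := fun k => one_le_pow₀ (hl k)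
  obtain ⟨x, a1, a2, a3, a4⟩ := hENT (Fin d) (Fin n) (Fin m) A σ (fun k => ⌈2 * l k ^ 2⌉₊) W x₀ hσ
    (fun k => Nat.one_le_ceil_iff.2 (by linarith [l1 k]))
    (fun k v => ⟨FBx.vr_le (h2 k) v, FBx.vr_le (by simpa using h1 k) v⟩)
    (by
      rw [Fintype.card_fin]
      refine le_trans (Finset.sum_le_sum fun k _ => ?_) h3
      rw [div_eq_mul_one_div]
      exact mul_le_mul_of_nonneg_left (FBx.exp_le _) (by unfold frob; positivity))
    (by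
      have : (7 * n : ℝ) ≤ 8 * Module.finrank ℝ W := by exact_mod_cast hW
      rw [Cod, Fintype.card_fin]
      linarith) hx
  refine ⟨x, a1, a2, ?_, fun k => ?_⟩
  · have := Finset.card_filter_add_card_filter_not (s := Finset.univ) fun i => |x i| < 1
    rw [Finset.card_univ, Fintype.card_fin] at this
    rw [Fintype.card_fin, free] at a3
    have e : (Finset.univ.filter fun i => |x i| = 1) = Finset.univ.filter fun i => ¬|x i| < 1 :=
      Finset.filter_congr fun i _ => ⟨fun h => not_lt.2 h.ge, fun h =>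
        le_antisymm (a1 i) (not_lt.1 h)⟩
    rw [e]
    omega
  · have s0 := hσ k
    refine (FBx.norm_le (by positivity) (a4 k)).trans ?_
    have : √(⌈2 * l k ^ 2⌉₊ : ℕ) ≤ 2 * l k := by
      rw [Real.sqrt_le_iff]
      have := Nat.ceil_lt_add_one (a := 2 * l k ^ 2) (by positivity)
      exact ⟨by linarith [hl k], by linarith [l1 k]⟩
    calc _ ≤ 2 ^ 18 * σ k * (2 * l k) := mul_le_mul_of_nonneg_left this (by positivity)
      _ = _ := by ring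

end Pool.Agent.P.MP_1157dd_an.N
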